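import Pool.Agent.W_4ce76a_h45.NearB

set_option autoImplicit false
set_option linter.unusedSectionVars false

/-!
# MP_4ce76a_lc, two-variable logic: the values of a polynomial near a point and near infinity
-/

namespace TF45

open TF14 MvPolynomial

variable {p : ℕ} {M N : Type} [Field M] [Field N] [Algebra M N] {O : ValuationSubring M}
  {O' : ValuationSubring N} {t : M} {t' : N} {ι : Type}

/-- the value of `f` at `(c, z)` as a polynomial in `z` whose coefficients are polynomials in `c`, and its Taylor expansion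
at `z0` with coefficients which are polynomials in `(c, z0)` -/
theorem exists_tay (f : MvPolynomial (ι ⊕ Unit) M) : ∃ (n : ℕ) (a : ℕ → MvPolynomial ι M)
    (b : ℕ → MvPolynomial (ι ⊕ Unit) M),
    (∀ (c : ι → N) (z : N), aeval (pr c z) f = ∑ i ∈ Finset.range n, aeval c (a i) * z ^ i) ∧
    ∀ (c : ι → N) (z z0 : N), aeval (pr c z) f =
      ∑ i ∈ Finset.range n, aeval (pr c z0) (b i) * (z - z0) ^ i := by
  obtain ⟨A, hA⟩ : ∃ A : Polynomial (MvPolynomial ι M), A =
    aeval (R := M) (Sum.elim (fun i => Polynomial.C (X i)) (fun _ => Polynomial.X)) f := ⟨_, rfl⟩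
  obtain ⟨B, hB⟩ : ∃ B : Polynomial (MvPolynomial (ι ⊕ Unit) M), B =
    aeval (R := M) (Sum.elim (fun i => Polynomial.C (X (Sum.inl i)))
      (fun _ => Polynomial.C (X (Sum.inr ())) + Polynomial.X)) f := ⟨_, rfl⟩
  have h1 : ∀ (c : ι → N) (z : N), aeval (pr c z) f =
      Polynomial.eval₂ (aeval (R := M) c : MvPolynomial ι M →ₐ[M] N).toRingHom z A := by
    intro c z
    have h2 : (aeval (R := M) (pr c z) : MvPolynomial (ι ⊕ Unit) M →ₐ[M] N).toRingHom =
        (Polynomial.eval₂RingHom (aeval (R := M) c : MvPolynomial ι M →ₐ[M] N).toRingHom z).comp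
        (aeval (R := M) (Sum.elim (fun i => Polynomial.C (X i)) (fun _ => Polynomial.X)) :
          MvPolynomial (ι ⊕ Unit) M →ₐ[M] Polynomial (MvPolynomial ι M)).toRingHom := by
      apply MvPolynomial.ringHom_ext
      · intro r
        simp [Polynomial.algebraMap_apply, MvPolynomial.algebraMap_eq]
      · intro i
        rcases i with i | i
        · simp [pr]
        · simp [pr]
    have h3 := congrArg (fun g : MvPolynomial (ι ⊕ Unit) M →+* N => g f) h2
    rw [hA]
    exact h3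
  have h2 : ∀ (c : ι → N) (z z0 : N), aeval (pr c z) f =
      Polynomial.eval₂ (aeval (R := M) (pr c z0) : MvPolynomial (ι ⊕ Unit) M →ₐ[M] N).toRingHom
        (z - z0) B := by
    intro c z z0
    have h2 : (aeval (R := M) (pr c z) : MvPolynomial (ι ⊕ Unit) M →ₐ[M] N).toRingHom =
        (Polynomial.eval₂RingHom
          (aeval (R := M) (pr c z0) : MvPolynomial (ι ⊕ Unit) M →ₐ[M] N).toRingHom
          (z - z0)).comp
        (aeval (R := M) (Sum.elim (fun i => Polynomial.C (X (Sum.inl i)))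
          (fun _ => Polynomial.C (X (Sum.inr ())) + Polynomial.X)) :
          MvPolynomial (ι ⊕ Unit) M →ₐ[M] Polynomial (MvPolynomial (ι ⊕ Unit) M)).toRingHom := by
      apply MvPolynomial.ringHom_ext
      · intro r
        simp [Polynomial.algebraMap_apply, MvPolynomial.algebraMap_eq]
      · intro i
        rcases i with i | i
        · simp [pr]
        · simp [pr]
    have h3 := congrArg (fun g : MvPolynomial (ι ⊕ Unit) M →+* N => g f) h2
    rw [hB]
    exact h3
  refine ⟨max A.natDegree B.natDegree + 1, fun i => A.coeff i, fun i => B.coeff i, ?_, ?_⟩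
  · intro c z
    rw [h1, Polynomial.eval₂_eq_sum_range' _ (Nat.lt_succ_of_le (le_max_left _ _))]
    rfl
  · intro c z z0
    rw [h2 c z z0, Polynomial.eval₂_eq_sum_range' _ (Nat.lt_succ_of_le (le_max_right _ _))]
    rfl

theorem Atom_infinite (h' : TA p N O' t') : Infinite N := by
  have h1 := infinite_ball h' (0 : N) (one_ne_zero)
  exact Set.infinite_univ_iff.1 (h1.mono (Set.subset_univ _))

theorem Atom_coeff (h' : TA p N O' t') (n : ℕ) (α : ℕ → N)
    (h : ∀ z : N, ∑ i ∈ Finset.range n, α i * z ^ i = 0) : ∀ i < n, α i = 0 := by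
  have := Atom_infinite h'
  have h1 : (∑ i ∈ Finset.range n, Polynomial.C (α i) * Polynomial.X ^ i) = 0 := by
    apply Polynomial.funext
    intro z
    rw [Polynomial.eval_finsetSum, Polynomial.eval_zero]
    simpa using h z
  intro i hi
  have h2 := congrArg (fun P => Polynomial.coeff P i) h1
  simp only [Polynomial.finsetSum_coeff, Polynomial.coeff_C_mul, Polynomial.coeff_X_pow,
    Polynomial.coeff_zero] at h2
  simpa [hi] using h2

theorem Atom_unit {q B x : N} (hv : O'.valuation q < 1) (h : Cl O' (B * q) x B) :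
    ∃ w : N, w ≠ 0 ∧ w ∈ O' ∧ w⁻¹ ∈ O' ∧ x = B * w := by
  obtain ⟨u, hu, hx⟩ := h
  have h1 : O'.valuation (q * u) < 1 := by
    rw [map_mul]
    exact mul_lt_one_of_lt_of_le hv ((O'.valuation_le_one_iff u).2 hu)
  have h2 : O'.valuation (1 + q * u) = 1 := Valuation.map_one_add_of_lt _ h1
  refine ⟨1 + q * u, ?_, ?_, ?_, ?_⟩
  · intro h0
    rw [h0, map_zero] at h2
    exact zero_ne_one h2
  · exact (O'.valuation_le_one_iff _).1 h2.le
  · rw [← O'.valuation_le_one_iff, map_inv₀, h2, inv_one]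
  · linear_combination hx

/-- the value of a polynomial near a point where it does not vanish -/
theorem Atom_val (h' : TA p N O' t') {σ : Type} [Finite σ] (G : MvPolynomial σ M) (u : σ → N)
    (hB : aeval u G ≠ 0) : ∃ d : N, d ≠ 0 ∧ ∀ u' : σ → N, (∀ i, Cl O' d (u' i) (u i)) →
      ∃ w : N, w ≠ 0 ∧ w ∈ O' ∧ w⁻¹ ∈ O' ∧ aeval u' G = aeval u G * w := by
  obtain ⟨q, hq, hv⟩ := nontriv h'
  obtain ⟨d, hd, h⟩ := cont_aeval (O := O') G u (mul_ne_zero hB hq)
  exact ⟨d, hd, fun u' hu' => Atom_unit hv (h u' hu')⟩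

/-- Proof: `exists_tay`; if all `a i` vanish at `c` then also at `c'` (`near_rel`).  Otherwise `f (c, z)` is a nonzero polynomial in
`z`, so some `b i` does not vanish at `(c, z0)`; `k` the smallest such `i`, `b = aeval (pr c z0) (b k)`; the `b i` with `i < k` vanish at
`(c', z0')` (`near_rel`), `b k` has there a value close to `b` (`cont_aeval`), the remaining terms are small if `z' - z0'` is small. -/
theorem taylor (hp : p.Prime) (h' : TA p N O' t') (hf : Emb O O' t t' (algebraMap M N))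
    [Finite ι] (f : MvPolynomial (ι ⊕ Unit) M) (c : ι → N) :
    (∀ (m : ℕ) (e : N) (c' : ι → N), Near M hp h' m e c c' → ∀ z, aeval (pr c' z) f = 0) ∨
    ∀ z0 : N, ∃ (k : ℕ) (b e : N), b ≠ 0 ∧ e ≠ 0 ∧ ∀ (m : ℕ) (c' : ι → N) (z0' : N),
      Near M hp h' m e (pr c z0) (pr c' z0') → ∀ z' : N, Cl O' e z' z0 →
      ∃ w : N, w ≠ 0 ∧ w ∈ O' ∧ w⁻¹ ∈ O' ∧ aeval (pr c' z') f = (z' - z0') ^ k * (b * w) := by
  obtain ⟨n, a, b, ha, hb⟩ := exists_tay (N := N) f
  by_cases h0 : ∀ i < n, aeval c (a i) = 0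
  · left
    intro m e c' hn z
    rw [ha]
    refine Finset.sum_eq_zero fun i hi => ?_
    rw [near_rel hp h' hf hn (a i) (h0 i (Finset.mem_range.1 hi)), zero_mul]
  right
  intro z0
  have h1 : ∃ i, i < n ∧ aeval (pr c z0) (b i) ≠ 0 := by
    by_contra hcon
    push Not at hcon
    apply h0
    apply Atom_coeff h' n (fun i => aeval c (a i))
    intro z
    rw [← ha, hb c z z0]
    refine Finset.sum_eq_zero fun i hi => ?_
    rw [hcon i (Finset.mem_range.1 hi), zero_mul]
  obtain ⟨k, ⟨hkn, hk⟩, hmin⟩ : ∃ k, (k < n ∧ aeval (pr c z0) (b k) ≠ 0) ∧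
      ∀ i, i < k → i < n → aeval (pr c z0) (b i) = 0 := by
    classical
    refine ⟨Nat.find h1, Nat.find_spec h1, fun i hik hin => ?_⟩
    by_contra hne
    exact Nat.find_min h1 hik ⟨hin, hne⟩
  obtain ⟨G, hG⟩ : ∃ G : MvPolynomial ((ι ⊕ Unit) ⊕ Unit) M, ∀ (v : ι ⊕ Unit → N) (u : N),
      aeval (pr v u) G =
        ∑ i ∈ (Finset.range n).filter (fun i => k ≤ i), aeval v (b i) * u ^ (i - k) := by
    refine ⟨∑ i ∈ (Finset.range n).filter (fun i => k ≤ i),
      rename Sum.inl (b i) * X (Sum.inr ()) ^ (i - k), fun v u => ?_⟩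
    rw [map_sum]
    refine Finset.sum_congr rfl fun i _ => ?_
    rw [map_mul, map_pow, aeval_X, aeval_rename]
    rfl
  have hG0 : aeval (pr (pr c z0) 0) G = aeval (pr c z0) (b k) := by
    rw [hG, Finset.sum_eq_single k]
    · rw [Nat.sub_self, pow_zero, mul_one]
    · intro i hi hik
      have h2 := (Finset.mem_filter.1 hi).2
      rw [zero_pow (by omega), mul_zero]
    · intro h2
      exact (h2 (Finset.mem_filter.2 ⟨Finset.mem_range.2 hkn, le_rfl⟩)).elim
  obtain ⟨d, hd, hval⟩ := Atom_val h' G (pr (pr c z0) 0) (by rw [hG0]; exact hk)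
  refine ⟨k, aeval (pr c z0) (b k), d, hk, hd, fun m c' z0' hn z' hz' => ?_⟩
  have hz0 : Cl O' d z0' z0 := hn.2 (Sum.inr ())
  have hu : Cl O' d (z' - z0') 0 := by
    obtain ⟨u, hu, hx⟩ := cl_trans hz' (cl_symm hz0)
    exact ⟨u, hu, by rw [sub_zero]; exact hx⟩
  obtain ⟨w, hw0, hw, hwi, hwe⟩ := hval (pr (pr c' z0') (z' - z0')) (by
    intro i
    rcases i with i | i
    · exact hn.2 i
    · exact hu)
  refine ⟨w, hw0, hw, hwi, ?_⟩
  rw [hG0, hG] at hwe
  rw [← hwe, hb c' z' z0', Finset.mul_sum,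
    ← Finset.sum_filter_of_ne (p := fun i => k ≤ i) (s := Finset.range n)]
  · refine Finset.sum_congr rfl fun i hi => ?_
    have h2 := (Finset.mem_filter.1 hi).2
    obtain ⟨j, rfl⟩ : ∃ j, i = k + j := ⟨i - k, by omega⟩
    rw [Nat.add_sub_cancel_left, pow_add]
    ring
  · intro i hi hne
    by_contra hik
    apply hne
    rw [near_rel hp h' hf hn (b i) (hmin i (not_le.1 hik) (Finset.mem_range.1 hi)), zero_mul]

/-- Proof: similarly with the largest `i` such that `a i` does not vanish at `c`. -/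
theorem taylor_inf (hp : p.Prime) (h' : TA p N O' t') (hf : Emb O O' t t' (algebraMap M N))
    [Finite ι] (f : MvPolynomial (ι ⊕ Unit) M) (c : ι → N) :
    (∀ (m : ℕ) (e : N) (c' : ι → N), Near M hp h' m e c c' → ∀ z, aeval (pr c' z) f = 0) ∨
    ∃ (k : ℕ) (b e : N), b ≠ 0 ∧ e ≠ 0 ∧ ∀ (m : ℕ) (c' : ι → N),
      Near M hp h' m e c c' → ∀ z' : N, z' ≠ 0 → Cl O' e z'⁻¹ 0 →
      ∃ w : N, w ≠ 0 ∧ w ∈ O' ∧ w⁻¹ ∈ O' ∧ aeval (pr c' z') f = z' ^ k * (b * w) := by
  obtain ⟨n, a, b, ha, hb⟩ := exists_tay (N := N) f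
  by_cases h0 : ∀ i < n, aeval c (a i) = 0
  · left
    intro m e c' hn z
    rw [ha]
    refine Finset.sum_eq_zero fun i hi => ?_
    rw [near_rel hp h' hf hn (a i) (h0 i (Finset.mem_range.1 hi)), zero_mul]
  right
  push Not at h0
  obtain ⟨k, ⟨hkn, hk⟩, hmax⟩ : ∃ k, (k < n ∧ aeval c (a k) ≠ 0) ∧
      ∀ i, k < i → i < n → aeval c (a i) = 0 := by
    classical
    obtain ⟨k, hk, hmax⟩ := Finset.exists_max_image
      ((Finset.range n).filter (fun i => aeval c (a i) ≠ 0)) id (by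
        obtain ⟨i, hi, hne⟩ := h0
        exact ⟨i, Finset.mem_filter.2 ⟨Finset.mem_range.2 hi, hne⟩⟩)
    rw [Finset.mem_filter, Finset.mem_range] at hk
    refine ⟨k, hk, fun i hki hin => ?_⟩
    by_contra hne
    have h1 : i ≤ k := hmax i (Finset.mem_filter.2 ⟨Finset.mem_range.2 hin, hne⟩)
    omega
  obtain ⟨G, hG⟩ : ∃ G : MvPolynomial (ι ⊕ Unit) M, ∀ (v : ι → N) (u : N),
      aeval (pr v u) G =
        ∑ i ∈ (Finset.range n).filter (fun i => i ≤ k), aeval v (a i) * u ^ (k - i) := by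
    refine ⟨∑ i ∈ (Finset.range n).filter (fun i => i ≤ k),
      rename Sum.inl (a i) * X (Sum.inr ()) ^ (k - i), fun v u => ?_⟩
    rw [map_sum]
    refine Finset.sum_congr rfl fun i _ => ?_
    rw [map_mul, map_pow, aeval_X, aeval_rename]
    rfl
  have hG0 : aeval (pr c 0) G = aeval c (a k) := by
    rw [hG, Finset.sum_eq_single k]
    · rw [Nat.sub_self, pow_zero, mul_one]
    · intro i hi hik
      have h2 := (Finset.mem_filter.1 hi).2
      rw [zero_pow (by omega), mul_zero]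
    · intro h2
      exact (h2 (Finset.mem_filter.2 ⟨Finset.mem_range.2 hkn, le_rfl⟩)).elim
  obtain ⟨d, hd, hval⟩ := Atom_val h' G (pr c 0) (by rw [hG0]; exact hk)
  refine ⟨k, aeval c (a k), d, hk, hd, fun m c' hn z' hz0 hz' => ?_⟩
  obtain ⟨w, hw0, hw, hwi, hwe⟩ := hval (pr c' z'⁻¹) (by
    intro i
    rcases i with i | i
    · exact hn.2 i
    · exact hz')
  refine ⟨w, hw0, hw, hwi, ?_⟩
  rw [hG0, hG] at hwe
  rw [← hwe, ha c' z', Finset.mul_sum,
    ← Finset.sum_filter_of_ne (p := fun i => i ≤ k) (s := Finset.range n)]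
  · refine Finset.sum_congr rfl fun i hi => ?_
    have h2 := (Finset.mem_filter.1 hi).2
    obtain ⟨j, rfl⟩ : ∃ j, k = i + j := ⟨k - i, by omega⟩
    rw [Nat.add_sub_cancel_left, pow_add, inv_pow]
    field_simp
  · intro i hi hne
    by_contra hik
    apply hne
    rw [near_rel hp h' hf hn (a i) (hmax i (not_le.1 hik) (Finset.mem_range.1 hi)), zero_mul]

end TF45
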