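import Pool.Agent.W_4ce76a_h45.Atom

set_option autoImplicit false
set_option linter.unusedSectionVars false

/-!
# MP_4ce76a_lc, two-variable logic: the atomic formulas
-/

namespace TF45

open TF14 MvPolynomial

variable {p : ℕ} {M N : Type} [Field M] [Field N] [Algebra M N] {O : ValuationSubring M}
  {O' : ValuationSubring N} {t : M} {t' : N} {ι : Type}

/-- the value of a polynomial at near points -/
theorem AtomB_near (hp : p.Prime) (h' : TA p N O' t') (hf : Emb O O' t t' (algebraMap M N))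
    [Finite ι] (f : MvPolynomial ι M) (c : ι → N) : ∃ e : N, e ≠ 0 ∧ ∀ (m : ℕ) (c' : ι → N),
      Near M hp h' m e c c' → ∃ w : N, w ≠ 0 ∧ w ∈ O' ∧ w⁻¹ ∈ O' ∧
        aeval c' f = aeval c f * w := by
  by_cases h0 : aeval c f = 0
  · refine ⟨1, one_ne_zero, fun m c' hn => ⟨1, one_ne_zero, O'.one_mem, ?_, ?_⟩⟩
    · rw [inv_one]
      exact O'.one_mem
    · rw [near_rel hp h' hf hn f h0, h0, zero_mul]
  · obtain ⟨d, hd, h⟩ := Atom_val h' f c h0
    exact ⟨d, hd, fun m c' hn => h c' hn.2⟩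

/-- Proof: if it is zero at `c`, `near_rel`, otherwise `cont_aeval`. -/
theorem lc_eq (hp : p.Prime) (h' : TA p N O' t') (hf : Emb O O' t t' (algebraMap M N))
    [Finite ι] (f : MvPolynomial ι M) : LC M hp h' fun c : ι → N => aeval c f = 0 := by
  intro c
  obtain ⟨e, he, h⟩ := AtomB_near hp h' hf f c
  refine ⟨0, e, he, fun c' hn => ?_⟩
  obtain ⟨w, hw0, _, _, hw⟩ := h 0 c' hn
  show aeval c' f = 0 ↔ aeval c f = 0
  rw [hw, mul_eq_zero]
  exact ⟨fun h1 => h1.resolve_right hw0, Or.inl⟩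

/-- divisibility does not see units -/
theorem AtomB_dvd {a b w w' : N} (hw0 : w ≠ 0) (hw : w ∈ O') (hwi : w⁻¹ ∈ O') (hw0' : w' ≠ 0)
    (hw' : w' ∈ O') (hwi' : w'⁻¹ ∈ O') :
    (∃ x ∈ O', b * w' = x * (a * w)) ↔ ∃ x ∈ O', b = x * a := by
  constructor
  · rintro ⟨x, hx, h⟩
    refine ⟨x * w * w'⁻¹, O'.mul_mem _ _ (O'.mul_mem _ _ hx hw) hwi', ?_⟩
    field_simp
    linear_combination h
  · rintro ⟨x, hx, h⟩
    refine ⟨x * w' * w⁻¹, O'.mul_mem _ _ (O'.mul_mem _ _ hx hw') hwi, ?_⟩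
    rw [h]
    field_simp

theorem lc_dvd (hp : p.Prime) (h' : TA p N O' t') (hf : Emb O O' t t' (algebraMap M N))
    [Finite ι] (f g : MvPolynomial ι M) :
    LC M hp h' fun c : ι → N => ∃ x ∈ O', aeval c g = x * aeval c f := by
  intro c
  obtain ⟨e1, he1, h1⟩ := AtomB_near hp h' hf f c
  obtain ⟨e2, he2, h2⟩ := AtomB_near hp h' hf g c
  obtain ⟨e, he, hr1, hr2⟩ := exists_both (O := O') he1 he2
  refine ⟨0, e, he, fun c' hn => ?_⟩
  obtain ⟨w, hw0, hw, hwi, hwe⟩ := h1 0 c' (near_radius hp h' hr1 hn)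
  obtain ⟨w', hw0', hw', hwi', hwe'⟩ := h2 0 c' (near_radius hp h' hr2 hn)
  show (∃ x ∈ O', aeval c' g = x * aeval c' f) ↔ ∃ x ∈ O', aeval c g = x * aeval c f
  rw [hwe, hwe']
  exact AtomB_dvd hw0 hw hwi hw0' hw' hwi'

/-- divisibility of `u ^ l d w'` by `u ^ k b w` for small `u` -/
theorem AtomB_ratio (h' : TA p N O' t') {b d : N} (hb : b ≠ 0) (hd : d ≠ 0) (k l : ℕ) :
    ∃ (e : N) (T : Prop), e ≠ 0 ∧ ∀ u : N, u ≠ 0 → Cl O' e u 0 → ∀ w w' : N, w ≠ 0 → w ∈ O' →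
      w⁻¹ ∈ O' → w' ≠ 0 → w' ∈ O' → w'⁻¹ ∈ O' →
      ((∃ x ∈ O', u ^ l * (d * w') = x * (u ^ k * (b * w))) ↔ T) := by
  obtain ⟨q, hq, hv⟩ := nontriv h'
  obtain ⟨x1, hx1, hx1O, hx1d⟩ := Cont_scale O' (d / b)
  obtain ⟨x2, hx2, hx2O, hx2d⟩ := Cont_scale O' (b / (d * q))
  refine ⟨x1 * x2, if l < k then False else if l = k then ∃ x ∈ O', d = x * b else True,
    mul_ne_zero hx1 hx2, ?_⟩
  intro u hu hcl w w' hw0 hw hwi hw0' hw' hwi'
  obtain ⟨v, hvO, hv2⟩ := hcl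
  rw [sub_zero] at hv2
  have e1 : u ^ l * (d * w') = (u ^ l * d) * w' := by ring
  have e2 : u ^ k * (b * w) = (u ^ k * b) * w := by ring
  rw [e1, e2, AtomB_dvd hw0 hw hwi hw0' hw' hwi']
  have huO : u ∈ O' := by
    rw [hv2]
    exact O'.mul_mem _ _ (O'.mul_mem _ _ hx1O hx2O) hvO
  rcases lt_trichotomy l k with hlk | hlk | hlk
  · rw [if_pos hlk, iff_false]
    rintro ⟨x, hx, h⟩
    obtain ⟨j, rfl⟩ : ∃ j, k = l + (j + 1) := ⟨k - l - 1, by omega⟩
    have h1 : d = x * (u ^ (j + 1) * b) := by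
      have h2 : u ^ l * d = u ^ l * (x * (u ^ (j + 1) * b)) := by
        rw [h, pow_add]
        ring
      exact mul_left_cancel₀ (pow_ne_zero l hu) h2
    have h3 : q⁻¹ = x * u ^ j * (x2 * (b / (d * q))) * (x1 * v) := by
      field_simp
      rw [hv2, pow_succ] at h1
      have h4 : d = x * u ^ j * (x1 * x2 * v) * b := by
        rw [← hv2] at h1 ⊢
        linear_combination h1
      linear_combination h4
    have h4 : q⁻¹ ∈ O' := by
      rw [h3]
      exact O'.mul_mem _ _ (O'.mul_mem _ _ (O'.mul_mem _ _ hx (O'.pow_mem huO j)) hx2d)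
        (O'.mul_mem _ _ hx1O hvO)
    have h5 : O'.valuation q⁻¹ ≤ 1 := (O'.valuation_le_one_iff _).2 h4
    rw [map_inv₀] at h5
    have h6 : 0 < O'.valuation q := (O'.valuation.pos_iff).2 hq
    exact absurd h5 (not_le.2 ((one_lt_inv₀ h6).2 hv))
  · rw [if_neg (by omega), if_pos hlk, hlk]
    constructor
    · rintro ⟨x, hx, h⟩
      refine ⟨x, hx, ?_⟩
      have h2 : u ^ k * d = u ^ k * (x * b) := by
        rw [h]
        ring
      exact mul_left_cancel₀ (pow_ne_zero k hu) h2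
    · rintro ⟨x, hx, h⟩
      refine ⟨x, hx, ?_⟩
      rw [h]
      ring
  · rw [if_neg (by omega), if_neg (by omega), iff_true]
    obtain ⟨j, rfl⟩ : ∃ j, l = k + (j + 1) := ⟨l - k - 1, by omega⟩
    refine ⟨u ^ j * (x1 * (d / b)) * (x2 * v), ?_, ?_⟩
    · exact O'.mul_mem _ _ (O'.mul_mem _ _ (O'.pow_mem huO j) hx1d) (O'.mul_mem _ _ hx2O hvO)
    · rw [pow_add, pow_succ]
      have h1 : u ^ j * (x1 * (d / b)) * (x2 * v) * (u ^ k * b) =
          u ^ j * u ^ k * d * (x1 * x2 * v) := by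
        field_simp
      rw [h1, ← hv2]
      ring

/-- Proof: `lc` from `lc_eq` (with `ι ⊕ Unit`); `pu`, `inf` from `taylor`, `taylor_inf`: both sides are true if
`f (c, Z) = 0` and false otherwise. -/
theorem good_eq (hp : p.Prime) (h' : TA p N O' t') (hf : Emb O O' t t' (algebraMap M N))
    [Finite ι] (f : MvPolynomial (ι ⊕ Unit) M) :
    Good M hp h' fun (c : ι → N) (z : N) => aeval (pr c z) f = 0 := by
  refine ⟨?_, ?_, ?_⟩
  · intro c z0
    obtain ⟨m, e, he, h⟩ := lc_eq hp h' hf f (pr c z0)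
    exact ⟨m, e, he, fun c' z0' hn => h (pr c' z0') hn⟩
  · intro c z0
    rcases taylor hp h' hf f c with h | h
    · refine ⟨0, 1, one_ne_zero, fun c' z0' hn z' z'' _ _ _ _ _ => ?_⟩
      have h1 := h 0 1 c' (near_fst hp h' hn) z'
      have h2 := h 0 1 c (near_refl hp h' 0 1 c) z''
      exact ⟨fun _ => h2, fun _ => h1⟩
    · obtain ⟨k, b, e, hb, he, h⟩ := h z0
      refine ⟨0, e, he, fun c' z0' hn z' z'' hz' hz'' hne hne' _ => ?_⟩
      obtain ⟨w, hw0, _, _, hw⟩ := h 0 c' z0' hn z' hz'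
      obtain ⟨w', hw0', _, _, hw'⟩ := h 0 c z0 (near_refl hp h' 0 e _) z'' hz''
      show aeval (pr c' z') f = 0 ↔ aeval (pr c z'') f = 0
      rw [hw, hw']
      have e1 : (z' - z0') ^ k * (b * w) ≠ 0 :=
        mul_ne_zero (pow_ne_zero _ (sub_ne_zero.2 hne)) (mul_ne_zero hb hw0)
      have e2 : (z'' - z0) ^ k * (b * w') ≠ 0 :=
        mul_ne_zero (pow_ne_zero _ (sub_ne_zero.2 hne')) (mul_ne_zero hb hw0')
      exact ⟨fun h => absurd h e1, fun h => absurd h e2⟩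
  · intro c
    rcases taylor_inf hp h' hf f c with h | h
    · refine ⟨0, 1, one_ne_zero, fun c' hn z' _ _ => ?_⟩
      have h1 := h 0 1 c' hn z'
      have h2 := h 0 1 c (near_refl hp h' 0 1 c) z'
      exact ⟨fun _ => h2, fun _ => h1⟩
    · obtain ⟨k, b, e, hb, he, h⟩ := h
      refine ⟨0, e, he, fun c' hn z' hz0 hz' => ?_⟩
      obtain ⟨w, hw0, _, _, hw⟩ := h 0 c' hn z' hz0 hz'
      obtain ⟨w', hw0', _, _, hw'⟩ := h 0 c (near_refl hp h' 0 e c) z' hz0 hz'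
      show aeval (pr c' z') f = 0 ↔ aeval (pr c z') f = 0
      rw [hw, hw']
      have e1 : z' ^ k * (b * w) ≠ 0 := mul_ne_zero (pow_ne_zero _ hz0) (mul_ne_zero hb hw0)
      have e2 : z' ^ k * (b * w') ≠ 0 := mul_ne_zero (pow_ne_zero _ hz0) (mul_ne_zero hb hw0')
      exact ⟨fun h => absurd h e1, fun h => absurd h e2⟩

/-- the divisibility is true if the numerator vanishes -/
theorem AtomB_zero {a b : N} (hb : b = 0) : ∃ x ∈ O', b = x * a :=
  ⟨0, O'.zero_mem, by rw [hb, zero_mul]⟩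

theorem AtomB_not {a b : N} (ha : a = 0) (hb : b ≠ 0) : ¬ ∃ x ∈ O', b = x * a := by
  rintro ⟨x, _, h⟩
  rw [ha, mul_zero] at h
  exact hb h

/-- Proof: `lc` from `lc_dvd`; `pu`: let `f (c', z') = (z' - z0') ^ k (b w)`, `g (c', z') = (z' - z0') ^ l (d w')`; for `z' ≠ z0'` it is
true iff `(z' - z0') ^ (l - k) d / b ∈ O'`: if `l = k` iff `d / b ∈ O'`, if `l > k` it is true and if `l < k` it is false for
`z' - z0'` small. -/
theorem good_dvd (hp : p.Prime) (h' : TA p N O' t') (hf : Emb O O' t t' (algebraMap M N))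
    [Finite ι] (f g : MvPolynomial (ι ⊕ Unit) M) :
    Good M hp h' fun (c : ι → N) (z : N) => ∃ x ∈ O', aeval (pr c z) g = x * aeval (pr c z) f := by
  refine ⟨?_, ?_, ?_⟩
  · intro c z0
    obtain ⟨m, e, he, h⟩ := lc_dvd hp h' hf f g (pr c z0)
    exact ⟨m, e, he, fun c' z0' hn => h (pr c' z0') hn⟩
  · intro c z0
    rcases taylor hp h' hf g c with hg | hg
    · refine ⟨0, 1, one_ne_zero, fun c' z0' hn z' z'' _ _ _ _ _ => ?_⟩
      have h1 := hg 0 1 c' (near_fst hp h' hn) z'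
      have h2 := hg 0 1 c (near_refl hp h' 0 1 c) z''
      exact ⟨fun _ => AtomB_zero h2, fun _ => AtomB_zero h1⟩
    obtain ⟨l, d, e2, hd, he2, hg⟩ := hg z0
    rcases taylor hp h' hf f c with h | h
    · refine ⟨0, e2, he2, fun c' z0' hn z' z'' hz' hz'' hne hne' _ => ?_⟩
      obtain ⟨w, hw0, _, _, hw⟩ := hg 0 c' z0' hn z' hz'
      obtain ⟨w', hw0', _, _, hw'⟩ := hg 0 c z0 (near_refl hp h' 0 e2 _) z'' hz''
      have h1 := h 0 e2 c' (near_fst hp h' hn) z'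
      have h2 := h 0 e2 c (near_refl hp h' 0 e2 c) z''
      have e1 : aeval (pr c' z') g ≠ 0 := by
        rw [hw]
        exact mul_ne_zero (pow_ne_zero _ (sub_ne_zero.2 hne)) (mul_ne_zero hd hw0)
      have e3 : aeval (pr c z'') g ≠ 0 := by
        rw [hw']
        exact mul_ne_zero (pow_ne_zero _ (sub_ne_zero.2 hne')) (mul_ne_zero hd hw0')
      exact ⟨fun h => absurd h (AtomB_not h1 e1), fun h => absurd h (AtomB_not h2 e3)⟩
    obtain ⟨k, b, e1, hb, he1, h⟩ := h z0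
    obtain ⟨e3, T, he3, hT⟩ := AtomB_ratio h' hb hd k l
    obtain ⟨e4, he4, r1, r2⟩ := exists_both (O := O') he1 he2
    obtain ⟨e, he, r4, r3⟩ := exists_both (O := O') he4 he3
    refine ⟨0, e, he, fun c' z0' hn z' z'' hz' hz'' hne hne' _ => ?_⟩
    have hz0 : Cl O' e z0' z0 := hn.2 (Sum.inr ())
    have hu : Cl O' e3 (z' - z0') 0 := by
      obtain ⟨u, hu, hx⟩ := r3 _ _ (cl_trans hz' (cl_symm hz0))
      exact ⟨u, hu, by rw [sub_zero]; exact hx⟩
    have hu' : Cl O' e3 (z'' - z0) 0 := by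
      obtain ⟨u, hu, hx⟩ := r3 _ _ hz''
      exact ⟨u, hu, by rw [sub_zero]; exact hx⟩
    have n1 : Near M hp h' 0 e1 (pr c z0) (pr c' z0') :=
      near_radius hp h' (fun a b hab => r1 a b (r4 a b hab)) hn
    have n2 : Near M hp h' 0 e2 (pr c z0) (pr c' z0') :=
      near_radius hp h' (fun a b hab => r2 a b (r4 a b hab)) hn
    obtain ⟨w1, a1, a2, a3, hw1⟩ := h 0 c' z0' n1 z' (r1 _ _ (r4 _ _ hz'))
    obtain ⟨w2, b1, b2, b3, hw2⟩ := hg 0 c' z0' n2 z' (r2 _ _ (r4 _ _ hz'))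
    obtain ⟨w3, c1, c2, c3, hw3⟩ := h 0 c z0 (near_refl hp h' 0 e1 _) z'' (r1 _ _ (r4 _ _ hz''))
    obtain ⟨w4, d1, d2, d3, hw4⟩ := hg 0 c z0 (near_refl hp h' 0 e2 _) z'' (r2 _ _ (r4 _ _ hz''))
    show (∃ x ∈ O', aeval (pr c' z') g = x * aeval (pr c' z') f) ↔
      ∃ x ∈ O', aeval (pr c z'') g = x * aeval (pr c z'') f
    rw [hw1, hw2, hw3, hw4, hT _ (sub_ne_zero.2 hne) hu w1 w2 a1 a2 a3 b1 b2 b3,
      hT _ (sub_ne_zero.2 hne') hu' w3 w4 c1 c2 c3 d1 d2 d3]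
  · intro c
    rcases taylor_inf hp h' hf g c with hg | hg
    · refine ⟨0, 1, one_ne_zero, fun c' hn z' _ _ => ?_⟩
      have h1 := hg 0 1 c' hn z'
      have h2 := hg 0 1 c (near_refl hp h' 0 1 c) z'
      exact ⟨fun _ => AtomB_zero h2, fun _ => AtomB_zero h1⟩
    obtain ⟨l, d, e2, hd, he2, hg⟩ := hg
    rcases taylor_inf hp h' hf f c with h | h
    · refine ⟨0, e2, he2, fun c' hn z' hz0 hz' => ?_⟩
      obtain ⟨w, hw0, _, _, hw⟩ := hg 0 c' hn z' hz0 hz'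
      obtain ⟨w', hw0', _, _, hw'⟩ := hg 0 c (near_refl hp h' 0 e2 _) z' hz0 hz'
      have h1 := h 0 e2 c' hn z'
      have h2 := h 0 e2 c (near_refl hp h' 0 e2 c) z'
      have e1 : aeval (pr c' z') g ≠ 0 := by
        rw [hw]
        exact mul_ne_zero (pow_ne_zero _ hz0) (mul_ne_zero hd hw0)
      have e3 : aeval (pr c z') g ≠ 0 := by
        rw [hw']
        exact mul_ne_zero (pow_ne_zero _ hz0) (mul_ne_zero hd hw0')
      exact ⟨fun h => absurd h (AtomB_not h1 e1), fun h => absurd h (AtomB_not h2 e3)⟩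
    obtain ⟨k, b, e1, hb, he1, h⟩ := h
    obtain ⟨e3, T, he3, hT⟩ := AtomB_ratio h' hb hd l k
    obtain ⟨e4, he4, r1, r2⟩ := exists_both (O := O') he1 he2
    obtain ⟨e, he, r4, r3⟩ := exists_both (O := O') he4 he3
    refine ⟨0, e, he, fun c' hn z' hz0 hz' => ?_⟩
    obtain ⟨w1, a1, a2, a3, hw1⟩ := h 0 c'
      (near_radius hp h' (fun a b hab => r1 a b (r4 a b hab)) hn) z' hz0 (r1 _ _ (r4 _ _ hz'))
    obtain ⟨w2, b1, b2, b3, hw2⟩ := hg 0 c'
      (near_radius hp h' (fun a b hab => r2 a b (r4 a b hab)) hn) z' hz0 (r2 _ _ (r4 _ _ hz'))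
    obtain ⟨w3, c1, c2, c3, hw3⟩ := h 0 c (near_refl hp h' 0 e1 _) z' hz0 (r1 _ _ (r4 _ _ hz'))
    obtain ⟨w4, d1, d2, d3, hw4⟩ := hg 0 c (near_refl hp h' 0 e2 _) z' hz0 (r2 _ _ (r4 _ _ hz'))
    -- multiply by `z' ^ (-k-l)`
    have hconv : ∀ w w' : N, (∃ x ∈ O', z' ^ l * (d * w') = x * (z' ^ k * (b * w))) ↔
        ∃ x ∈ O', z'⁻¹ ^ k * (d * w') = x * (z'⁻¹ ^ l * (b * w)) := by
      intro w w'
      have hk0 : z' ^ k ≠ 0 := pow_ne_zero _ hz0
      have hl0 : z' ^ l ≠ 0 := pow_ne_zero _ hz0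
      constructor
      · rintro ⟨x, hx, hxe⟩
        refine ⟨x, hx, ?_⟩
        rw [inv_pow, inv_pow]
        field_simp
        linear_combination hxe
      · rintro ⟨x, hx, hxe⟩
        refine ⟨x, hx, ?_⟩
        rw [inv_pow, inv_pow] at hxe
        field_simp at hxe
        linear_combination hxe
    show (∃ x ∈ O', aeval (pr c' z') g = x * aeval (pr c' z') f) ↔
      ∃ x ∈ O', aeval (pr c z') g = x * aeval (pr c z') f
    rw [hw1, hw2, hw3, hw4, hconv, hconv,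
      hT _ (inv_ne_zero hz0) (r3 _ _ hz') w1 w2 a1 a2 a3 b1 b2 b3,
      hT _ (inv_ne_zero hz0) (r3 _ _ hz') w3 w4 c1 c2 c3 d1 d2 d3]

/-- predicates of the first variables only -/
theorem good_old (hp : p.Prime) (h' : TA p N O' t') {R : (ι → N) → Prop} (hR : LC M hp h' R) :
    Good M hp h' fun (c : ι → N) (_ : N) => R c := by
  refine ⟨?_, ?_, ?_⟩
  · intro c z0
    obtain ⟨m, e, he, h⟩ := hR c
    exact ⟨m, e, he, fun c' z0' hn => h c' (near_fst hp h' hn)⟩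
  · intro c z0
    obtain ⟨m, e, he, h⟩ := hR c
    exact ⟨m, e, he, fun c' z0' hn _ _ _ _ _ _ _ => h c' (near_fst hp h' hn)⟩
  · intro c
    obtain ⟨m, e, he, h⟩ := hR c
    exact ⟨m, e, he, fun c' hn _ _ _ => h c' hn⟩

/-- predicates of the last variable only -/
theorem good_new (hp : p.Prime) (h' : TA p N O' t') (hf : Emb O O' t t' (algebraMap M N))
    {R : N → Prop} (hR : LC M hp h' fun z : Unit → N => R (z ())) :
    Good M hp h' fun (_ : ι → N) (z : N) => R z := by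
  refine ⟨?_, ?_, ?_⟩
  · intro c z0
    obtain ⟨m, e, he, h⟩ := hR fun _ => z0
    exact ⟨m, e, he, fun c' z0' hn => h (fun _ => z0') (near_snd hp h' hn)⟩
  · intro c z0
    obtain ⟨m, e, he, h⟩ := hR fun _ => z0
    refine ⟨m, e, he, fun c' z0' hn z' z'' _ _ _ _ hor => ?_⟩
    rcases hor with hz | ⟨hz, hn'⟩
    · rw [hz]
    · rw [hz]
      exact (h (fun _ => z'') hn').symm
  · intro c
    exact ⟨0, 1, one_ne_zero, fun c' hn z' _ _ => Iff.rfl⟩

end TF45
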