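import Pool.Agent.W_4ce76a_h14.LaurentD
import Pool.Agent.W_4ce76a_h14.OpenLB

set_option autoImplicit false
set_option linter.unusedSectionVars false

/-!
# MP_4ce76a_lc, two-variable logic: automorphisms of `F_p((t))`
-/

namespace TF45

open TF14

section Aut_ps

open PowerSeries

theorem Aut_sub_dvd {k : Type} [Field k] (a b f : PowerSeries k) (ha : constantCoeff a = 0) (hb : constantCoeff b = 0) :
    a - b ∣ subst a f - subst b f := by
  have ha' : HasSubst a := HasSubst.of_constantCoeff_zero' ha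
  have hb' : HasSubst b := HasSubst.of_constantCoeff_zero' hb
  by_cases hab : a = b
  · subst hab
    simp
  · have h0 : a - b ≠ 0 := sub_ne_zero.2 hab
    obtain ⟨m, u, hu⟩ : ∃ (m : ℕ) (u : (PowerSeries k)ˣ), a - b = X ^ m * (u : PowerSeries k) := by
      obtain ⟨m, u, hu⟩ := IsDiscreteValuationRing.eq_unit_mul_pow_irreducible h0 (PowerSeries.X_irreducible)
      exact ⟨m, u, by rw [hu, mul_comm]⟩
    rw [hu]
    refine (Units.mul_right_dvd).2 ?_
    -- f = trunc + X^m * f'
    obtain ⟨Q, f', hf⟩ : ∃ (Q : Polynomial k) (f' : PowerSeries k), f = (Q : PowerSeries k) + X ^ m * f' := by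
      refine ⟨trunc m f, PowerSeries.mk fun n => coeff (n + m) f, ?_⟩
      ext n
      rw [map_add, Polynomial.coeff_coe, coeff_trunc, coeff_X_pow_mul']
      rcases lt_or_ge n m with h | h
      · rw [if_pos h, if_neg (not_le.2 h), add_zero]
      · rw [if_neg (not_lt.2 h), if_pos h, zero_add, coeff_mk, Nat.sub_add_cancel h]
    have hX : ∀ c : PowerSeries k, constantCoeff c = 0 → X ^ m ∣ subst c (X ^ m * f') := by
      intro c hc
      have hc' : HasSubst c := HasSubst.of_constantCoeff_zero' hc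
      have h1 : subst c (X ^ m * f') = c ^ m * subst c f' := by
        rw [subst_mul hc', subst_pow hc', subst_X hc']
      rw [h1]
      exact Dvd.dvd.mul_right (pow_dvd_pow_of_dvd (X_dvd_iff.2 hc) m) _
    have h1 : subst a f - subst b f = (Polynomial.aeval a Q - Polynomial.aeval b Q) + (subst a (X ^ m * f') - subst b (X ^ m * f')) := by
      rw [hf, subst_add ha', subst_add hb', subst_coe ha', subst_coe hb']
      ring
    rw [h1]
    refine dvd_add ?_ (dvd_sub (hX a ha) (hX b hb))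
    have h2 : a - b ∣ Polynomial.aeval a Q - Polynomial.aeval b Q := by
      rw [Polynomial.aeval_def, Polynomial.aeval_def, Polynomial.eval₂_eq_eval_map, Polynomial.eval₂_eq_eval_map]
      exact Polynomial.sub_dvd_eval_sub _ _ _
    exact dvd_trans ⟨_, hu⟩ h2

/-- substitution as a ring equivalence -/
noncomputable def Aut_E {k : Type} [Field k] (P : PowerSeries k) (hP : constantCoeff P = 0) (h1 : IsUnit (coeff 1 P)) :
    PowerSeries k ≃+* PowerSeries k :=
  RingEquiv.ofRingHom (substAlgHom (R := k) (HasSubst.of_constantCoeff_zero' hP) : PowerSeries k →ₐ[k] PowerSeries k).toRingHom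
    (substAlgHom (R := k) (HasSubst.substInvOfIsUnit P h1) : PowerSeries k →ₐ[k] PowerSeries k).toRingHom
    (by
      refine RingHom.ext fun f => ?_
      show substAlgHom (R := k) (HasSubst.of_constantCoeff_zero' hP) (substAlgHom (R := k) (HasSubst.substInvOfIsUnit P h1) f) = f
      rw [coe_substAlgHom, coe_substAlgHom, subst_comp_subst_apply (HasSubst.substInvOfIsUnit P h1) (HasSubst.of_constantCoeff_zero' hP),
        subst_substInvOfIsUnit_left P hP h1, X_subst])
    (by
      refine RingHom.ext fun f => ?_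
      show substAlgHom (R := k) (HasSubst.substInvOfIsUnit P h1) (substAlgHom (R := k) (HasSubst.of_constantCoeff_zero' hP) f) = f
      rw [coe_substAlgHom, coe_substAlgHom, subst_comp_subst_apply (HasSubst.of_constantCoeff_zero' hP) (HasSubst.substInvOfIsUnit P h1),
        subst_substInvOfIsUnit_right P hP h1, X_subst])

theorem Aut_E_apply {k : Type} [Field k] (P : PowerSeries k) (hP : constantCoeff P = 0) (h1 : IsUnit (coeff 1 P)) (f : PowerSeries k) :
    Aut_E P hP h1 f = subst P f := by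
  show substAlgHom (R := k) (HasSubst.of_constantCoeff_zero' hP) f = _
  rw [coe_substAlgHom]

end Aut_ps

variable (p : ℕ) [hp : Fact p.Prime]

/-- the polynomial-like series `t + t ^ 2 G` -/
noncomputable def Aut_P (G : PowerSeries (ZMod p)) : PowerSeries (ZMod p) := PowerSeries.X + PowerSeries.X ^ 2 * G

theorem Aut_P0 (G : PowerSeries (ZMod p)) : PowerSeries.constantCoeff (Aut_P p G) = 0 := by
  unfold Aut_P
  simp

theorem Aut_P1 (G : PowerSeries (ZMod p)) : IsUnit (PowerSeries.coeff 1 (Aut_P p G)) := by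
  have h : PowerSeries.coeff 1 (Aut_P p G) = 1 := by
    unfold Aut_P
    rw [map_add, PowerSeries.coeff_one_X, PowerSeries.coeff_X_pow_mul', if_neg (by omega), add_zero]
  rw [h]
  exact isUnit_one

/-- the automorphism of `F_p((t))` -/
noncomputable def Aut_S (G : PowerSeries (ZMod p)) : L p ≃+* L p :=
  IsFractionRing.ringEquivOfRingEquiv (K := L p) (L := L p) (Aut_E (Aut_P p G) (Aut_P0 p G) (Aut_P1 p G))

theorem Aut_S_coe (G f : PowerSeries (ZMod p)) :
    Aut_S p G ((f : LaurentSeries (ZMod p)) : L p) = ((PowerSeries.subst (Aut_P p G) f : PowerSeries (ZMod p)) : LaurentSeries (ZMod p)) := by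
  have h := IsFractionRing.ringEquivOfRingEquiv_algebraMap (K := L p) (L := L p) (Aut_E (Aut_P p G) (Aut_P0 p G) (Aut_P1 p G)) f
  rw [Aut_E_apply] at h
  exact h

theorem Aut_coe_t : ((PowerSeries.X : PowerSeries (ZMod p)) : LaurentSeries (ZMod p)) = tL p := PowerSeries.coe_X

theorem Aut_coe_P (G : PowerSeries (ZMod p)) :
    ((Aut_P p G : PowerSeries (ZMod p)) : LaurentSeries (ZMod p)) = tL p + tL p ^ 2 * (G : LaurentSeries (ZMod p)) := by
  unfold Aut_P
  rw [PowerSeries.coe_add, PowerSeries.coe_mul, PowerSeries.coe_pow, Aut_coe_t]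

/-- Substitution.  For `ε ∈ t ^ 2 O` there is an automorphism `S ε` of `L p` which maps `O` onto `O` and `t` to `t + ε`, and
`S ε x - S ε' x ∈ (ε - ε') O` for `x ∈ O`.  Proof: for `x = ∑ x_n t ^ n ∈ O` put `S ε x = ∑ x_n (t + ε) ^ n`
(`PowerSeries.subst`, `PowerSeries.substAlgHom`, `HasSubst`); injective: keeps the order; surjective on `O`: successive
approximation (`O = F_p + (t + ε) O`, coefficients of the preimage one by one); extend to the field of fractions. -/
theorem exists_subst : ∃ S : L p → (L p ≃+* L p), ∀ g ∈ OL p,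
    S (tL p ^ 2 * g) (tL p) = tL p + tL p ^ 2 * g ∧
    (∀ x, S (tL p ^ 2 * g) x ∈ OL p ↔ x ∈ OL p) ∧
    ∀ g' ∈ OL p, ∀ x ∈ OL p, ∃ w ∈ OL p,
      S (tL p ^ 2 * g) x - S (tL p ^ 2 * g') x = tL p ^ 2 * (g - g') * w := by
  classical
  have hS : ∀ G : PowerSeries (ZMod p), ∃ G' : PowerSeries (ZMod p),
      tL p ^ 2 * (G : LaurentSeries (ZMod p)) = tL p ^ 2 * (G' : LaurentSeries (ZMod p)) := fun G => ⟨G, rfl⟩
  let S : L p → (L p ≃+* L p) := fun e =>
    if h : ∃ G : PowerSeries (ZMod p), e = tL p ^ 2 * (G : LaurentSeries (ZMod p)) then Aut_S p h.choose else RingEquiv.refl _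
  have key : ∀ G : PowerSeries (ZMod p), ∃ G' : PowerSeries (ZMod p),
      (G' : LaurentSeries (ZMod p)) = (G : LaurentSeries (ZMod p)) ∧ S (tL p ^ 2 * (G : LaurentSeries (ZMod p))) = Aut_S p G' := by
    intro G
    have h : ∃ G' : PowerSeries (ZMod p),
      tL p ^ 2 * (G : LaurentSeries (ZMod p)) = tL p ^ 2 * (G' : LaurentSeries (ZMod p)) := ⟨G, rfl⟩
    refine ⟨h.choose, ?_, ?_⟩
    · exact (mul_left_cancel₀ (pow_ne_zero 2 (LaurentD_tne p)) h.choose_spec).symm
    · exact dif_pos h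
  refine ⟨S, ?_⟩
  rintro _ ⟨G, rfl⟩
  obtain ⟨G1, hG1, hS1⟩ := key G
  refine ⟨?_, ?_, ?_⟩
  · rw [hS1, ← hG1, ← Aut_coe_t, Aut_S_coe, PowerSeries.subst_X (PowerSeries.HasSubst.of_constantCoeff_zero' (Aut_P0 p G1)),
      Aut_coe_P, Aut_coe_t]
  · intro x
    rw [hS1]
    constructor
    · rintro ⟨h, hh⟩
      have h2 : h = PowerSeries.subst (Aut_P p G1) ((Aut_E (Aut_P p G1) (Aut_P0 p G1) (Aut_P1 p G1)).symm h) := by
        rw [← Aut_E_apply (Aut_P p G1) (Aut_P0 p G1) (Aut_P1 p G1), RingEquiv.apply_symm_apply]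
      refine ⟨(Aut_E (Aut_P p G1) (Aut_P0 p G1) (Aut_P1 p G1)).symm h, ?_⟩
      apply (Aut_S p G1).injective
      rw [Aut_S_coe, ← h2, hh]
    · rintro ⟨f, rfl⟩
      rw [Aut_S_coe]
      exact ⟨_, rfl⟩
  · rintro _ ⟨G', rfl⟩ _ ⟨f, rfl⟩
    obtain ⟨G2, hG2, hS2⟩ := key G'
    rw [hS1, hS2, Aut_S_coe, Aut_S_coe]
    obtain ⟨w, hw⟩ := Aut_sub_dvd (Aut_P p G1) (Aut_P p G2) f (Aut_P0 p G1) (Aut_P0 p G2)
    refine ⟨(w : LaurentSeries (ZMod p)), ⟨w, rfl⟩, ?_⟩
    have h3 := congrArg (fun z : PowerSeries (ZMod p) => (z : LaurentSeries (ZMod p))) hw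
    simp only [PowerSeries.coe_sub, PowerSeries.coe_mul, Aut_coe_P] at h3
    rw [h3, ← hG1, ← hG2]
    ring

end TF45
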