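import Pool.Agent.W_4ce76a_h45.Def

set_option autoImplicit false
set_option linter.unusedSectionVars false

/-!
# MP_4ce76a_lc, two-variable logic: basic properties of `Near`
-/

namespace TF45

open TF14 MvPolynomial

variable {p : ℕ} {M N : Type} [Field M] [Field N] [Algebra M N] {O : ValuationSubring M}
  {O' : ValuationSubring N} {t : M} {t' : N} {ι κ : Type}

theorem near_refl (hp : p.Prime) (h' : TA p N O' t') (m : ℕ) (e : N) (c : ι → N) :
    Near M hp h' m e c c :=
  ⟨fun _ h => h, fun i => cl_refl e (c i)⟩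

theorem near_radius (hp : p.Prime) (h' : TA p N O' t') {m : ℕ} {e e' : N}
    (hee : ∀ a b, Cl O' e' a b → Cl O' e a b) {c c' : ι → N} (hn : Near M hp h' m e' c c') :
    Near M hp h' m e c c' :=
  ⟨hn.1, fun i => hee _ _ (hn.2 i)⟩

/-- the coordinates of level `m` are polynomials over `M` in those of level `m + k` (`Lam_key`,
`t' = algebraMap M N t`) -/
theorem exists_level (hp : p.Prime) (h' : TA p N O' t') (hf : Emb O O' t t' (algebraMap M N))
    {m m' : ℕ} (hm : m ≤ m') : ∃ P : ι × Fin (p ^ m) → MvPolynomial (ι × Fin (p ^ m')) M,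
      ∀ (c : ι → N) q, aeval (cd hp h' m' c) (P q) = cd hp h' m c q := by
  induction m', hm using Nat.le_induction with
  | base => exact ⟨fun q => X q, fun c q => aeval_X _ _⟩
  | succ m' _ ih =>
    obtain ⟨P, hP⟩ := ih
    refine ⟨fun q => bind₁ (fun r : ι × Fin (p ^ m') => ∑ k : Fin p, C (t ^ (k : ℕ)) *
      X (r.1, Lam_e p m' (k, r.2)) ^ p) (P q), fun c q => ?_⟩
    rw [aeval_bind₁, ← hP c q]
    have h1 : (fun r : ι × Fin (p ^ m') => aeval (cd hp h' (m' + 1) c)
        (∑ k : Fin p, C (t ^ (k : ℕ)) * X (r.1, Lam_e p m' (k, r.2)) ^ p :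
          MvPolynomial (ι × Fin (p ^ (m' + 1))) M)) = cd hp h' m' c := by
      funext r
      rw [map_sum, cd, Lam_key hp h' m' (c r.1) r.2]
      refine Finset.sum_congr rfl fun k _ => ?_
      rw [map_mul, aeval_C, map_pow, map_pow, aeval_X, hf.1]
      rfl
    rw [h1]

/-- composition with polynomials -/
theorem NearB_aux (hp : p.Prime) (h' : TA p N O' t') {m : ℕ} {e : N} {c c' : ι → N}
    (hn : Near M hp h' m e c c') {σ : Type} (P : σ → MvPolynomial (ι × Fin (p ^ m)) M)
    {u u' : σ → N} (hu : ∀ s, aeval (cd hp h' m c) (P s) = u s)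
    (hu' : ∀ s, aeval (cd hp h' m c') (P s) = u' s) (F : MvPolynomial σ M)
    (hF : aeval u F = 0) : aeval u' F = 0 := by
  have h1 := hn.1 (bind₁ P F)
  rw [aeval_bind₁, aeval_bind₁, funext hu, funext hu'] at h1
  exact h1 hF

theorem near_level (hp : p.Prime) (h' : TA p N O' t') (hf : Emb O O' t t' (algebraMap M N))
    {m m' : ℕ} (hm : m ≤ m') {e : N} {c c' : ι → N} (hn : Near M hp h' m' e c c') :
    Near M hp h' m e c c' := by
  obtain ⟨P, hP⟩ := exists_level (ι := ι) hp h' hf hm
  exact ⟨NearB_aux hp h' hn P (hP c) (hP c'), hn.2⟩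

/-- the relations of the tuple itself (`lam_spec`) -/
theorem near_rel (hp : p.Prime) (h' : TA p N O' t') (hf : Emb O O' t t' (algebraMap M N))
    {m : ℕ} {e : N} {c c' : ι → N} (hn : Near M hp h' m e c c') (F : MvPolynomial ι M)
    (hF : aeval c F = 0) : aeval c' F = 0 := by
  have h1 : ∀ (c : ι → N) (i : ι), aeval (cd hp h' m c)
      (∑ j : Fin (p ^ m), C (t ^ (j : ℕ)) * X (i, j) ^ (p ^ m) :
        MvPolynomial (ι × Fin (p ^ m)) M) = c i := by
    intro c i
    rw [map_sum]
    conv_rhs => rw [lam_spec hp h' m (c i)]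
    refine Finset.sum_congr rfl fun k _ => ?_
    rw [map_mul, aeval_C, map_pow, map_pow, aeval_X, hf.1]
    rfl
  exact NearB_aux hp h' hn _ (h1 c) (h1 c') F hF

/-- a tuple which is near a tuple of `M` is equal to it -/
theorem near_const (hp : p.Prime) (h' : TA p N O' t') (hf : Emb O O' t t' (algebraMap M N))
    {m : ℕ} {e : N} {c c' : ι → N} (hn : Near M hp h' m e c c') {i : ι} {a : M}
    (hi : c i = algebraMap M N a) : c' i = algebraMap M N a := by
  have h1 := near_rel hp h' hf hn (X i - C a)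
  rw [map_sub, map_sub, aeval_X, aeval_X, aeval_C, aeval_C, sub_eq_zero, sub_eq_zero] at h1
  exact h1 hi

/-- subtuples, renaming -/
theorem near_comp (hp : p.Prime) (h' : TA p N O' t') {m : ℕ} {e : N} {c c' : ι → N}
    (hn : Near M hp h' m e c c') (f : κ → ι) : Near M hp h' m e (c ∘ f) (c' ∘ f) := by
  refine ⟨NearB_aux hp h' hn (fun q => X (f q.1, q.2)) ?_ ?_, fun i => hn.2 (f i)⟩
  · intro s
    rw [aeval_X]
    rfl
  · intro s
    rw [aeval_X]
    rfl

theorem near_fst (hp : p.Prime) (h' : TA p N O' t') {m : ℕ} {e : N} {c c' : ι → N} {z z' : N}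
    (hn : Near M hp h' m e (pr c z) (pr c' z')) : Near M hp h' m e c c' :=
  near_comp hp h' hn Sum.inl

theorem near_snd (hp : p.Prime) (h' : TA p N O' t') {m : ℕ} {e : N} {c c' : ι → N} {z z' : N}
    (hn : Near M hp h' m e (pr c z) (pr c' z')) :
    Near M hp h' m e (fun _ : Unit => z) (fun _ : Unit => z') :=
  near_comp hp h' hn Sum.inr

theorem near_upd [DecidableEq ι] (hp : p.Prime) (h' : TA p N O' t') {m : ℕ} {e : N}
    {c c' : ι → N} {z z' : N} (v : ι) (hn : Near M hp h' m e (pr c z) (pr c' z')) :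
    Near M hp h' m e (Function.update c v z) (Function.update c' v z') := by
  have h1 : ∀ (c : ι → N) (z : N), Function.update c v z =
      pr c z ∘ fun i => if i = v then Sum.inr () else Sum.inl i := by
    intro c z
    funext i
    by_cases hi : i = v
    · subst hi
      simp [pr]
    · simp [pr, hi]
  rw [h1 c z, h1 c' z']
  exact near_comp hp h' hn _

/-- the tuples `(0, ..., z, ..., 0)` (`lam` of `0` is `0`) -/
theorem near_upd0 [DecidableEq ι] (hp : p.Prime) (h' : TA p N O' t') {m : ℕ} {e z z' : N} (v : ι)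
    (hn : Near M hp h' m e (fun _ : Unit => z) (fun _ : Unit => z')) :
    Near M hp h' m e (Function.update (0 : ι → N) v z) (Function.update (0 : ι → N) v z') := by
  have h0 : ∀ j, lam hp h' m (0 : N) j = 0 := by
    intro j
    have h1 := lam_sub hp h' m (0 : N) 0 j
    rwa [sub_self, sub_self] at h1
  have h1 : ∀ (z : N) (q : ι × Fin (p ^ m)),
      aeval (cd hp h' m fun _ : Unit => z) (if q.1 = v then X ((), q.2) else 0 :
        MvPolynomial (Unit × Fin (p ^ m)) M) =
        cd hp h' m (Function.update (0 : ι → N) v z) q := by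
    intro z q
    by_cases hq : q.1 = v
    · rw [if_pos hq, aeval_X]
      simp [cd, hq]
    · rw [if_neg hq, map_zero]
      simp [cd, hq, h0]
  refine ⟨NearB_aux hp h' hn _ (h1 z) (h1 z'), fun i => ?_⟩
  by_cases hi : i = v
  · subst hi
    rw [Function.update_self, Function.update_self]
    exact hn.2 ()
  · rw [Function.update_of_ne hi, Function.update_of_ne hi]
    exact cl_refl e _

theorem near_both (hp : p.Prime) (h' : TA p N O' t') (hf : Emb O O' t t' (algebraMap M N))
    (m1 m2 : ℕ) {e1 e2 : N} (he1 : e1 ≠ 0) (he2 : e2 ≠ 0) : ∃ (m : ℕ) (e : N), e ≠ 0 ∧ m1 ≤ m ∧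
      m2 ≤ m ∧ (∀ a b, Cl O' e a b → Cl O' e1 a b) ∧ (∀ a b, Cl O' e a b → Cl O' e2 a b) ∧
      ∀ {κ : Type} (c c' : κ → N), Near M hp h' m e c c' →
        Near M hp h' m1 e1 c c' ∧ Near M hp h' m2 e2 c c' := by
  obtain ⟨d, hd, h1, h2⟩ := exists_both (O := O') he1 he2
  refine ⟨max m1 m2, d, hd, le_max_left _ _, le_max_right _ _, h1, h2, ?_⟩
  intro κ c c' hn
  exact ⟨near_radius hp h' h1 (near_level hp h' hf (le_max_left _ _) hn),
    near_radius hp h' h2 (near_level hp h' hf (le_max_right _ _) hn)⟩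

end TF45
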