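import Pool.Agent.W_4ce76a_h45.Aut
import Pool.Agent.W_4ce76a_h45.NearB

set_option autoImplicit false
set_option linter.unusedSectionVars false

/-!
# MP_4ce76a_lc, two-variable logic: orbits of the automorphism group of `F_p((t))`
-/

namespace TF45

open TF14

variable (p : ℕ) [hp : Fact p.Prime]

theorem AutB_decomp {D : L p} (hD : D ∈ OL p) (h0 : D ≠ 0) :
    ∃ (k : ℕ) (u : L p), u ∈ OL p ∧ u⁻¹ ∈ OL p ∧ u ≠ 0 ∧ D = tL p ^ k * u := by
  obtain ⟨f, rfl⟩ := hD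
  have hf : f ≠ 0 := by
    rintro rfl
    exact h0 (by simp)
  obtain ⟨g, hg⟩ := (PowerSeries.isUnit_divided_by_X_pow_order hf).exists_right_inv
  have h1 : ((f.divXPowOrder : PowerSeries (ZMod p)) : LaurentSeries (ZMod p)) *
      (g : LaurentSeries (ZMod p)) = 1 := by
    rw [← PowerSeries.coe_mul, hg, PowerSeries.coe_one]
  refine ⟨f.order.toNat, (f.divXPowOrder : PowerSeries (ZMod p)), ⟨_, rfl⟩,
    ⟨g, (inv_eq_of_mul_eq_one_right h1).symm⟩, left_ne_zero_of_mul_eq_one h1, ?_⟩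
  have h2 := PowerSeries.X_pow_order_mul_divXPowOrder (f := f)
  conv_lhs => rw [← h2]
  rw [PowerSeries.coe_mul, PowerSeries.coe_pow, PowerSeries.coe_X]
  rfl

theorem AutB_one {g : L p} (hg : g ∈ OL p) :
    1 + tL p * g ∈ OL p ∧ (1 + tL p * g)⁻¹ ∈ OL p ∧ 1 + tL p * g ≠ 0 := by
  obtain ⟨G, rfl⟩ := hg
  have hc : PowerSeries.constantCoeff (1 + PowerSeries.X * G : PowerSeries (ZMod p)) ≠ 0 := by
    simp
  have h := PowerSeries.mul_inv_cancel _ hc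
  have e1 : 1 + tL p * (G : LaurentSeries (ZMod p)) =
      ((1 + PowerSeries.X * G : PowerSeries (ZMod p)) : LaurentSeries (ZMod p)) := by
    rw [PowerSeries.coe_add, PowerSeries.coe_mul, PowerSeries.coe_X, PowerSeries.coe_one]
    rfl
  rw [e1]
  have h2 : ((1 + PowerSeries.X * G : PowerSeries (ZMod p)) : LaurentSeries (ZMod p)) *
      (((1 + PowerSeries.X * G : PowerSeries (ZMod p))⁻¹ : PowerSeries (ZMod p)) :
        LaurentSeries (ZMod p)) = 1 := by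
    rw [← PowerSeries.coe_mul, h, PowerSeries.coe_one]
  exact ⟨⟨_, rfl⟩, ⟨_, (inv_eq_of_mul_eq_one_right h2).symm⟩, left_ne_zero_of_mul_eq_one h2⟩

/-- an automorphism with `t ↦ t + t ^ 2 g` keeps the order -/
theorem AutB_SD (S0 : L p ≃+* L p) (hS : ∀ x, S0 x ∈ OL p ↔ x ∈ OL p) {g : L p} (hg : g ∈ OL p)
    (ht : S0 (tL p) = tL p + tL p ^ 2 * g) {D : L p} (hD : D ∈ OL p) (h0 : D ≠ 0) :
    ∃ v : L p, v ∈ OL p ∧ v⁻¹ ∈ OL p ∧ v ≠ 0 ∧ S0 D = D * v := by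
  obtain ⟨k, u, hu, hui, hu0, hDk⟩ := AutB_decomp p hD h0
  obtain ⟨h1, h2, h3⟩ := AutB_one p hg
  have hS0 : S0 u ≠ 0 := fun h => hu0 (by simpa using h)
  refine ⟨(1 + tL p * g) ^ k * S0 u * u⁻¹, ?_, ?_, ?_, ?_⟩
  · exact (OL p).mul_mem _ _ ((OL p).mul_mem _ _ (pow_mem h1 k) ((hS u).2 hu)) hui
  · have e : ((1 + tL p * g) ^ k * S0 u * u⁻¹)⁻¹ = ((1 + tL p * g)⁻¹) ^ k * S0 u⁻¹ * u := by
      rw [map_inv₀, mul_inv, mul_inv, inv_inv, inv_pow]
    rw [e]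
    exact (OL p).mul_mem _ _ ((OL p).mul_mem _ _ (pow_mem h2 k) ((hS u⁻¹).2 hui)) hu
  · exact mul_ne_zero (mul_ne_zero (pow_ne_zero _ h3) hS0) (inv_ne_zero hu0)
  · have e1 : S0 D = (tL p + tL p ^ 2 * g) ^ k * S0 u := by
      rw [hDk, map_mul, map_pow, ht]
    have e2 : tL p + tL p ^ 2 * g = tL p * (1 + tL p * g) := by ring
    rw [e1, e2, mul_pow, hDk]
    field_simp

/-- Taylor expansion of one term -/
theorem AutB_term (S1 S2 : L p ≃+* L p) (hS1 : ∀ x, S1 x ∈ OL p ↔ x ∈ OL p) {a δ : L p}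
    (ha : a ∈ OL p) (hδ : δ ∈ OL p) (h1 : S1 (tL p) = a) (h2 : S2 (tL p) = a + δ)
    (hL : ∀ x ∈ OL p, ∃ w ∈ OL p, S2 x - S1 x = δ * w) (i : ℕ) {c : L p} (hc : c ∈ OL p) :
    ∃ w ∈ OL p, S2 (tL p ^ i * c ^ p) - S1 (tL p ^ i * c ^ p) =
      δ * S1 ((i : L p) * tL p ^ (i - 1) * c ^ p) + δ ^ 2 * w := by
  have hch := LaurentL_char p
  obtain ⟨w0, hw0, hw⟩ := hL c hc
  obtain ⟨k, hk⟩ := Polynomial.powAddExpansion (⟨a, ha⟩ : OL p) ⟨δ, hδ⟩ i
  have hk' : (a + δ) ^ i = a ^ i + (i : L p) * a ^ (i - 1) * δ + (k : L p) * δ ^ 2 := by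
    have := congrArg (fun x : OL p => (x : L p)) hk
    simpa using this
  have hC : S1 c ∈ OL p := (hS1 c).2 hc
  have e1 : S2 c = S1 c + δ * w0 := by rw [← hw]; ring
  have hp2 : p = p - 2 + 2 := by
    have := hp.out.two_le
    omega
  have e2 : (S2 c) ^ p = (S1 c) ^ p + δ ^ 2 * (δ ^ (p - 2) * w0 ^ p) := by
    rw [e1, add_pow_char, mul_pow]
    have : δ ^ p = δ ^ 2 * δ ^ (p - 2) := by
      rw [← pow_add]
      congr 1
      omega
    rw [this]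
    ring
  have hi : (i : L p) ∈ OL p := natCast_mem (OL p) i
  refine ⟨(k : L p) * (S1 c) ^ p + (a ^ i + (i : L p) * a ^ (i - 1) * δ + (k : L p) * δ ^ 2) *
    (δ ^ (p - 2) * w0 ^ p), ?_, ?_⟩
  · have m1 : ∀ x y : L p, x ∈ OL p → y ∈ OL p → x * y ∈ OL p := fun x y => (OL p).mul_mem x y
    have m2 : ∀ x y : L p, x ∈ OL p → y ∈ OL p → x + y ∈ OL p := fun x y => (OL p).add_mem x y
    refine m2 _ _ (m1 _ _ k.2 (pow_mem hC _)) (m1 _ _ (m2 _ _ (m2 _ _ (pow_mem ha _)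
      (m1 _ _ (m1 _ _ hi (pow_mem ha _)) hδ)) (m1 _ _ k.2 (pow_mem hδ _)))
      (m1 _ _ (pow_mem hδ _) (pow_mem hw0 _)))
  · have e3 : S2 (tL p ^ i * c ^ p) = (a + δ) ^ i * (S2 c) ^ p := by
      rw [map_mul, map_pow, map_pow, h2]
    have e4 : S1 (tL p ^ i * c ^ p) = a ^ i * (S1 c) ^ p := by
      rw [map_mul, map_pow, map_pow, h1]
    have e5 : S1 ((i : L p) * tL p ^ (i - 1) * c ^ p) =
        (i : L p) * a ^ (i - 1) * (S1 c) ^ p := by
      rw [map_mul, map_mul, map_pow, map_pow, h1, map_natCast]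
    rw [e3, e4, e5, hk', e2]
    ring

theorem AutB_expand (S1 S2 : L p ≃+* L p) (hS1 : ∀ x, S1 x ∈ OL p ↔ x ∈ OL p) {a δ : L p}
    (ha : a ∈ OL p) (hδ : δ ∈ OL p) (h1 : S1 (tL p) = a) (h2 : S2 (tL p) = a + δ)
    (hL : ∀ x ∈ OL p, ∃ w ∈ OL p, S2 x - S1 x = δ * w) {c : Fin p → L p}
    (hc : ∀ i, c i ∈ OL p) :
    ∃ w ∈ OL p, S2 (∑ i : Fin p, tL p ^ (i : ℕ) * c i ^ p) -
        S1 (∑ i : Fin p, tL p ^ (i : ℕ) * c i ^ p) =
      δ * S1 (∑ i : Fin p, ((i : ℕ) : L p) * tL p ^ ((i : ℕ) - 1) * c i ^ p) + δ ^ 2 * w := by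
  choose w hw hw2 using fun i : Fin p =>
    AutB_term p S1 S2 hS1 ha hδ h1 h2 hL (i : ℕ) (hc i)
  refine ⟨∑ i : Fin p, w i, sum_mem fun i _ => hw i, ?_⟩
  rw [map_sum, map_sum, map_sum, Finset.mul_sum, Finset.mul_sum, ← Finset.sum_add_distrib,
    ← Finset.sum_sub_distrib]
  exact Finset.sum_congr rfl fun i _ => hw2 i

theorem AutB_cast (n : ℕ) : ((n : ℕ) : L p) ^ p = n := by
  have h : algebraMap (ZMod p) (L p) (n : ZMod p) = (n : L p) := map_natCast _ n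
  rw [← h, ← map_pow, ZMod.pow_card]

/-- the derivative is not zero -/
theorem AutB_D {c : Fin p → L p}
    (hz : ∀ x : L p, (∑ i : Fin p, tL p ^ (i : ℕ) * c i ^ p) ≠ x ^ p) :
    (∑ i : Fin p, ((i : ℕ) : L p) * tL p ^ ((i : ℕ) - 1) * c i ^ p) ≠ 0 := by
  intro hD
  have hch := LaurentL_char p
  have hpr := hp.out
  obtain ⟨q, hq⟩ : ∃ q, p = q + 1 := ⟨p - 1, by have := hpr.pos; omega⟩
  set C : ℕ → L p := fun n => if h : n < p then c ⟨n, h⟩ else 0 with hC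
  have hCi : ∀ i : Fin p, C (i : ℕ) = c i := fun i => by simp [hC]
  have hCp : C p = 0 := by simp [hC]
  have e1 : (∑ i : Fin p, ((i : ℕ) : L p) * tL p ^ ((i : ℕ) - 1) * c i ^ p) =
      ∑ n ∈ Finset.range q, ((n + 1 : ℕ) : L p) * tL p ^ n * C (n + 1) ^ p := by
    have h1 : (∑ i : Fin p, ((i : ℕ) : L p) * tL p ^ ((i : ℕ) - 1) * c i ^ p) =
        ∑ n ∈ Finset.range p, ((n : ℕ) : L p) * tL p ^ (n - 1) * C n ^ p := by
      rw [← Fin.sum_univ_eq_sum_range (fun n => ((n : ℕ) : L p) * tL p ^ (n - 1) * C n ^ p) p]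
      exact Finset.sum_congr rfl fun i _ => by rw [hCi]
    have h2 : Finset.range p = Finset.range (q + 1) := by rw [← hq]
    rw [h1, h2, Finset.sum_range_succ']
    simp
  have e2 : (∑ i : Fin p, tL p ^ (i : ℕ) * (((i : ℕ) + 1 : ℕ) * C ((i : ℕ) + 1)) ^ p) =
      ∑ n ∈ Finset.range q, ((n + 1 : ℕ) : L p) * tL p ^ n * C (n + 1) ^ p := by
    rw [Fin.sum_univ_eq_sum_range (fun n => tL p ^ n * (((n + 1 : ℕ) : L p) * C (n + 1)) ^ p) p]
    have h2 : Finset.range p = Finset.range (q + 1) := by rw [← hq]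
    rw [h2, Finset.sum_range_succ]
    have h3 : C (q + 1) = 0 := by rw [← hq]; exact hCp
    rw [h3, mul_zero, zero_pow hpr.ne_zero, mul_zero, add_zero]
    refine Finset.sum_congr rfl fun n _ => ?_
    rw [mul_pow, AutB_cast]
    ring
  have e3 : (∑ i : Fin p, tL p ^ (i : ℕ) * (((i : ℕ) + 1 : ℕ) * C ((i : ℕ) + 1)) ^ p) =
      ∑ i : Fin p, tL p ^ (i : ℕ) * ((fun _ => 0 : Fin p → L p) i) ^ p := by
    rw [e2, ← e1, hD]
    simp [hpr.ne_zero]
  have e4 := LaurentK_unique p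
    (c := fun i : Fin p => (((i : ℕ) + 1 : ℕ) : L p) * C ((i : ℕ) + 1)) e3
  have e5 : ∀ n : ℕ, n + 1 < p → C (n + 1) = 0 := by
    intro n hn
    have h1 := congrFun e4 ⟨n, by omega⟩
    have h2 : (((n + 1 : ℕ) : L p)) * C (n + 1) = 0 := h1
    rcases mul_eq_zero.1 h2 with h3 | h3
    · rw [CharP.cast_eq_zero_iff (L p) p] at h3
      exact absurd (Nat.le_of_dvd (by omega) h3) (by omega)
    · exact h3
  refine hz (C 0) ?_
  have h1 : (∑ i : Fin p, tL p ^ (i : ℕ) * c i ^ p) =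
      ∑ n ∈ Finset.range p, tL p ^ n * C n ^ p := by
    rw [← Fin.sum_univ_eq_sum_range (fun n => tL p ^ n * C n ^ p) p]
    exact Finset.sum_congr rfl fun i _ => by rw [hCi]
  have h2 : Finset.range p = Finset.range (q + 1) := by rw [← hq]
  rw [h1, h2, Finset.sum_range_succ']
  rw [Finset.sum_eq_zero]
  · simp
  · intro n hn
    rw [e5 n (by have := Finset.mem_range.1 hn; omega), zero_pow hpr.ne_zero, mul_zero]

/-- powers of `t` are small -/
theorem AutB_small {e : L p} (he : e ≠ 0) : ∃ m : ℕ, ∀ n, m ≤ n → ∃ u ∈ OL p, tL p ^ n = e * u := by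
  obtain ⟨m, hm⟩ := LaurentD_frac p e⁻¹
  refine ⟨m, fun n hn => ⟨e⁻¹ * tL p ^ m * tL p ^ (n - m), ?_, ?_⟩⟩
  · exact (OL p).mul_mem _ _ hm (pow_mem (ta_L p).t_mem _)
  · have : tL p ^ n = tL p ^ m * tL p ^ (n - m) := by
      rw [← pow_add]
      congr 1
      omega
    rw [this]
    field_simp

/-- Newton iteration.  Let `y = ∑ t ^ i c_i ^ p ∈ O`, some `c_i ≠ 0`, `i ≥ 1`, `D = ∑ i t ^ (i - 1) c_i ^ p ≠ 0`.  With `S` from
`exists_subst`: `S (ε + δ) y - S ε y = δ S ε D + δ ^ 2 w`, `w ∈ O` (`(x - x') ^ p = x ^ p - x' ^ p`).  Solve `S ε y = y'` by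
`ε_0 = 0`, `ε_(n+1) = ε_n - (S ε_n y - y') / S ε_n D`; if `y' - y ∈ t ^ 3 D ^ 2 O` then `S ε_n y - y' ∈ t ^ (n + 3) D ^ 2 O`; the limit exists
(`seq_compact` for the `g_n` with `ε_n = t ^ 2 g_n`), and `S ε y` is the limit of `S ε_n y`. -/
theorem orbit_open_int {y : L p} (hy : y ∈ OL p) (hy' : ∀ x : L p, y ≠ x ^ p) :
    ∃ e : L p, e ≠ 0 ∧ ∀ y' : L p, Cl (OL p) e y' y → ∃ σ : L p ≃+* L p,
      (∀ x, σ x ∈ OL p ↔ x ∈ OL p) ∧ σ y = y' := by
  have m1 : ∀ x y : L p, x ∈ OL p → y ∈ OL p → x * y ∈ OL p := fun x y => (OL p).mul_mem x y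
  have m2 : ∀ x y : L p, x ∈ OL p → y ∈ OL p → x + y ∈ OL p := fun x y => (OL p).add_mem x y
  have htO : tL p ∈ OL p := (ta_L p).t_mem
  have ht0 : tL p ≠ 0 := LaurentD_tne p
  obtain ⟨S, hS⟩ := exists_subst p
  have h00 := hS 0 (OL p).zero_mem
  set S0 : L p ≃+* L p := S (tL p ^ 2 * 0) with hS0
  obtain ⟨z, hz⟩ : ∃ z, S0 z = y := S0.surjective y
  have hzO : z ∈ OL p := (h00.2.1 z).1 (by rw [hz]; exact hy)
  obtain ⟨c, hc, -⟩ := rep_L p z
  have hcO : ∀ i, c i ∈ OL p := int_L p c (by rw [← hc]; exact hzO)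
  have hznp : ∀ x : L p, (∑ i : Fin p, tL p ^ (i : ℕ) * c i ^ p) ≠ x ^ p := by
    intro x hx
    refine hy' (S0 x) ?_
    rw [← hz, hc, hx, map_pow]
  obtain ⟨D, hD⟩ : ∃ D, D = ∑ i : Fin p, ((i : ℕ) : L p) * tL p ^ ((i : ℕ) - 1) * c i ^ p :=
    ⟨_, rfl⟩
  have hD0 : D ≠ 0 := by
    rw [hD]
    exact AutB_D p hznp
  have hDO : D ∈ OL p := by
    rw [hD]
    exact sum_mem fun i _ => m1 _ _ (m1 _ _ (natCast_mem (OL p) _) (pow_mem htO _))
      (pow_mem (hcO i) _)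
  -- expansion
  have hexp : ∀ g ∈ OL p, ∀ g' ∈ OL p, ∃ w ∈ OL p, S (tL p ^ 2 * g') z - S (tL p ^ 2 * g) z =
      tL p ^ 2 * (g' - g) * S (tL p ^ 2 * g) D + (tL p ^ 2 * (g' - g)) ^ 2 * w := by
    intro g hg g' hg'
    have hd : tL p ^ 2 * (g' - g) ∈ OL p :=
      m1 _ _ (pow_mem htO _) ((OL p).toSubring.sub_mem hg' hg)
    have ha : tL p + tL p ^ 2 * g ∈ OL p := m2 _ _ htO (m1 _ _ (pow_mem htO _) hg)
    rw [hc, hD]
    refine AutB_expand p (S (tL p ^ 2 * g)) (S (tL p ^ 2 * g')) (hS g hg).2.1 ha hd (hS g hg).1 ?_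
      ?_ hcO
    · rw [(hS g' hg').1]
      ring
    · intro x hx
      exact (hS g' hg').2.2 g hg x hx
  refine ⟨tL p ^ 3 * D ^ 2, mul_ne_zero (pow_ne_zero _ ht0) (pow_ne_zero _ hD0), ?_⟩
  rintro y' ⟨u0, hu0, hyy⟩
  have hseq : ∀ n : ℕ, ∃ g ∈ OL p, ∃ u ∈ OL p,
      S (tL p ^ 2 * g) z - y' = tL p ^ (n + 3) * D ^ 2 * u := by
    intro n
    induction n with
    | zero =>
      refine ⟨0, (OL p).zero_mem, -u0, (OL p).neg_mem _ hu0, ?_⟩
      have : S (tL p ^ 2 * 0) z = y := hz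
      rw [this, zero_add]
      linear_combination -hyy
    | succ n ih =>
      obtain ⟨g, hg, u, hu, hgu⟩ := ih
      obtain ⟨v, hv, hvi, hv0, hDv⟩ := AutB_SD p (S (tL p ^ 2 * g)) (hS g hg).2.1 hg (hS g hg).1
        hDO hD0
      have hq : tL p ^ (n + 1) * D * u * v⁻¹ ∈ OL p :=
        m1 _ _ (m1 _ _ (m1 _ _ (pow_mem htO _) hDO) hu) hvi
      have hg' : g - tL p ^ (n + 1) * D * u * v⁻¹ ∈ OL p := (OL p).toSubring.sub_mem hg hq
      obtain ⟨w, hw, hw2⟩ := hexp g hg _ hg'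
      refine ⟨_, hg', tL p ^ (n + 2) * (u * v⁻¹) ^ 2 * w,
        m1 _ _ (m1 _ _ (pow_mem htO _) (pow_mem (m1 _ _ hu hvi) _)) hw, ?_⟩
      rw [hDv] at hw2
      have e1 : S (tL p ^ 2 * (g - tL p ^ (n + 1) * D * u * v⁻¹)) z - y' =
          (S (tL p ^ 2 * (g - tL p ^ (n + 1) * D * u * v⁻¹)) z - S (tL p ^ 2 * g) z) +
          (S (tL p ^ 2 * g) z - y') := by ring
      rw [e1, hw2, hgu]
      have e2 : g - tL p ^ (n + 1) * D * u * v⁻¹ - g = -(tL p ^ (n + 1) * D * u * v⁻¹) := by ring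
      rw [e2]
      have e3 : v⁻¹ * v = 1 := inv_mul_cancel₀ hv0
      linear_combination (-(tL p ^ (n + 3) * D ^ 2 * u)) * e3
  choose g hg u hu hgu using hseq
  obtain ⟨r, v, hr, hv, hlim⟩ := seq_compact p (k := 1) (fun m _ => g m) (fun m _ => hg m)
  have hfin : S (tL p ^ 2 * v 0) z = y' := by
    by_contra hne
    have hne' : S (tL p ^ 2 * v 0) z - y' ≠ 0 := sub_ne_zero.2 hne
    have he : tL p * (S (tL p ^ 2 * v 0) z - y') ≠ 0 := mul_ne_zero ht0 hne'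
    obtain ⟨m0, hm0⟩ := hlim _ he
    obtain ⟨m1', hm1⟩ := AutB_small p he
    set m := max m0 m1' with hm
    obtain ⟨a, ha, ha2⟩ := hm0 m (le_max_left _ _) 0
    have hrm : m ≤ r m := hr.le_apply
    obtain ⟨b, hb, hb2⟩ := hm1 (r m + 3) (by
      have : m1' ≤ m := le_max_right _ _
      omega)
    obtain ⟨w, hw, hw2⟩ := (hS (v 0) (hv 0)).2.2 (g (r m)) (hg _) z hzO
    have e1 : S (tL p ^ 2 * v 0) z - y' = tL p * (S (tL p ^ 2 * v 0) z - y') *
        (-(tL p ^ 2 * a * w) + b * D ^ 2 * u (r m)) := by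
      have e2 : S (tL p ^ 2 * v 0) z - y' =
          (S (tL p ^ 2 * v 0) z - S (tL p ^ 2 * g (r m)) z) +
          (S (tL p ^ 2 * g (r m)) z - y') := by ring
      have e3 : v 0 - g (r m) = -(tL p * (S (tL p ^ 2 * v 0) z - y') * a) := by
        rw [← ha2]
        ring
      have e4 : tL p ^ 2 * (v 0 - g (r m)) * w + tL p ^ (r m + 3) * D ^ 2 * u (r m) =
          tL p * (S (tL p ^ 2 * v 0) z - y') * (-(tL p ^ 2 * a * w) + b * D ^ 2 * u (r m)) := by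
        rw [e3, hb2]
        ring
      rw [← e4, ← hw2, ← hgu]
      ring
    have e5 : 1 = tL p * (-(tL p ^ 2 * a * w) + b * D ^ 2 * u (r m)) := by
      have e6 : (S (tL p ^ 2 * v 0) z - y') * 1 = (S (tL p ^ 2 * v 0) z - y') *
          (tL p * (-(tL p ^ 2 * a * w) + b * D ^ 2 * u (r m))) := by
        linear_combination e1
      exact mul_left_cancel₀ hne' e6
    refine (ta_L p).t_inv ?_
    have e7 : (tL p)⁻¹ = -(tL p ^ 2 * a * w) + b * D ^ 2 * u (r m) :=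
      inv_eq_of_mul_eq_one_right e5.symm
    rw [e7]
    exact m2 _ _ ((OL p).neg_mem _ (m1 _ _ (m1 _ _ (pow_mem htO _) ha) hw))
      (m1 _ _ (m1 _ _ hb (pow_mem hDO _)) (hu _))
  refine ⟨S0.symm.trans (S (tL p ^ 2 * v 0)), ?_, ?_⟩
  · intro x
    rw [RingEquiv.trans_apply, (hS (v 0) (hv 0)).2.1, ← h00.2.1, RingEquiv.apply_symm_apply]
  · rw [RingEquiv.trans_apply, ← hz, RingEquiv.symm_apply_apply]
    exact hfin

/-- for `y ∉ O` use `y⁻¹` (`div_cont`) -/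
theorem orbit_open {y : L p} (hy' : ∀ x : L p, y ≠ x ^ p) :
    ∃ e : L p, e ≠ 0 ∧ ∀ y' : L p, Cl (OL p) e y' y → ∃ σ : L p ≃+* L p,
      (∀ x, σ x ∈ OL p ↔ x ∈ OL p) ∧ σ y = y' := by
  rcases (OL p).mem_or_inv_mem y with h | h
  · exact orbit_open_int p h hy'
  · have hy0 : y ≠ 0 := by
      rintro rfl
      exact hy' 0 (by rw [zero_pow hp.out.ne_zero])
    obtain ⟨e, he, hσ⟩ := orbit_open_int p h (fun x hx => hy' x⁻¹ (by
      rw [inv_pow, ← hx, inv_inv]))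
    obtain ⟨d, hd, hdc⟩ := div_cont (O := OL p) (a := 1) hy0 he ⟨tL p, LaurentD_tne p, by
      rw [← not_le]
      intro hle
      refine (ta_L p).t_inv ?_
      rw [← (OL p).valuation_le_one_iff, map_inv₀]
      exact inv_le_one_of_one_le₀ hle⟩
    refine ⟨d, hd, fun y' hyd => ?_⟩
    obtain ⟨hy'0, hcl⟩ := hdc 1 y' (cl_refl _ _) hyd
    rw [one_div, one_div] at hcl
    obtain ⟨σ, h1, h2⟩ := hσ _ hcl
    refine ⟨σ, h1, ?_⟩
    rw [map_inv₀] at h2
    exact inv_injective h2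

/-- every element of `L p` is in `ZMod p` or of the form `y ^ (p ^ m)` with `y` not a `p`-th power (`frob_coeff`: if `x` is a
`p ^ m`-th power then the coefficients of `x` at the exponents not divisible by `p ^ m` vanish) -/
theorem exists_root (x : L p) : (∃ a : ZMod p, x = algebraMap (ZMod p) (L p) a) ∨
    ∃ (m : ℕ) (y : L p), x = y ^ (p ^ m) ∧ ∀ z : L p, y ≠ z ^ p := by
  by_cases hx : ∃ (m : ℕ) (y : L p), x = y ^ (p ^ m) ∧ ∀ z : L p, y ≠ z ^ p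
  · exact Or.inr hx
  · left
    push Not at hx
    have h1 : ∀ m : ℕ, ∃ y : L p, x = y ^ (p ^ m) := by
      intro m
      induction m with
      | zero => exact ⟨x, by simp⟩
      | succ m ih =>
        obtain ⟨y, hy⟩ := ih
        obtain ⟨z, hz⟩ := hx m y hy
        exact ⟨z, by rw [hy, hz, ← pow_mul, pow_succ, mul_comm]⟩
    have h2 : ∀ (m : ℕ) (y : L p) (n : ℤ), ¬ ((p : ℤ) ^ m ∣ n) → (y ^ (p ^ m)).coeff n = 0 := by
      intro m
      induction m with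
      | zero =>
        intro y n hn
        exact absurd (by simp) hn
      | succ m ih =>
        intro y n hn
        rw [pow_succ, pow_mul, LaurentL_coeff]
        split_ifs with hd
        · refine ih y _ fun hd2 => hn ?_
          obtain ⟨k, rfl⟩ := hd
          have hp0 : (p : ℤ) ≠ 0 := by exact_mod_cast hp.out.ne_zero
          rw [Int.mul_ediv_cancel_left _ hp0] at hd2
          rw [pow_succ, mul_comm ((p : ℤ) ^ m)]
          exact mul_dvd_mul_left _ hd2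
        · rfl
    refine ⟨x.coeff 0, ?_⟩
    have hC : algebraMap (ZMod p) (L p) = HahnSeries.C := Subsingleton.elim _ _
    rw [hC]
    ext n
    by_cases hn : n = 0
    · rw [hn, HahnSeries.C_apply, HahnSeries.coeff_single_same]
    · have h3 : (HahnSeries.C (x.coeff 0) : L p).coeff n = 0 := by
        rw [HahnSeries.C_apply, HahnSeries.coeff_single_of_ne hn]
      rw [h3]
      obtain ⟨y, hy⟩ := h1 n.natAbs
      rw [hy]
      refine h2 _ _ _ fun hd => ?_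
      have h4 := Int.natAbs_dvd_natAbs.2 hd
      rw [Int.natAbs_pow, Int.natAbs_natCast] at h4
      have h5 := Nat.le_of_dvd (Int.natAbs_pos.2 hn) h4
      exact absurd h5 (not_le.2 (Nat.lt_pow_self hp.out.one_lt))

/-- Proof: if `z0 ∈ ZMod p` then `near_const`.  If `z0 = y ^ (p ^ m)` then the coordinates of level `m` of `z0` are `y, 0, ..., 0`, so those of
`z'` are `y', 0, ..., 0` with `y'` close to `y` (`lam_cl`), `orbit_open`, and `σ z0 = z'`. -/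
theorem lc_inv (R : L p → Prop)
    (hR : ∀ σ : L p ≃+* L p, (∀ x, σ x ∈ OL p ↔ x ∈ OL p) → ∀ z, R (σ z) ↔ R z) :
    LC (K p) hp.out (ta_L p) fun z : Unit → L p => R (z ()) := by
  intro c
  have hpr := hp.out
  rcases exists_root p (c ()) with ⟨a, ha⟩ | ⟨m, y, hy, hynp⟩
  · refine ⟨0, 1, one_ne_zero, fun c' hn => ?_⟩
    have h1 := near_const hp.out (ta_L p) (emb_KL p) hn (i := ())
      (a := algebraMap (F p) (K p) (algebraMap (ZMod p) (F p) a)) (by rw [ha]; rfl)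
    have h2 : c' () = c () := by
      rw [h1, ha]
      rfl
    show R (c' ()) ↔ R (c ())
    rw [h2]
  · obtain ⟨e, he, hσ⟩ := orbit_open p hynp
    refine ⟨m, e ^ (p ^ m), pow_ne_zero _ he, fun c' hn => ?_⟩
    have hpm : 0 < p ^ m := pow_pos hpr.pos m
    have hpm0 : p ^ m ≠ 0 := hpm.ne'
    have hlam : lam hp.out (ta_L p) m (c ()) =
        fun j : Fin (p ^ m) => if (j : ℕ) = 0 then y else 0 := by
      refine lam_unique hp.out (ta_L p) m _ _ ?_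
      rw [Finset.sum_eq_single (⟨0, hpm⟩ : Fin (p ^ m))]
      · simp [hy]
      · intro j _ hj
        have hj0 : (j : ℕ) ≠ 0 := fun h => hj (Fin.ext h)
        rw [if_neg hj0, zero_pow hpm0, mul_zero]
      · intro h
        exact absurd (Finset.mem_univ _) h
    have hzero : ∀ j : Fin (p ^ m), (j : ℕ) ≠ 0 → lam hp.out (ta_L p) m (c' ()) j = 0 := by
      intro j hj
      have h1 := hn.1 (MvPolynomial.X ((), j)) (by
        rw [MvPolynomial.aeval_X]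
        show lam hp.out (ta_L p) m (c ()) j = 0
        rw [hlam]
        simp [hj])
      rw [MvPolynomial.aeval_X] at h1
      exact h1
    have hc' : c' () = (lam hp.out (ta_L p) m (c' ()) ⟨0, hpm⟩) ^ (p ^ m) := by
      have h1 := lam_spec hp.out (ta_L p) m (c' ())
      rw [Finset.sum_eq_single (⟨0, hpm⟩ : Fin (p ^ m))] at h1
      · simpa using h1
      · intro j _ hj
        have hj0 : (j : ℕ) ≠ 0 := fun h => hj (Fin.ext h)
        rw [hzero j hj0, zero_pow hpm0, mul_zero]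
      · intro h
        exact absurd (Finset.mem_univ _) h
    have hcl := lam_cl hp.out (ta_L p) m (hn.2 ()) ⟨0, hpm⟩
    have hly : lam hp.out (ta_L p) m (c ()) ⟨0, hpm⟩ = y := by
      rw [hlam]
      simp
    rw [hly] at hcl
    obtain ⟨σ, h1, h2⟩ := hσ _ hcl
    have h3 : σ (c ()) = c' () := by
      rw [hy, map_pow, h2, ← hc']
    show R (c' ()) ↔ R (c ())
    rw [← h3]
    exact hR σ h1 (c ())

end TF45
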