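import Pool.Agent.W_4ce76a_h45.NearB

set_option autoImplicit false
set_option linter.unusedSectionVars false

/-!
# MP_4ce76a_lc, two-variable logic: tuples of `M` near a tuple of `N`
-/

namespace TF45

open TF14 MvPolynomial

variable {p : ℕ} {M N : Type} [Field M] [Field N] [Algebra M N] {O : ValuationSubring M}
  {O' : ValuationSubring N} {t : M} {t' : N}

/-- Proof: see `ex_down` in `W_4ce76a_h14.ExDown`: `sep_base` for the coordinates `y` of level `m` of `c` gives `u` independent over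
`M`, `perturb`, `u'` in `M` close to `u` (`hdense`), `y'` algebraic over `M`, so in `M` (`hclosed`);
`a i = ∑ t ^ j * y' (i, j) ^ (p ^ m)` (`lam_unique` in `N`, `cl_lam`, `exists_pow_le`). -/
theorem kpoint (hp : p.Prime) (h : TA p M O t) (h' : TA p N O' t')
    (hf : Emb O O' t t' (algebraMap M N))
    (hclosed : ∀ y : N, IsAlgebraic M y → y ∈ Set.range (algebraMap M N))
    (hdense : ∀ y e : N, e ≠ 0 → ∃ z : M, Cl O' e (algebraMap M N z) y)
    {ι : Type} [Finite ι] (c : ι → N) (m : ℕ) {e : N} (he : e ≠ 0) :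
    ∃ a : ι → M, Near M hp h' m e c (fun i => algebraMap M N (a i)) := by
  classical
  obtain ⟨y, hyd⟩ : ∃ y : ι × Fin (p ^ m) → N, y = cd hp h' m c := ⟨_, rfl⟩
  obtain ⟨r, ⟨E⟩⟩ := Finite.exists_equiv_fin (ι × Fin (p ^ m))
  obtain ⟨l, u, hu, hy0⟩ := sep_base hp h h' hf (fun j : Fin r => y (E.symm j))
  have hy : ∀ q, IsSeparable (IntermediateField.adjoin M (Set.range u)) (y q) := by
    intro q
    have h1 := hy0 (E q)
    simp only [Equiv.symm_apply_apply] at h1
    exact h1
  obtain ⟨d0, hd0, hpow⟩ := exists_pow_le (O := O') hp m he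
  obtain ⟨d, hd, hpert⟩ := perturb h'.hens (nontriv h') u hu y hy hd0
  have hex : ∀ i, ∃ z : M, Cl O' d (algebraMap M N z) (u i) := fun i => hdense (u i) d hd
  choose u' hu' using hex
  obtain ⟨y', hy1, hy2, hy3⟩ := hpert (fun i => algebraMap M N (u' i)) hu'
  have halg : Algebra.IsAlgebraic M
      (IntermediateField.adjoin M (Set.range fun i => algebraMap M N (u' i))) := by
    refine IntermediateField.isAlgebraic_adjoin ?_
    rintro x ⟨i, rfl⟩
    exact isIntegral_algebraMap
  have hex : ∀ j, ∃ z : M, algebraMap M N z = y' j := by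
    intro j
    exact hclosed (y' j) ((hy3 j).restrictScalars M)
  choose y'' hy'' using hex
  have hsum : ∀ i, algebraMap M N (∑ j : Fin (p ^ m), t ^ (j : ℕ) * y'' (i, j) ^ (p ^ m)) =
      ∑ j : Fin (p ^ m), t' ^ (j : ℕ) * y' (i, j) ^ (p ^ m) := by
    intro i
    rw [map_sum]
    refine Finset.sum_congr rfl fun j _ => ?_
    rw [map_mul, map_pow, map_pow, hy'', hf.1]
  have hcd : cd hp h' m (fun i => algebraMap M N
      (∑ j : Fin (p ^ m), t ^ (j : ℕ) * y'' (i, j) ^ (p ^ m))) = y' := by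
    funext q
    obtain ⟨i, j⟩ := q
    show lam hp h' m (algebraMap M N
      (∑ j : Fin (p ^ m), t ^ (j : ℕ) * y'' (i, j) ^ (p ^ m))) j = y' (i, j)
    exact congrFun (lam_unique hp h' m _ (fun j => y' (i, j)) (hsum i)) j
  refine ⟨fun i => ∑ j : Fin (p ^ m), t ^ (j : ℕ) * y'' (i, j) ^ (p ^ m), ?_, ?_⟩
  · intro F hF
    rw [hcd]
    have h1 := hy2 (rename Sum.inr F) (by
      rw [aeval_rename, Sum.elim_comp_inr, hyd]
      exact hF)
    rwa [aeval_rename, Sum.elim_comp_inr] at h1
  · intro i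
    refine hpow _ _ ?_
    have h1 := cl_lam hp h' m (e := d0) (c := fun j => y' (i, j)) (d := fun j => y (i, j))
      (fun j => hy1 (i, j))
    have h2 : c i = ∑ j : Fin (p ^ m), t' ^ (j : ℕ) * y (i, j) ^ (p ^ m) := by
      rw [hyd]
      exact lam_spec hp h' m (c i)
    show Cl O' (d0 ^ (p ^ m)) (algebraMap M N
      (∑ j : Fin (p ^ m), t ^ (j : ℕ) * y'' (i, j) ^ (p ^ m))) (c i)
    rw [hsum i, h2]
    exact h1

end TF45
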