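import Pool.Agent.W_4ce76a_h45.Def

set_option autoImplicit false
set_option linter.unusedSectionVars false

/-!
# MP_4ce76a_lc, two-variable logic: separable over the coordinates of a level

Proof: as `sep_level` in `W_4ce76a_h14.SepLev` (there `x` is generic; here it is arbitrary, and the conclusion is that `s`
is algebraically independent over the field `EE` of all coordinates).
-/

namespace TF45

open TF14 IntermediateField

variable {p : ℕ} {M N : Type} [Field M] [Field N] [Algebra M N] {O : ValuationSubring M}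
  {O' : ValuationSubring N} {t : M} {t' : N} {k : ℕ}

theorem sep_any (hp : p.Prime) (h : TA p M O t) (h' : TA p N O' t')
    (hf : Emb O O' t t' (algebraMap M N)) (x : Fin k → N) {r : ℕ} (y : Fin r → N) (m1 : ℕ) :
    ∃ (m l : ℕ) (s : Fin l → N), m1 ≤ m ∧ AlgebraicIndependent (EE M hp h' x) s ∧
      ∀ j, IsSeparable (IntermediateField.adjoin M (Set.range (Sum.elim (lamt hp h' m x) s)))
        (y j) := by
  classical
  have : CharP N p := h'.char
  have hH : ∀ s : Finset N, LinearIndepOn (EE M hp h' x) id (s : Set N) →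
      LinearIndepOn (EE M hp h' x) (fun y => y ^ p) (s : Set N) :=
    lin_pow hp h' (EE M hp h' x) fun c hc i => EE_closed hp h h' hf x c hc i
  obtain ⟨l, s, hs, hsep⟩ := exists_sep hp (E := EE M hp h' x) hH y
  -- the fields of level `m`
  obtain ⟨D, hD⟩ : ∃ D : ℕ → IntermediateField M N,
    ∀ m, D m = adjoin M (Set.range (Sum.elim (lamt hp h' m x) s)) := ⟨_, fun _ => rfl⟩
  have hEm : ∀ m, Em M hp h' x m ≤ D m := by
    intro m
    rw [hD]
    unfold Em
    rw [adjoin_le_iff]
    rintro _ ⟨q, rfl⟩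
    exact subset_adjoin M _ ⟨Sum.inl q, rfl⟩
  have hsD : ∀ m i, s i ∈ D m := by
    intro m i
    rw [hD]
    exact subset_adjoin M _ ⟨Sum.inr i, rfl⟩
  have hmono : Monotone D := by
    intro m m' hmm
    rw [hD m, adjoin_le_iff]
    rintro _ ⟨q, rfl⟩
    rcases q with q | q
    · exact hEm m' (Em_mono hp h h' hf x hmm (subset_adjoin M _ ⟨q, rfl⟩))
    · exact hsD m' q
  have hmemU : ∀ z : N, z ∈ (⨆ m, D m) ↔ ∃ m, z ∈ D m := by
    intro z
    rw [← SetLike.mem_coe, coe_iSup_of_directed hmono.directed_le]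
    simp only [Set.mem_iUnion, SetLike.mem_coe]
  have hEU : EE M hp h' x ≤ ⨆ m, D m := iSup_mono hEm
  have hadj : ∀ z ∈ adjoin (EE M hp h' x) (Set.range s), ∃ m, z ∈ D m := by
    intro z hz
    have h1 : adjoin (EE M hp h' x) (Set.range s) ≤ extendScalars hEU := by
      rw [adjoin_le_iff]
      rintro _ ⟨i, rfl⟩
      exact (hmemU _).2 ⟨0, hsD 0 i⟩
    exact (hmemU z).1 (h1 hz)
  -- the level for every `y j`
  have hlev : ∀ j, ∃ m, ∀ i, algebraMap (adjoin (EE M hp h' x) (Set.range s)) N
      ((minpoly (adjoin (EE M hp h' x) (Set.range s)) (y j)).coeff i) ∈ D m := by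
    intro j
    obtain ⟨g, hg⟩ : ∃ g, g = minpoly (adjoin (EE M hp h' x) (Set.range s)) (y j) := ⟨_, rfl⟩
    rw [← hg]
    choose m hm using fun i : ℕ => hadj _ (g.coeff i).2
    refine ⟨(Finset.range (g.natDegree + 1)).sup m, fun i => ?_⟩
    by_cases hi : i ∈ Finset.range (g.natDegree + 1)
    · exact hmono (Finset.le_sup hi) (hm i)
    · rw [Finset.mem_range] at hi
      rw [Polynomial.coeff_eq_zero_of_natDegree_lt (by omega), map_zero]
      exact zero_mem _
  choose m hm using hlev
  obtain ⟨m0, hm0⟩ : ∃ m0, m0 = max m1 (Finset.univ.sup m) := ⟨_, rfl⟩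
  refine ⟨m0, l, s, ?_, hs, fun j => ?_⟩
  · rw [hm0]
    exact le_max_left _ _
  · rw [← hD m0]
    refine SepLev_isSep (D m0) (y j) (hsep j) fun i => ?_
    refine hmono ?_ (hm j i)
    rw [hm0]
    exact (Finset.le_sup (Finset.mem_univ j)).trans (le_max_right _ _)

end TF45
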