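import Pool.Agent.W_4ce76a_h45.PertR
import Pool.Agent.W_4ce76a_h45.SepL
import Pool.Agent.W_4ce76a_h45.NearB

set_option autoImplicit false
set_option linter.unusedSectionVars false

/-!
# MP_4ce76a_lc, two-variable logic: the lifting lemma
-/

namespace TF45

open TF14 MvPolynomial

variable {p : ℕ} {M N : Type} [Field M] [Field N] [Algebra M N] {O : ValuationSubring M}
  {O' : ValuationSubring N} {t : M} {t' : N}

/-- a polynomial in `A ⊕ B` as a polynomial in `B` with coefficients polynomials in `A` -/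
theorem Lift_iter {A B : Type} (v : A → N) (s : B → N) (F : MvPolynomial (A ⊕ B) M) :
    aeval (Sum.elim v s) F = eval₂ ((aeval v : MvPolynomial A M →ₐ[M] N) : MvPolynomial A M →+* N) s
      (sumToIter M B A (rename Sum.swap F)) := by
  have h : ((aeval (Sum.elim v s) : MvPolynomial (A ⊕ B) M →ₐ[M] N) :
      MvPolynomial (A ⊕ B) M →+* N) =
      ((eval₂Hom ((aeval v : MvPolynomial A M →ₐ[M] N) : MvPolynomial A M →+* N) s).comp
        (sumToIter M B A)).comp ((rename Sum.swap : MvPolynomial (A ⊕ B) M →ₐ[M] _) :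
          MvPolynomial (A ⊕ B) M →+* MvPolynomial (B ⊕ A) M) := by
    refine ringHom_ext (fun r => ?_) (fun i => ?_)
    · simp [sumToIter_C]
    · rcases i with i | i
      · simp [sumToIter_Xr]
      · simp [sumToIter_Xl]
  exact congrArg (fun g : MvPolynomial (A ⊕ B) M →+* N => g F) h

/-- the relations of `(v, s)`, `s` independent over a field which contains the `v i`, follow from
the relations of `v` -/
theorem Lift_rel {A B : Type} (E : IntermediateField M N) (v v' : A → N) (s : B → N)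
    (hv : ∀ a, v a ∈ E) (hs : AlgebraicIndependent E s)
    (hrel : ∀ F : MvPolynomial A M, aeval v F = 0 → aeval v' F = 0)
    (F : MvPolynomial (A ⊕ B) M) (hF : aeval (Sum.elim v s) F = 0) :
    aeval (Sum.elim v' s) F = 0 := by
  rw [Lift_iter] at hF ⊢
  obtain ⟨G, hG⟩ : ∃ G, G = sumToIter M B A (rename Sum.swap F) := ⟨_, rfl⟩
  rw [← hG] at hF ⊢
  obtain ⟨φ, hφ⟩ : ∃ φ : MvPolynomial A M →ₐ[M] E, φ = aeval fun a => ⟨v a, hv a⟩ := ⟨_, rfl⟩
  have h1 : ((aeval v : MvPolynomial A M →ₐ[M] N) : MvPolynomial A M →+* N) =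
      (algebraMap E N).comp (φ : MvPolynomial A M →+* E) := by
    rw [hφ]
    refine ringHom_ext (fun r => ?_) (fun i => ?_)
    · simp only [RingHom.coe_coe, algHom_C, RingHom.comp_apply]
      exact IsScalarTower.algebraMap_apply M E N r
    · simp only [RingHom.coe_coe, aeval_X, RingHom.comp_apply]
      rfl
  have h2 : aeval s (map (φ : MvPolynomial A M →+* E) G) = 0 := by
    rw [aeval_def, eval₂_map, ← h1]
    exact hF
  have h3 : map (φ : MvPolynomial A M →+* E) G = 0 := by
    refine hs ?_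
    rw [map_zero]
    exact h2
  have h4 : ∀ b, aeval v (coeff b G) = 0 := by
    intro b
    have h5 : φ (coeff b G) = 0 := by
      have h6 := congrArg (coeff b) h3
      rw [coeff_map, coeff_zero] at h6
      exact h6
    have h7 := congrArg (fun g : MvPolynomial A M →+* N => g (coeff b G)) h1
    have h8 : aeval v (coeff b G) = algebraMap E N (φ (coeff b G)) := h7
    rw [h8, h5, map_zero]
  rw [eval₂_eq]
  refine Finset.sum_eq_zero fun b _ => ?_
  have h5 : ((aeval v' : MvPolynomial A M →ₐ[M] N) : MvPolynomial A M →+* N) (coeff b G) = 0 :=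
    hrel _ (h4 b)
  rw [h5, zero_mul]

/-- Proof.  Let `y` be the coordinates of level `m1` of `d`, take `m ≥ m1`, `l`, `s` from `sep_any`, `u = Sum.elim (lamt m c) s`.
`perturb_rel` gives `d0`; `e` such that `c'` `e`-close to `c` implies coordinates of level `m` `d0`-close (`lam_cl`, `exists_pow_le`)
and `e` is smaller than `e1`.  For `c'` near `c` take `u' = Sum.elim (lamt m c') s`: it satisfies the relations of `u`, since `s` is
algebraically independent over `EE`, which contains `lamt m c` (expand a polynomial in `Sum` variables as a polynomial in the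
variables of `s` with coefficients polynomials in the others: `MvPolynomial.sumAlgEquiv`).  `d' = ∑ t' ^ j * y' j ^ (p ^ m1)`, its
coordinates are `y'` (`lam_unique`), it is close to `d` (`cl_lam`); the coordinates of level `m1` of `(c, d)` are polynomials in
`(u, y)` (`exists_level`). -/
theorem lift_fin (hp : p.Prime) (h : TA p M O t) (h' : TA p N O' t')
    (hf : Emb O O' t t' (algebraMap M N)) {k : ℕ} (c : Fin k → N) (d : N) (m1 : ℕ) {e1 : N}
    (he1 : e1 ≠ 0) : ∃ (m : ℕ) (e : N), e ≠ 0 ∧ ∀ c' : Fin k → N, Near M hp h' m e c c' →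
      ∃ d' : N, Near M hp h' m1 e1 (pr c d) (pr c' d') := by
  obtain ⟨m, l, s, hm, hs, hsep⟩ := sep_any hp h h' hf c (lam hp h' m1 d) m1
  obtain ⟨d2, hd2, hd2'⟩ := exists_pow_le (O := O') hp m1 he1
  obtain ⟨d0, hd0, hpert⟩ := perturb_rel h'.hens (nontriv h') _ _ hsep hd2
  obtain ⟨e, he, hea, heb⟩ := exists_both (O := O') (pow_ne_zero (p ^ m) hd0) he1
  obtain ⟨P, hP⟩ := exists_level (ι := Fin k) (M := M) hp h' hf hm
  refine ⟨m, e, he, fun c' hn => ?_⟩
  have hrel : ∀ F : MvPolynomial ((Fin k × Fin (p ^ m)) ⊕ Fin l) M,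
      aeval (Sum.elim (lamt hp h' m c) s) F = 0 → aeval (Sum.elim (lamt hp h' m c') s) F = 0 := by
    intro F hF
    refine Lift_rel (EE M hp h' c) (lamt hp h' m c) (lamt hp h' m c') s ?_ hs hn.1 F hF
    intro q
    rw [mem_EE hp h h' hf c]
    exact ⟨m, LamField_mem_Em hp h' c m q.1 q.2⟩
  obtain ⟨y', hy', hF⟩ := hpert (Sum.elim (lamt hp h' m c') s) (by
      rintro (q | q)
      · exact lam_cl hp h' m (hea _ _ (hn.2 q.1)) q.2
      · exact cl_refl _ _) hrel
  have hd' : lam hp h' m1 (∑ j : Fin (p ^ m1), t' ^ (j : ℕ) * y' j ^ (p ^ m1)) = y' :=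
    lam_unique hp h' m1 _ y' rfl
  refine ⟨∑ j : Fin (p ^ m1), t' ^ (j : ℕ) * y' j ^ (p ^ m1), ?_, ?_⟩
  · -- the relations
    obtain ⟨θ, hθ⟩ : ∃ θ : (Fin k ⊕ Unit) × Fin (p ^ m1) →
        MvPolynomial (((Fin k × Fin (p ^ m)) ⊕ Fin l) ⊕ Fin (p ^ m1)) M,
        θ = fun q => Sum.elim (fun i => rename (Sum.inl ∘ Sum.inl) (P (i, q.2)))
          (fun _ => X (Sum.inr q.2)) q.1 := ⟨_, rfl⟩
    have key : ∀ (b : Fin k → N) (z : N) (w : Fin (p ^ m1) → N), lam hp h' m1 z = w →
        (fun q => aeval (Sum.elim (Sum.elim (lamt hp h' m b) s) w) (θ q)) =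
          cd hp h' m1 (pr b z) := by
      intro b z w hw
      funext q
      obtain ⟨q1, q2⟩ := q
      rw [hθ]
      rcases q1 with i | i
      · simp only [Sum.elim_inl, aeval_rename]
        exact hP b (i, q2)
      · simp only [Sum.elim_inr, aeval_X]
        rw [← hw]
        rfl
    intro F hF0
    rw [← key c d _ rfl, ← comp_aeval_apply] at hF0
    rw [← key c' _ _ hd', ← comp_aeval_apply]
    exact hF _ hF0
  · rintro (i | i)
    · exact heb _ _ (hn.2 i)
    · refine hd2' _ _ ?_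
      have h1 := cl_lam hp h' m1 hy'
      rw [← lam_spec hp h' m1 d] at h1
      exact h1

/-- the same for a finite index set (`near_comp`) -/
theorem lift (hp : p.Prime) (h : TA p M O t) (h' : TA p N O' t')
    (hf : Emb O O' t t' (algebraMap M N)) {ι : Type} [Finite ι] (c : ι → N) (d : N) (m1 : ℕ)
    {e1 : N} (he1 : e1 ≠ 0) : ∃ (m : ℕ) (e : N), e ≠ 0 ∧ ∀ c' : ι → N, Near M hp h' m e c c' →
      ∃ d' : N, Near M hp h' m1 e1 (pr c d) (pr c' d') := by
  obtain ⟨k, ⟨f⟩⟩ := Finite.exists_equiv_fin ι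
  obtain ⟨m, e, he, hn⟩ := lift_fin hp h h' hf (c ∘ f.symm) d m1 he1
  refine ⟨m, e, he, fun c' hc => ?_⟩
  obtain ⟨d', hd'⟩ := hn (c' ∘ f.symm) (near_comp hp h' hc f.symm)
  refine ⟨d', ?_⟩
  have key : ∀ (b : ι → N) (z : N), pr (b ∘ f.symm) z ∘ Sum.map f id = pr b z := by
    intro b z
    funext q
    rcases q with q | q
    · simp [pr]
    · simp [pr]
  have h1 := near_comp hp h' hd' (Sum.map f id)
  rw [key, key] at h1
  exact h1

end TF45
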