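import Pool.Agent.W_4ce76a_h45.AtomB
import Pool.Agent.W_4ce76a_h45.Lift
import Pool.Agent.W_4ce76a_h45.KPt

set_option autoImplicit false
set_option linter.unusedSectionVars false

/-!
# MP_4ce76a_lc, two-variable logic: the main step (compactness of the projective line)
-/

namespace TF45

open TF14 MvPolynomial

variable (p : ℕ) [hp : Fact p.Prime] {ι : Type} [Finite ι]

/-- one level and radius for a list -/
theorem comp_list {ι : Type} (Φ : List ((ι → L p) → L p → Prop))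
    (Q : ((ι → L p) → L p → Prop) → ℕ → L p → Prop)
    (hmono : ∀ R m m' (e e' : L p), m ≤ m' → (∀ a b, Cl (OL p) e' a b → Cl (OL p) e a b) →
      Q R m e → Q R m' e')
    (hQ : ∀ R ∈ Φ, ∃ (m : ℕ) (e : L p), e ≠ 0 ∧ Q R m e) :
    ∃ (m : ℕ) (e : L p), e ≠ 0 ∧ ∀ R ∈ Φ, Q R m e := by
  induction Φ with
  | nil => exact ⟨0, 1, one_ne_zero, by simp⟩
  | cons R Φ ih =>
    obtain ⟨m1, e1, he1, h1⟩ := ih fun R hR => hQ R (List.mem_cons_of_mem _ hR)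
    obtain ⟨m2, e2, he2, h2⟩ := hQ R List.mem_cons_self
    obtain ⟨e, he, hc1, hc2⟩ := exists_both (O := OL p) he1 he2
    refine ⟨max m1 m2, e, he, fun R' hR' => ?_⟩
    rcases List.mem_cons.1 hR' with rfl | hR'
    · exact hmono _ _ _ _ _ (le_max_right _ _) hc2 h2
    · exact hmono _ _ _ _ _ (le_max_left _ _) hc1 (h1 R' hR')

theorem comp_near {κ : Type} {m m' : ℕ} {e e' : L p} (hm : m ≤ m')
    (he : ∀ a b, Cl (OL p) e' a b → Cl (OL p) e a b) {c c' : κ → L p}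
    (hn : Near (K p) hp.out (ta_L p) m' e' c c') : Near (K p) hp.out (ta_L p) m e c c' :=
  near_level hp.out (ta_L p) (emb_KL p) hm (near_radius hp.out (ta_L p) he hn)

/-- lifting of a point -/
theorem main_up (Φ : List ((ι → L p) → L p → Prop))
    (hΦ : ∀ R ∈ Φ, Good (K p) hp.out (ta_L p) R) (c : ι → L p) (z0 : L p) :
    ∃ (m : ℕ) (e : L p), e ≠ 0 ∧ ∀ c', Near (K p) hp.out (ta_L p) m e c c' →
      ∃ z', ∀ R ∈ Φ, (R c' z' ↔ R c z0) := by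
  obtain ⟨m1, e1, he1, h1⟩ := comp_list p Φ
    (fun R m e => ∀ c' z0', Near (K p) hp.out (ta_L p) m e (pr c z0) (pr c' z0') →
      (R c' z0' ↔ R c z0))
    (fun R m m' e e' hm he hQ c' z0' hn => hQ c' z0' (comp_near p hm he hn))
    (fun R hR => (hΦ R hR).lc c z0)
  obtain ⟨m, e, he, h2⟩ := lift hp.out (ta_K p) (ta_L p) (emb_KL p) c z0 m1 he1
  refine ⟨m, e, he, fun c' hc' => ?_⟩
  obtain ⟨z', hz'⟩ := h2 c' hc'
  exact ⟨z', fun R hR => h1 R hR c' z' hz'⟩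

/-- near `z0`: take `z0'` from `lift` (with `(m, e)` good for `lc` and `pu` of all `R ∈ Φ`).  If `z' = z0'`: `z'' = z0`.
If `z' ≠ z0'` and `z' ≠ z0`: `z'' = z'`.  If `z' = z0 ≠ z0'`: `z0` is not in `K` (`near_const`), `z''` from `kpoint` for the
tuple `fun _ : Unit => z0`, so `z'' ≠ z0`. -/
theorem main_near (Φ : List ((ι → L p) → L p → Prop))
    (hΦ : ∀ R ∈ Φ, Good (K p) hp.out (ta_L p) R) (c : ι → L p) (z0 : L p) :
    ∃ (m : ℕ) (e : L p), e ≠ 0 ∧ ∀ c', Near (K p) hp.out (ta_L p) m e c c' →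
      ∀ z', Cl (OL p) e z' z0 → ∃ z'', ∀ R ∈ Φ, (R c' z' ↔ R c z'') := by
  obtain ⟨m1, e1, he1, h1⟩ := comp_list p Φ
    (fun R m e => ∀ c' z0', Near (K p) hp.out (ta_L p) m e (pr c z0) (pr c' z0') →
      (R c' z0' ↔ R c z0))
    (fun R m m' e e' hm he hQ c' z0' hn => hQ c' z0' (comp_near p hm he hn))
    (fun R hR => (hΦ R hR).lc c z0)
  obtain ⟨m2, e2, he2, h2⟩ := comp_list p Φ
    (fun R m e => ∀ c' z0', Near (K p) hp.out (ta_L p) m e (pr c z0) (pr c' z0') →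
      ∀ z' z'', Cl (OL p) e z' z0 → Cl (OL p) e z'' z0 → z' ≠ z0' → z'' ≠ z0 →
      (z'' = z' ∨ (z' = z0 ∧ Near (K p) hp.out (ta_L p) m e (fun _ : Unit => z0)
        (fun _ : Unit => z''))) → (R c' z' ↔ R c z''))
    (fun R m m' e e' hm he hQ c' z0' hn z' z'' hz' hz'' ha hb hor =>
      hQ c' z0' (comp_near p hm he hn) z' z'' (he _ _ hz') (he _ _ hz'') ha hb
        (hor.imp id fun h => ⟨h.1, comp_near p hm he h.2⟩))
    (fun R hR => (hΦ R hR).pu c z0)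
  obtain ⟨m3, e3, he3, -, -, hr1, hr2, hn3⟩ := near_both (M := K p) hp.out (ta_L p) (emb_KL p)
    m1 m2 he1 he2
  obtain ⟨m, e4, he4, h4⟩ := lift hp.out (ta_K p) (ta_L p) (emb_KL p) c z0 m3 he3
  obtain ⟨e, he, hc1, hc2⟩ := exists_both (O := OL p) he4 he3
  refine ⟨m, e, he, fun c' hc' z' hz' => ?_⟩
  obtain ⟨z0', hz0'⟩ := h4 c' (near_radius hp.out (ta_L p) hc1 hc')
  obtain ⟨hn1, hn2⟩ := hn3 _ _ hz0'
  by_cases ha : z' = z0'
  · rw [ha]
    exact ⟨z0, fun R hR => h1 R hR c' z0' hn1⟩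
  by_cases hb : z' = z0
  · -- `z0` is not in `K`
    have hK : ∀ a : K p, z0 ≠ algebraMap (K p) (L p) a := by
      intro a ha'
      have h5 := near_const hp.out (ta_L p) (emb_KL p) (near_snd hp.out (ta_L p) hn1)
        (i := ()) (a := a) ha'
      exact ha (hb.trans (ha'.trans h5.symm))
    obtain ⟨a, hka⟩ := kpoint hp.out (ta_K p) (ta_L p) (emb_KL p) (closed_K p) (dense_K p)
      (fun _ : Unit => z0) m2 he2
    refine ⟨algebraMap (K p) (L p) (a ()), fun R hR => ?_⟩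
    refine h2 R hR c' z0' hn2 z' _ (hr2 _ _ (hc2 _ _ hz')) (hka.2 ()) ha (fun h => hK _ h.symm) ?_
    exact Or.inr ⟨hb, hka⟩
  · exact ⟨z', fun R hR => h2 R hR c' z0' hn2 z' z' (hr2 _ _ (hc2 _ _ hz'))
      (hr2 _ _ (hc2 _ _ hz')) ha hb (Or.inl rfl)⟩

/-- near infinity: `z'' = z'` -/
theorem main_inf (Φ : List ((ι → L p) → L p → Prop))
    (hΦ : ∀ R ∈ Φ, Good (K p) hp.out (ta_L p) R) (c : ι → L p) :
    ∃ (m : ℕ) (e : L p), e ≠ 0 ∧ ∀ c', Near (K p) hp.out (ta_L p) m e c c' →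
      ∀ z', z' ≠ 0 → Cl (OL p) e z'⁻¹ 0 → ∃ z'', ∀ R ∈ Φ, (R c' z' ↔ R c z'') := by
  obtain ⟨m, e, he, h1⟩ := comp_list p Φ
    (fun R m e => ∀ c', Near (K p) hp.out (ta_L p) m e c c' →
      ∀ z', z' ≠ 0 → Cl (OL p) e z'⁻¹ 0 → (R c' z' ↔ R c z'))
    (fun R m m' e e' hm he hQ c' hn z' hz' hz => hQ c' (comp_near p hm he hn) z' hz' (he _ _ hz))
    (fun R hR => (hΦ R hR).inf c)
  exact ⟨m, e, he, fun c' hc' z' hz' hz => ⟨z', fun R hR => h1 R hR c' hc' z' hz' hz⟩⟩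

/-- Proof: otherwise for every `n` there are `c' n`, near `c` at level `n` and radius `t ^ n`, and `z' n` without `z''`.  By `main_inf`
the `z' n` are for large `n` in `e⁻¹ O`; a subsequence converges (`seq_compact`) to some `z0`; contradiction to
`main_near` (`near_level`, `near_radius`). -/
theorem main_ex (Φ : List ((ι → L p) → L p → Prop))
    (hΦ : ∀ R ∈ Φ, Good (K p) hp.out (ta_L p) R) (c : ι → L p) :
    ∃ (m : ℕ) (e : L p), e ≠ 0 ∧ ∀ c', Near (K p) hp.out (ta_L p) m e c c' →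
      ∀ z', ∃ z'', ∀ R ∈ Φ, (R c' z' ↔ R c z'') := by
  by_contra hcon
  push Not at hcon
  have ht := t_ne_zero (ta_L p)
  choose c' hn z' hz' using fun n : ℕ => hcon n (tL p ^ n) (pow_ne_zero n ht)
  obtain ⟨m1, e1, he1, h1⟩ := main_inf p Φ hΦ c
  -- powers of `t` are small
  have hsmall : ∀ e : L p, e ≠ 0 → ∃ n0 : ℕ, ∀ n ≥ n0, ∀ a b, Cl (OL p) (tL p ^ n) a b →
      Cl (OL p) e a b := by
    intro e he
    obtain ⟨n0, hn0⟩ := OpenLB_pow p e⁻¹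
    refine ⟨n0, fun n hn' a b hab => ?_⟩
    refine cl_mono (hn0 n hn') ?_
    have h2 : e * (tL p ^ n * e⁻¹) = tL p ^ n := by field_simp
    rwa [h2]
  obtain ⟨n1, hn1⟩ := hsmall e1 he1
  have hnear : ∀ (m : ℕ) (e : L p), e ≠ 0 → ∃ n0 : ℕ, ∀ n ≥ n0,
      Near (K p) hp.out (ta_L p) m e c (c' n) := by
    intro m e he
    obtain ⟨n0, hn0⟩ := hsmall e he
    exact ⟨max n0 m, fun n hn' => comp_near p ((le_max_right _ _).trans hn')
      (hn0 n ((le_max_left _ _).trans hn')) (hn n)⟩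
  obtain ⟨n2, hn2⟩ := hnear m1 e1 he1
  have hbd : ∀ n ≥ n2, e1 * z' n ∈ OL p := by
    intro n hn'
    by_contra hno
    have hz0 : z' n ≠ 0 := by
      intro h
      rw [h, mul_zero] at hno
      exact hno (OL p).zero_mem
    have h3 : Cl (OL p) e1 (z' n)⁻¹ 0 := by
      rcases (OL p).mem_or_inv_mem (e1 * z' n) with h4 | h4
      · exact absurd h4 hno
      · refine ⟨_, h4, ?_⟩
        rw [sub_zero, mul_inv, mul_inv_cancel_left₀ he1]
    obtain ⟨z'', hz''⟩ := h1 (c' n) (hn2 n hn') (z' n) hz0 h3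
    obtain ⟨R, hR, hne⟩ := hz' n z''
    rcases hne with ⟨ha, hb⟩ | ⟨ha, hb⟩
    · exact hb ((hz'' R hR).1 ha)
    · exact ha ((hz'' R hR).2 hb)
  obtain ⟨r, v, hr, -, hlim⟩ := seq_compact p (k := 1) (fun n _ => e1 * z' (n + n2))
    fun n _ => hbd (n + n2) (by omega)
  obtain ⟨m2, e2, he2, h2⟩ := main_near p Φ hΦ c (e1⁻¹ * v 0)
  obtain ⟨n3, hn3⟩ := hnear m2 e2 he2
  obtain ⟨n4, hn4⟩ := hlim (e1 * e2) (mul_ne_zero he1 he2)
  have h5 := hn4 (max n3 n4) (le_max_right _ _) 0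
  have h6 : Cl (OL p) e2 (z' (r (max n3 n4) + n2)) (e1⁻¹ * v 0) := by
    obtain ⟨u, hu, h7⟩ := h5
    refine ⟨u, hu, ?_⟩
    have h8 : z' (r (max n3 n4) + n2) - e1⁻¹ * v 0 =
        e1⁻¹ * (e1 * z' (r (max n3 n4) + n2) - v 0) := by
      rw [mul_sub, inv_mul_cancel_left₀ he1]
    rw [h8, h7, mul_assoc, inv_mul_cancel_left₀ he1]
  have h9 : n3 ≤ r (max n3 n4) + n2 :=
    ((le_max_left _ _).trans (hr.id_le _)).trans (Nat.le_add_right _ _)
  obtain ⟨z'', hz''⟩ := h2 _ (hn3 _ h9) _ h6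
  obtain ⟨R, hR, hne⟩ := hz' _ z''
  rcases hne with ⟨ha, hb⟩ | ⟨ha, hb⟩
  · exact hb ((hz'' R hR).1 ha)
  · exact ha ((hz'' R hR).2 hb)

end TF45
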