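import Pool.Agent.W_4ce76a_h14.Final

set_option autoImplicit false
set_option linter.unusedSectionVars false

/-!
# MP_4ce76a_lc, two-variable logic: definitions

`Near M hp h' m e c c'`: the coordinates of level `m` of the tuple `c'` satisfy all polynomial relations over `M` of
those of `c`, and `c'` is close to `c`.  `LC`: locally constant with respect to these neighbourhoods.
-/

namespace TF45

open TF14 MvPolynomial

variable {p : ℕ} {M N : Type} [Field M] [Field N] [Algebra M N] {O : ValuationSubring M}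
  {O' : ValuationSubring N} {t : M} {t' : N}

/-- the coordinates of level `m` of the tuple `c` -/
noncomputable def cd (hp : p.Prime) (h' : TA p N O' t') (m : ℕ) {ι : Type} (c : ι → N) :
    ι × Fin (p ^ m) → N := fun q => lam hp h' m (c q.1) q.2

/-- `c'` is near `c` -/
def Near (M : Type) [Field M] [Algebra M N] (hp : p.Prime) (h' : TA p N O' t') (m : ℕ) (e : N)
    {ι : Type} (c c' : ι → N) : Prop :=
  (∀ F : MvPolynomial (ι × Fin (p ^ m)) M,
    aeval (cd hp h' m c) F = 0 → aeval (cd hp h' m c') F = 0) ∧ ∀ i, Cl O' e (c' i) (c i)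

/-- locally constant predicates -/
def LC (M : Type) [Field M] [Algebra M N] (hp : p.Prime) (h' : TA p N O' t') {ι : Type}
    (R : (ι → N) → Prop) : Prop :=
  ∀ c : ι → N, ∃ (m : ℕ) (e : N), e ≠ 0 ∧ ∀ c', Near M hp h' m e c c' → (R c' ↔ R c)

/-- the tuple `c` followed by `z` -/
def pr {ι : Type} (c : ι → N) (z : N) : ι ⊕ Unit → N := Sum.elim c fun _ => z

/-- predicates which may be used under a quantifier -/
structure Good (M : Type) [Field M] [Algebra M N] (hp : p.Prime) (h' : TA p N O' t') {ι : Type}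
    (R : (ι → N) → N → Prop) : Prop where
  lc : ∀ (c : ι → N) (z0 : N), ∃ (m : ℕ) (e : N), e ≠ 0 ∧ ∀ c' z0',
    Near M hp h' m e (pr c z0) (pr c' z0') → (R c' z0' ↔ R c z0)
  pu : ∀ (c : ι → N) (z0 : N), ∃ (m : ℕ) (e : N), e ≠ 0 ∧ ∀ c' z0',
    Near M hp h' m e (pr c z0) (pr c' z0') → ∀ z' z'', Cl O' e z' z0 → Cl O' e z'' z0 →
      z' ≠ z0' → z'' ≠ z0 →
      (z'' = z' ∨ (z' = z0 ∧ Near M hp h' m e (fun _ : Unit => z0) (fun _ : Unit => z''))) →
      (R c' z' ↔ R c z'')
  inf : ∀ c : ι → N, ∃ (m : ℕ) (e : N), e ≠ 0 ∧ ∀ c', Near M hp h' m e c c' →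
    ∀ z', z' ≠ 0 → Cl O' e z'⁻¹ 0 → (R c' z' ↔ R c z')

end TF45
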