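import Pool.Agent.W_4ce76a_h14.Perturb

set_option autoImplicit false
set_option linter.unusedSectionVars false

/-!
# MP_4ce76a_lc, two-variable logic: the implicit function theorem at a dependent tuple

`perturb` of `W_4ce76a_h14.Perturb` for a tuple `u` which need not be algebraically independent over `M`; the tuple `u'`
must satisfy all polynomial relations over `M` of `u`.

Proof: as `exists_prim` and `perturb` (copy these proofs), with the ring `A = MvPolynomial α M ⧸ I`, `I` the kernel of
`aeval u`, in the place of `MvPolynomial α M` (the section `Prim_abs` of `W_4ce76a_h14.Prim` is for a general ring `A` with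
an injective homomorphism `f0` to a field); `aeval u'` factors through `A`.  Or: keep polynomials, and use for the final
step: `F (u, P (θ) / c) = 0` implies that the remainder of `F (X, P / c)` modulo `G / c` has coefficients which vanish at
`u`, so they vanish at `u'`.
-/

namespace TF45

open TF14 MvPolynomial

theorem PertR_prim {M N : Type} [Field M] [Field N] [Algebra M N] {α β : Type} [Finite α]
    [Finite β] (u : α → N) (y : β → N)
    (hy : ∀ j, IsSeparable (IntermediateField.adjoin M (Set.range u)) (y j)) :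
    ∃ (c : MvPolynomial α M) (G : Polynomial (MvPolynomial α M))
      (P : β → Polynomial (MvPolynomial α M)) (θ : N),
      aeval u c ≠ 0 ∧
      (G.map (aeval u : MvPolynomial α M →ₐ[M] N).toRingHom).eval θ = 0 ∧
      (G.map (aeval u : MvPolynomial α M →ₐ[M] N).toRingHom).derivative.eval θ ≠ 0 ∧
      (∀ j, ((P j).map (aeval u : MvPolynomial α M →ₐ[M] N).toRingHom).eval θ / aeval u c = y j) ∧
      ∀ (u' : α → N) (θ' : N), (∀ F : MvPolynomial α M, aeval u F = 0 → aeval u' F = 0) →
        aeval u' c ≠ 0 →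
        (G.map (aeval u' : MvPolynomial α M →ₐ[M] N).toRingHom).eval θ' = 0 →
        ∀ F : MvPolynomial (α ⊕ β) M, aeval (Sum.elim u y) F = 0 →
          aeval (Sum.elim u' fun j =>
            ((P j).map (aeval u' : MvPolynomial α M →ₐ[M] N).toRingHom).eval θ' / aeval u' c) F = 0 := by
  classical
  let F0 := IntermediateField.adjoin M (Set.range u)
  -- the map from the polynomial ring to `F0`
  let f1 : MvPolynomial α M →ₐ[M] F0 :=
    aeval fun i => (⟨u i, IntermediateField.subset_adjoin _ _ ⟨i, rfl⟩⟩ : F0)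
  have hf1 : ∀ a, (f1 a : N) = aeval u a := by
    intro a
    have h1 : (IntermediateField.val F0).comp f1 = aeval u := by
      ext i
      simp [f1]
    exact congrArg (fun g : MvPolynomial α M →ₐ[M] N => g a) h1
  -- the quotient ring
  let I : Ideal (MvPolynomial α M) := RingHom.ker f1.toRingHom
  let A : Type := MvPolynomial α M ⧸ I
  let π : MvPolynomial α M →+* A := Ideal.Quotient.mk I
  have hπ : Function.Surjective π := Ideal.Quotient.mk_surjective
  let f0 : A →+* F0 := Ideal.Quotient.lift I f1.toRingHom fun a ha => ha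
  have hf0π : ∀ a, f0 (π a) = f1 a := fun a => Ideal.Quotient.lift_mk I _ _
  have hf0 : ∀ a, (f0 (π a) : N) = aeval u a := by
    intro a
    rw [hf0π, hf1]
  have hf0' : ((algebraMap F0 N).comp f0).comp π =
      (aeval u : MvPolynomial α M →ₐ[M] N).toRingHom := RingHom.ext hf0
  have hinj : Function.Injective f0 := by
    rw [injective_iff_map_eq_zero]
    intro a ha
    obtain ⟨b, rfl⟩ := hπ a
    rw [hf0π] at ha
    exact Ideal.Quotient.eq_zero_iff_mem.2 ha
  have hfrac : ∀ x : F0, ∃ a b, f0 b ≠ 0 ∧ f0 b * x = f0 a := by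
    intro x
    obtain ⟨r, s, hrs⟩ := (IntermediateField.mem_adjoin_range_iff M u x.1).1 x.2
    by_cases hs : aeval u s = 0
    · rw [hs, div_zero] at hrs
      refine ⟨0, 1, by rw [map_one]; exact one_ne_zero, ?_⟩
      rw [map_one, one_mul, map_zero]
      exact Subtype.ext hrs
    · refine ⟨π r, π s, ?_, ?_⟩
      · intro h
        apply hs
        rw [← hf0]
        exact congrArg Subtype.val h
      · apply Subtype.ext
        show (f0 (π s) : N) * x.1 = (f0 (π r) : N)
        rw [hf0, hf0, hrs, mul_div_cancel₀ _ hs]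
  -- the primitive element
  let E := IntermediateField.adjoin F0 (Set.range y)
  have hfd : FiniteDimensional F0 E := by
    have : Finite (Set.range y) := Set.finite_range y
    refine IntermediateField.finiteDimensional_adjoin ?_
    rintro _ ⟨j, rfl⟩
    exact (hy j).isIntegral
  have hsep : Algebra.IsSeparable F0 E := by
    rw [IntermediateField.isSeparable_adjoin_iff_isSeparable]
    rintro _ ⟨j, rfl⟩
    exact hy j
  let pb := Field.powerBasisOfFiniteOfSeparable F0 E
  have hrep : ∀ j, ∃ f : Polynomial F0, Polynomial.aeval (pb.gen : N) f = y j := by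
    intro j
    obtain ⟨f, hf⟩ := pb.exists_eq_aeval' (⟨y j, IntermediateField.subset_adjoin _ _ ⟨j, rfl⟩⟩ : E)
    refine ⟨f, ?_⟩
    have h1 := congrArg (algebraMap E N) hf
    rw [← Polynomial.aeval_algebraMap_apply] at h1
    exact h1.symm
  choose P0 hP0 using hrep
  have hmin : minpoly F0 (pb.gen : N) = minpoly F0 pb.gen :=
    minpoly.algebraMap_eq (algebraMap E N).injective pb.gen
  have hsepG : (minpoly F0 (pb.gen : N)).Separable := by
    rw [hmin]
    exact Algebra.IsSeparable.isSeparable F0 pb.gen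
  have hint : IsIntegral F0 (pb.gen : N) :=
    (Algebra.IsSeparable.isSeparable F0 pb.gen).isIntegral.algebraMap
  obtain ⟨θ, hθ⟩ : ∃ θ : N, θ = (pb.gen : N) := ⟨_, rfl⟩
  rw [← hθ] at hint hsepG
  have hP0' : ∀ j, Polynomial.aeval θ (P0 j) = y j := fun j => by rw [hθ]; exact hP0 j
  have : Fintype β := Fintype.ofFinite β
  obtain ⟨cA, hc, hs⟩ := Prim_common f0 hfrac
    ((minpoly F0 θ).coeffs ∪ Finset.univ.biUnion fun j => (P0 j).coeffs)
  obtain ⟨c, rfl⟩ := hπ cA
  have hco : ∀ (Q0 : Polynomial F0), (∀ x ∈ Q0.coeffs, ∃ a, f0 a = f0 (π c) * x) →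
      ∀ k, ∃ a, f0 a = f0 (π c) * Q0.coeff k := by
    intro Q0 h k
    by_cases hk : Q0.coeff k = 0
    · exact ⟨0, by rw [hk, mul_zero, map_zero]⟩
    · exact h _ (Polynomial.coeff_mem_coeffs hk)
  obtain ⟨GA, hGA⟩ := Prim_lift f0 (minpoly F0 θ) (π c)
    (hco _ fun x hx => hs x (Finset.mem_union_left _ hx))
  have hPl : ∀ j, ∃ Q : Polynomial A,
      Q.map f0 = Polynomial.C (f0 (π c)) * P0 j := fun j =>
    Prim_lift f0 (P0 j) (π c) (hco _ fun x hx => hs x (Finset.mem_union_right _
      (Finset.mem_biUnion.2 ⟨j, Finset.mem_univ _, hx⟩)))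
  choose PA hPA using hPl
  have hcN : algebraMap F0 N (f0 (π c)) = aeval u c := hf0 c
  have hcu : aeval u c ≠ 0 := by
    rw [← hcN]
    exact (map_ne_zero_iff _ (algebraMap F0 N).injective).2 hc
  have hlead : GA.leadingCoeff = π c := by
    apply hinj
    rw [← Polynomial.leadingCoeff_map_of_injective hinj, hGA, Polynomial.leadingCoeff_mul,
      Polynomial.leadingCoeff_C, (minpoly.monic hint).leadingCoeff, mul_one]
  -- lifts to polynomials
  obtain ⟨G, hG⟩ := Polynomial.map_surjective π hπ GA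
  have hPs : ∀ j, ∃ Q : Polynomial (MvPolynomial α M), Q.map π = PA j := fun j =>
    Polynomial.map_surjective π hπ (PA j)
  choose P hP using hPs
  have hmapG : G.map (aeval u : MvPolynomial α M →ₐ[M] N).toRingHom =
      Polynomial.C (aeval u c) * (minpoly F0 θ).map (algebraMap F0 N) := by
    rw [← hf0', ← Polynomial.map_map, hG, ← Polynomial.map_map, hGA, Polynomial.map_mul,
      Polynomial.map_C, hcN]
  have hPe : ∀ j, (PA j).eval₂ ((algebraMap F0 N).comp f0) θ = aeval u c * y j := by
    intro j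
    rw [← Polynomial.eval₂_map, hPA, Polynomial.eval₂_mul, Polynomial.eval₂_C, hcN, ← hP0' j,
      Polynomial.aeval_def]
  refine ⟨c, G, P, θ, hcu, ?_, ?_, ?_, ?_⟩
  · rw [hmapG, Polynomial.eval_mul, Polynomial.eval_map, ← Polynomial.aeval_def, minpoly.aeval,
      mul_zero]
  · rw [hmapG, Polynomial.derivative_C_mul, Polynomial.eval_mul, Polynomial.eval_C,
      Polynomial.derivative_map, Polynomial.eval_map, ← Polynomial.aeval_def]
    exact mul_ne_zero hcu (hsepG.aeval_derivative_ne_zero (minpoly.aeval F0 θ))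
  · intro j
    rw [Polynomial.eval_map, ← hf0', ← Polynomial.eval₂_map, hP, hPe,
      mul_div_cancel_left₀ _ hcu]
  · intro u' θ' hrel hc' hG' F hF
    -- the second evaluation factors through the quotient
    let e' : A →+* N := Ideal.Quotient.lift I (aeval u' : MvPolynomial α M →ₐ[M] N).toRingHom
      fun a ha => by
        apply hrel
        rw [← hf1]
        have : f1 a = 0 := ha
        rw [this]
        rfl
    have he' : ∀ a, e' (π a) = aeval u' a := fun a => Ideal.Quotient.lift_mk I _ _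
    have heπ : e'.comp π = (aeval u' : MvPolynomial α M →ₐ[M] N).toRingHom := RingHom.ext he'
    have hF' : eval₂ (((algebraMap F0 N).comp f0).comp (π.comp (C : M →+* MvPolynomial α M)))
        (Sum.elim (fun i => algebraMap F0 N (f0 (π (X i))))
        fun j => (PA j).eval₂ ((algebraMap F0 N).comp f0) θ /
          algebraMap F0 N (f0 (π c))) F = 0 := by
      rw [← hF, aeval_def]
      congr 1
      · rw [← RingHom.comp_assoc, hf0']
        ext r
        simp
      · funext i
        rcases i with i | j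
        · show (f0 (π (X i)) : N) = u i
          rw [hf0, aeval_X]
        · show (PA j).eval₂ ((algebraMap F0 N).comp f0) θ /
            algebraMap F0 N (f0 (π c)) = y j
          rw [hPe, hcN, mul_div_cancel_left₀ _ hcu]
    have h1 := Prim_spec f0 hinj (π.comp (C : M →+* MvPolynomial α M)) (fun i => π (X i)) (π c) hc
      GA hlead θ hGA PA F hF' e' θ' (by rw [he']; exact hc') (by
        rw [← hG, Polynomial.eval₂_map, heπ, ← Polynomial.eval_map]; exact hG')
    rw [← h1, aeval_def]
    congr 1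
    · rw [← RingHom.comp_assoc, heπ]
      ext r
      simp
    · funext i
      rcases i with i | j
      · show u' i = e' (π (X i))
        rw [he', aeval_X]
      · show ((P j).map (aeval u' : MvPolynomial α M →ₐ[M] N).toRingHom).eval θ' / aeval u' c =
          (PA j).eval₂ e' θ' / e' (π c)
        rw [he', ← hP, Polynomial.eval₂_map, heπ, Polynomial.eval_map]

theorem perturb_rel {M N : Type} [Field M] [Field N] [Algebra M N] {O : ValuationSubring N}
    (hO : HenselianLocalRing O) (hO' : ∃ x : N, x ≠ 0 ∧ O.valuation x < 1)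
    {α β : Type} [Finite α] [Finite β] (u : α → N) (y : β → N)
    (hy : ∀ j, IsSeparable (IntermediateField.adjoin M (Set.range u)) (y j)) {e : N} (he : e ≠ 0) :
    ∃ d : N, d ≠ 0 ∧ ∀ u' : α → N, (∀ i, Cl O d (u' i) (u i)) →
      (∀ F : MvPolynomial α M, aeval u F = 0 → aeval u' F = 0) →
      ∃ y' : β → N, (∀ j, Cl O e (y' j) (y j)) ∧
        ∀ F : MvPolynomial (α ⊕ β) M, aeval (Sum.elim u y) F = 0 →
          aeval (Sum.elim u' y') F = 0 := by
  obtain ⟨c, G, P, θ, hc, hGθ, hGθ', hP, hF⟩ := PertR_prim (M := M) u y hy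
  -- division
  have h1 : ∀ j : β, ∃ d : N, d ≠ 0 ∧ ∀ a' b' : N,
      Cl O d a' (((P j).map (aeval u : MvPolynomial α M →ₐ[M] N).toRingHom).eval θ) →
      Cl O d b' (aeval u c) → b' ≠ 0 ∧ Cl O e (a' / b') (((P j).map
        (aeval u : MvPolynomial α M →ₐ[M] N).toRingHom).eval θ / aeval u c) :=
    fun j => div_cont hc he hO'
  choose d1 hd1 h1 using h1
  obtain ⟨d0, hd0, h0⟩ := div_cont (O := O) (a := 0) hc he hO'
  -- numerators
  have h2 : ∀ j : β, ∃ d : N, d ≠ 0 ∧ ∀ (G' : Polynomial N) (y' : N),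
      G'.natDegree ≤ (P j).natDegree →
      (∀ i, Cl O d (G'.coeff i)
        (((P j).map (aeval u : MvPolynomial α M →ₐ[M] N).toRingHom).coeff i)) →
      Cl O d y' θ → Cl O (d1 j) (G'.eval y')
        (((P j).map (aeval u : MvPolynomial α M →ₐ[M] N).toRingHom).eval θ) :=
    fun j => poly_cont _ θ _ (hd1 j)
  choose d2 hd2 h2 using h2
  have h3 : ∀ j : β, ∃ d : N, d ≠ 0 ∧ ∀ u' : α → N, (∀ i, Cl O d (u' i) (u i)) → ∀ i,
      Cl O (d2 j) (((P j).map (aeval u' : MvPolynomial α M →ₐ[M] N).toRingHom).coeff i)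
        (((P j).map (aeval u : MvPolynomial α M →ₐ[M] N).toRingHom).coeff i) :=
    fun j => perturb_coeffs (P j) u (hd2 j)
  choose d3 hd3 h3 using h3
  obtain ⟨d4, hd4, h4⟩ := exists_all (O := O) d2 hd2
  obtain ⟨d5, hd5, h5⟩ := root_cont hO hO' (G.map (aeval u : MvPolynomial α M →ₐ[M] N).toRingHom)
    G.natDegree (Polynomial.natDegree_map_le) hGθ hGθ' hd4
  obtain ⟨d6, hd6, h6⟩ := perturb_coeffs (O := O) G u hd5
  have h7 : ∀ j : β, ∃ d : N, d ≠ 0 ∧ ∀ u' : α → N, (∀ i, Cl O d (u' i) (u i)) →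
      Cl O (d1 j) (aeval u' c) (aeval u c) := fun j => cont_aeval c u (hd1 j)
  choose d7 hd7 h7 using h7
  obtain ⟨d8, hd8, h8⟩ := cont_aeval (O := O) c u hd0
  obtain ⟨d, hd, hall⟩ := exists_all (O := O)
    (Sum.elim (fun _ : Unit => d6) (Sum.elim (fun _ : Unit => d8) (Sum.elim d3 d7)))
    (by rintro (_ | _ | j | j) <;> simp [hd6, hd8, hd3, hd7])
  refine ⟨d, hd, fun u' hu' hrel => ?_⟩
  have a6 : ∀ i, Cl O d6 (u' i) (u i) := fun i => hall (Sum.inl ()) _ _ (hu' i)
  have a8 : ∀ i, Cl O d8 (u' i) (u i) := fun i => hall (Sum.inr (Sum.inl ())) _ _ (hu' i)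
  have a3 : ∀ j i, Cl O (d3 j) (u' i) (u i) :=
    fun j i => hall (Sum.inr (Sum.inr (Sum.inl j))) _ _ (hu' i)
  have a7 : ∀ j i, Cl O (d7 j) (u' i) (u i) :=
    fun j i => hall (Sum.inr (Sum.inr (Sum.inr j))) _ _ (hu' i)
  have hc' : aeval u' c ≠ 0 := (h0 0 _ (cl_refl _ _) (h8 u' a8)).1
  obtain ⟨θ', hθ1, hθ2, hθ3⟩ := h5 (G.map (aeval u' : MvPolynomial α M →ₐ[M] N).toRingHom)
    (Polynomial.natDegree_map_le) (h6 u' a6)
  refine ⟨fun j => ((P j).map (aeval u' : MvPolynomial α M →ₐ[M] N).toRingHom).eval θ' / aeval u' c,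
    fun j => ?_, hF u' θ' hrel hc' hθ1⟩
  rw [← hP j]
  exact (h1 j _ _ (h2 j _ _ (Polynomial.natDegree_map_le) (h3 j u' (a3 j)) (h4 j _ _ hθ3))
    (h7 j u' (a7 j))).2

end TF45
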