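import Pool.Agent.W_4ce76a_h45.QDef

set_option autoImplicit false
set_option linter.unusedSectionVars false

/-!
# MP_4ce76a_lc, two quantifiers: the two charts, elementary properties
-/

namespace TF45

open Polynomial

variable {R S : Type} [CommRing R] [CommRing S]

theorem ev_opA (α : R) (F : R[X][X]) (x y : R) :
    (opA α F).evalEval x y = F.evalEval x (x * (y + α)) := by
  unfold opA evalEval
  rw [eval_comp]
  have h1 : (eval (C y) (C X * (X + C (C α))) : R[X]) = X * (C y + C α) := by
    simp
  rw [h1]
  have h2 := Polynomial.hom_eval₂ F (RingHom.id R[X]) (evalRingHom x) (X * (C y + C α))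
  have h3 := Polynomial.hom_eval₂ F (RingHom.id R[X]) (evalRingHom x) (C (x * (y + α)))
  simp only [eval₂_id, coe_evalRingHom] at h2 h3
  rw [h2, h3]
  congr 1
  simp

theorem ev_opB (F : R[X][X]) (x y : R) :
    (opB F).evalEval x y = F.evalEval (x * y) x := by
  have h1 : ∀ G : R[X][X], G.evalEval x y = evalEvalRingHom x y G := fun G => rfl
  rw [h1]
  unfold opB
  rw [Polynomial.hom_eval₂]
  have h2 : (evalEvalRingHom x y) (C X : R[X][X]) = x := by
    rw [← h1]
    simp [evalEval]
  have h3 : (evalEvalRingHom x y).comp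
      (eval₂RingHom ((C : R[X] →+* R[X][X]).comp C) (C X * X)) = evalRingHom (x * y) := by
    refine Polynomial.ringHom_ext (fun a => ?_) ?_
    · simp
    · simp
      exact mul_comm _ _
  rw [h2, h3]
  unfold evalEval
  have h4 := Polynomial.hom_eval₂ F (RingHom.id R[X]) (evalRingHom (x * y)) (C x)
  simp only [eval₂_id, coe_evalRingHom, eval_C, RingHom.comp_id] at h4
  rw [h4]

theorem map_opA (f : R →+* S) (α : R) (F : R[X][X]) :
    (opA α F).map (mapRingHom f) = opA (f α) (F.map (mapRingHom f)) := by
  unfold opA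
  rw [map_comp]
  simp

theorem map_opB (f : R →+* S) (F : R[X][X]) :
    (opB F).map (mapRingHom f) = opB (F.map (mapRingHom f)) := by
  unfold opB
  have h1 : ∀ G : R[X][X], G.map (mapRingHom f) = mapRingHom (mapRingHom f) G := fun G => rfl
  rw [h1, Polynomial.hom_eval₂, eval₂_map]
  congr 1
  · refine Polynomial.ringHom_ext (fun a => ?_) ?_
    · simp
    · simp
  · simp

end TF45
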