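import Pool.Agent.W_4ce76a_h45.QAlg

set_option autoImplicit false
set_option linter.unusedSectionVars false

/-!
# MP_4ce76a_lc, two quantifiers: polynomials which vanish on an arc

`arcE h F = F (X, h)` for a power series `h`.
-/

namespace TF45

open Polynomial

variable {k : Type} [Field k]

/-- `F (X, h)` -/
noncomputable def arcE (h : PowerSeries k) : k[X][X] →+* PowerSeries k :=
  eval₂RingHom (coeToPowerSeries.ringHom) h

theorem QArc_coeff {p : ℕ} [hp : Fact p.Prime] [CharP k p] (f : PowerSeries k) (m : ℕ) :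
    PowerSeries.coeff m (f ^ p) = if p ∣ m then (PowerSeries.coeff (m / p) f) ^ p else 0 := by
  have h1 := MvPowerSeries.map_frobenius_expand (σ := Unit) (R := k) p hp.out.ne_zero (f := f)
  have h2 : f ^ p = PowerSeries.map (frobenius k p) (PowerSeries.expand p hp.out.ne_zero f) := h1.symm
  rw [h2, PowerSeries.coeff_map, PowerSeries.coeff_expand]
  split_ifs
  · rfl
  · exact map_zero _

/-- Proof: induction on `q` (for all `s`).  Write `s u v = C (b u v) + X * s' u v`, `b` the constant coefficients.  By `add_pow_char`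
(`CharP (PowerSeries k) p`) `s u v ^ p = C (b u v ^ p) + X ^ p * s' u v ^ p`.  For `v0 < p` the coefficient of `X ^ v0` of the sum is
`∑ u, t ^ u * b u v0 ^ p`, so it vanishes and by `hP` (uniqueness, the coordinates of `0` are `0`) all `b u v0 = 0`.  This is `q = 0`, and
`X ^ p * ∑ C (t ^ u) * X ^ v * s' u v ^ p = 0`, cancel `X ^ p` and use the induction hypothesis for `s'`:
`coeff (q + 1) (s u v) = coeff q (s' u v)`. -/
theorem arc_uniq {p : ℕ} [hp : Fact p.Prime] [CharP k p] (t : k)
    (hP : ∀ x : k, ∃! c : Fin p → k, x = ∑ i : Fin p, t ^ (i : ℕ) * c i ^ p) (q : ℕ) :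
    ∀ s : Fin p → Fin p → PowerSeries k,
      ∑ u : Fin p, ∑ v : Fin p, PowerSeries.C (t ^ (u : ℕ)) * PowerSeries.X ^ (v : ℕ) * s u v ^ p = 0 →
      ∀ u v, PowerSeries.coeff q (s u v) = 0 := by
  intro s hs u0 v0
  have h1 : ∀ u v : Fin p, PowerSeries.coeff (p * q + (v0 : ℕ))
      (PowerSeries.C (t ^ (u : ℕ)) * PowerSeries.X ^ (v : ℕ) * s u v ^ p) =
        if v = v0 then t ^ (u : ℕ) * PowerSeries.coeff q (s u v) ^ p else 0 := by
    intro u v
    rw [mul_assoc, PowerSeries.coeff_C_mul, PowerSeries.coeff_X_pow_mul']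
    by_cases hv : v = v0
    · subst hv
      rw [if_pos (Nat.le_add_left _ _), if_pos rfl, Nat.add_sub_cancel, QArc_coeff,
        if_pos (dvd_mul_right _ _), Nat.mul_div_cancel_left _ hp.out.pos]
    · rw [if_neg hv]
      split_ifs with h2
      · rw [QArc_coeff, if_neg, mul_zero]
        intro h3
        apply hv
        have h4 : (v : ℕ) ≡ p * q + (v0 : ℕ) [MOD p] := (Nat.modEq_iff_dvd' h2).2 h3
        have h5 : p * q + (v0 : ℕ) ≡ (v0 : ℕ) [MOD p] := by
          unfold Nat.ModEq
          rw [Nat.mul_add_mod]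
        have h6 := h4.trans h5
        unfold Nat.ModEq at h6
        rw [Nat.mod_eq_of_lt v.2, Nat.mod_eq_of_lt v0.2] at h6
        exact Fin.ext h6
      · rw [mul_zero]
  have h2 := congrArg (PowerSeries.coeff (p * q + (v0 : ℕ))) hs
  rw [map_sum, map_zero] at h2
  have h3 : ∑ u : Fin p, t ^ (u : ℕ) * PowerSeries.coeff q (s u v0) ^ p = 0 := by
    rw [← h2]
    refine Finset.sum_congr rfl fun u _ => ?_
    rw [map_sum, Finset.sum_congr rfl fun v _ => h1 u v, Finset.sum_ite_eq' Finset.univ v0,
      if_pos (Finset.mem_univ _)]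
  have h4 := (hP 0).unique (y₁ := fun u => PowerSeries.coeff q (s u v0)) (y₂ := fun _ => 0)
    h3.symm (by simp [hp.out.ne_zero])
  exact congrFun h4 u0

/-- Proof: for every coefficient `x` of `a` let `c x u` be its coordinates (`hP`).  `b u v = ∑ q, C (c (a.coeff (p * q + v)) u) * X ^ q`
(`q ≤ a.natDegree`).  By `sum_pow_char` `b u v ^ p = ∑ q, C (c .. ^ p) * X ^ (p * q)`, and `∑ u, ∑ v, C (t ^ u) * X ^ v * b u v ^ p` has at
`X ^ (p * q + v)` the coefficient `∑ u, t ^ u * c (a.coeff (p * q + v)) u ^ p = a.coeff (p * q + v)`. -/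
theorem arc_dec {p : ℕ} [hp : Fact p.Prime] [CharP k p] (t : k)
    (hP : ∀ x : k, ∃! c : Fin p → k, x = ∑ i : Fin p, t ^ (i : ℕ) * c i ^ p) (a : k[X]) :
    ∃ b : Fin p → Fin p → k[X],
      a = ∑ u : Fin p, ∑ v : Fin p, C (t ^ (u : ℕ)) * X ^ (v : ℕ) * b u v ^ p := by
  induction a using Polynomial.induction_on' with
  | add a a' h1 h2 =>
    obtain ⟨b, hb⟩ := h1
    obtain ⟨b', hb'⟩ := h2
    refine ⟨fun u v => b u v + b' u v, ?_⟩
    rw [hb, hb', ← Finset.sum_add_distrib]
    refine Finset.sum_congr rfl fun u _ => ?_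
    rw [← Finset.sum_add_distrib]
    refine Finset.sum_congr rfl fun v _ => ?_
    rw [add_pow_char, mul_add]
  | monomial n x =>
    obtain ⟨c, hc, -⟩ := hP x
    let v0 : Fin p := ⟨n % p, Nat.mod_lt _ hp.out.pos⟩
    refine ⟨fun u v => if v = v0 then C (c u) * X ^ (n / p) else 0, ?_⟩
    have h1 : ∀ u : Fin p, ∑ v : Fin p, C (t ^ (u : ℕ)) * X ^ (v : ℕ) *
        (if v = v0 then C (c u) * X ^ (n / p) else 0 : k[X]) ^ p =
          C (t ^ (u : ℕ) * c u ^ p) * X ^ n := by
      intro u
      rw [Finset.sum_eq_single v0]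
      · rw [if_pos rfl, mul_pow, ← pow_mul, C_mul, C_pow (n := p)]
        have h2 : (X : k[X]) ^ n = X ^ (v0 : ℕ) * X ^ (n / p * p) := by
          rw [← pow_add]
          congr 1
          have := Nat.mod_add_div' n p
          exact this.symm
        rw [h2]
        ring
      · intro v _ hv
        rw [if_neg hv, zero_pow hp.out.ne_zero, mul_zero]
      · intro h
        exact absurd (Finset.mem_univ _) h
    rw [Finset.sum_congr rfl fun u _ => h1 u, ← Finset.sum_mul, ← map_sum, ← hc,
      C_mul_X_pow_eq_monomial]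

/-- A polynomial of minimal degree which vanishes on the arc is separable.  Proof: otherwise `arcE h G' = 0` for `G' = derivative G`,
whose degree is smaller (`natDegree G > 0`, as otherwise `G = C g` and `arcE h G = g ≠ 0`: `Polynomial.coe_inj`), so `G' = 0` by `hmin`, so
`G = expand _ p G1`, `G1 = contract p G` (`Polynomial.expand_contract`, char `p` of `k[X]`), and `natDegree G = p * natDegree G1`
(`natDegree_expand`).  Decompose the coefficients `G1.coeff i = ∑ u, ∑ v, C (t ^ u) * X ^ v * b i u v ^ p` (`arc_dec`), let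
`s u v = ∑ i ≤ natDegree G1, C (b i u v) * X ^ i` (a polynomial in `Y`).  In `PowerSeries k`:
`0 = arcE h G = ∑ i, (G1.coeff i) * h ^ (p * i) = ∑ u, ∑ v, C (t ^ u) * X ^ v * (∑ i, b i u v * h ^ i) ^ p` (`sum_pow_char`), so
`arcE h (s u v) = 0` by `arc_uniq`, and `s u v = 0` by `hmin`, since its degree is at most `natDegree G1 < natDegree G`.  So all
`b i u v = 0`, `G1 = 0`, `G = 0`. -/
theorem arc_sep {p : ℕ} [hp : Fact p.Prime] [CharP k p] (t : k)
    (hP : ∀ x : k, ∃! c : Fin p → k, x = ∑ i : Fin p, t ^ (i : ℕ) * c i ^ p) (h : PowerSeries k)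
    (G : k[X][X]) (hG : G ≠ 0) (hE : arcE h G = 0)
    (hmin : ∀ F : k[X][X], F ≠ 0 → arcE h F = 0 → G.natDegree ≤ F.natDegree) :
    arcE h (derivative G) ≠ 0 := by
  intro hd
  have : CharP (PowerSeries k) p :=
    charP_of_injective_algebraMap (algebraMap k (PowerSeries k)).injective p
  have hC : ∀ g : k[X], arcE h (C g) = (g : PowerSeries k) := by
    intro g
    unfold arcE
    rw [coe_eval₂RingHom, eval₂_C, coeToPowerSeries.ringHom_apply]
  have hX : arcE h X = h := by
    unfold arcE
    rw [coe_eval₂RingHom, eval₂_X]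
  have hdeg : G.natDegree ≠ 0 := by
    intro h0
    have h1 := eq_C_of_natDegree_eq_zero h0
    rw [h1, hC] at hE
    have h2 : G.coeff 0 = 0 := by
      apply Polynomial.coe_injective
      rw [hE, Polynomial.coe_zero]
    rw [h2, C_0] at h1
    exact hG h1
  have hd0 : derivative G = 0 := by
    by_contra hne
    have h1 := hmin _ hne hd
    have h2 := natDegree_derivative_lt hdeg
    omega
  have hex := expand_contract p hd0 hp.out.ne_zero
  set G1 := contract p G with hG1
  have hnd : G.natDegree = G1.natDegree * p := by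
    rw [← natDegree_expand, hex]
  have hlt : G1.natDegree < G.natDegree := by
    have h1 := hp.out.one_lt
    have h2 : 0 < G1.natDegree := by
      rcases Nat.eq_zero_or_pos G1.natDegree with h | h
      · rw [h, zero_mul] at hnd
        exact absurd hnd hdeg
      · exact h
    rw [hnd]
    nlinarith
  choose b hb using fun i => arc_dec t hP (G1.coeff i)
  have hs : ∀ u v, arcE h (∑ i ∈ Finset.range (G1.natDegree + 1), C (b i u v) * X ^ i) =
      ∑ i ∈ Finset.range (G1.natDegree + 1), (b i u v : PowerSeries k) * h ^ i := by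
    intro u v
    rw [map_sum]
    refine Finset.sum_congr rfl fun i _ => ?_
    rw [map_mul, map_pow, hC, hX]
  have hEG : arcE h G = ∑ i ∈ Finset.range (G1.natDegree + 1),
      (G1.coeff i : PowerSeries k) * (h ^ i) ^ p := by
    rw [← hex]
    conv_lhs => rw [G1.as_sum_range_C_mul_X_pow]
    rw [map_sum, map_sum]
    refine Finset.sum_congr rfl fun i _ => ?_
    rw [map_mul, map_pow, expand_C, expand_X, map_mul, hC, ← pow_mul, map_pow, hX, ← pow_mul,
      mul_comm i p]
  have hsum : ∑ u : Fin p, ∑ v : Fin p, PowerSeries.C (t ^ (u : ℕ)) * PowerSeries.X ^ (v : ℕ) *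
      (arcE h (∑ i ∈ Finset.range (G1.natDegree + 1), C (b i u v) * X ^ i)) ^ p = 0 := by
    rw [← hE, hEG]
    have h1 : ∀ i, (G1.coeff i : PowerSeries k) * (h ^ i) ^ p = ∑ u : Fin p, ∑ v : Fin p,
        PowerSeries.C (t ^ (u : ℕ)) * PowerSeries.X ^ (v : ℕ) *
          ((b i u v : PowerSeries k) * h ^ i) ^ p := by
      intro i
      have h2 : (G1.coeff i : PowerSeries k) = ∑ u : Fin p, ∑ v : Fin p,
          PowerSeries.C (t ^ (u : ℕ)) * PowerSeries.X ^ (v : ℕ) * (b i u v : PowerSeries k) ^ p := by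
        have h3 := congrArg (coeToPowerSeries.ringHom (R := k)) (hb i)
        simp only [map_sum, map_mul, map_pow, coeToPowerSeries.ringHom_apply, Polynomial.coe_C,
          Polynomial.coe_X] at h3
        simpa only [map_pow] using h3
      rw [h2, Finset.sum_mul]
      refine Finset.sum_congr rfl fun u _ => ?_
      rw [Finset.sum_mul]
      refine Finset.sum_congr rfl fun v _ => ?_
      rw [mul_pow]
      ring
    rw [Finset.sum_congr rfl fun i _ => h1 i]
    symm
    rw [Finset.sum_comm]
    refine Finset.sum_congr rfl fun u _ => ?_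
    rw [Finset.sum_comm]
    refine Finset.sum_congr rfl fun v _ => ?_
    rw [hs, sum_pow_char, Finset.mul_sum]
  have hz : ∀ u v, arcE h (∑ i ∈ Finset.range (G1.natDegree + 1), C (b i u v) * X ^ i) = 0 := by
    intro u v
    refine PowerSeries.ext fun q => ?_
    rw [map_zero]
    exact arc_uniq t hP q _ hsum u v
  have hz2 : ∀ u v, (∑ i ∈ Finset.range (G1.natDegree + 1), C (b i u v) * X ^ i : k[X][X]) = 0 := by
    intro u v
    by_contra hne
    have h1 := hmin _ hne (hz u v)
    have h2 : (∑ i ∈ Finset.range (G1.natDegree + 1),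
        C (b i u v) * X ^ i : k[X][X]).natDegree ≤ G1.natDegree := by
      refine natDegree_sum_le_of_forall_le _ _ fun i hi => ?_
      refine (natDegree_C_mul_X_pow_le _ _).trans ?_
      rw [Finset.mem_range] at hi
      omega
    omega
  have hG1z : G1 = 0 := by
    ext1 i
    rw [coeff_zero]
    by_cases hi : i ≤ G1.natDegree
    · have h1 : ∀ u v, b i u v = 0 := by
        intro u v
        have h2 := congrArg (fun F => coeff F i) (hz2 u v)
        simp only [finsetSum_coeff, coeff_C_mul, coeff_X_pow, mul_ite, mul_one, mul_zero,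
          coeff_zero] at h2
        rw [Finset.sum_ite_eq, if_pos (Finset.mem_range.2 (by omega))] at h2
        exact h2
      rw [hb i]
      simp [h1, hp.out.ne_zero]
    · exact coeff_eq_zero_of_natDegree_lt (by omega)
  apply hG
  rw [← hex, hG1z, map_zero]

end TF45
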