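import Pool.Agent.W_4ce76a_h45.QArc

set_option autoImplicit false
set_option linter.unusedSectionVars false

/-!
# MP_4ce76a_lc, two quantifiers: polynomials along an arc
-/

namespace TF45

open Polynomial

variable {k : Type} [Field k]

/-- one step of the pseudo-division -/
lemma QArcB_step {F G : k[X][X]} (hF : F ≠ 0) (hG : G ≠ 0) (hle : G.natDegree ≤ F.natDegree) :
    C G.leadingCoeff * F - C F.leadingCoeff * X ^ (F.natDegree - G.natDegree) * G = 0 ∨
    (C G.leadingCoeff * F - C F.leadingCoeff * X ^ (F.natDegree - G.natDegree) * G).natDegree <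
      F.natDegree := by
  have hc : C G.leadingCoeff ≠ (0 : k[X][X]) := C_ne_zero.2 (leadingCoeff_ne_zero.2 hG)
  have hd : C F.leadingCoeff ≠ (0 : k[X][X]) := C_ne_zero.2 (leadingCoeff_ne_zero.2 hF)
  have hX : (X : k[X][X]) ^ (F.natDegree - G.natDegree) ≠ 0 := pow_ne_zero _ X_ne_zero
  have hp : C G.leadingCoeff * F ≠ 0 := mul_ne_zero hc hF
  have hq : C F.leadingCoeff * X ^ (F.natDegree - G.natDegree) * G ≠ 0 :=
    mul_ne_zero (mul_ne_zero hd hX) hG
  have n1 : (C G.leadingCoeff * F).natDegree = F.natDegree := by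
    rw [natDegree_mul hc hF, natDegree_C, zero_add]
  have n2 : (C F.leadingCoeff * X ^ (F.natDegree - G.natDegree) * G).natDegree = F.natDegree := by
    rw [natDegree_mul (mul_ne_zero hd hX) hG, natDegree_mul hd hX, natDegree_C, natDegree_X_pow]
    omega
  have h1 : (C G.leadingCoeff * F).degree =
      (C F.leadingCoeff * X ^ (F.natDegree - G.natDegree) * G).degree := by
    rw [degree_eq_natDegree hp, degree_eq_natDegree hq, n1, n2]
  have h2 : (C G.leadingCoeff * F).leadingCoeff =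
      (C F.leadingCoeff * X ^ (F.natDegree - G.natDegree) * G).leadingCoeff := by
    rw [leadingCoeff_mul, leadingCoeff_mul, leadingCoeff_mul, leadingCoeff_C, leadingCoeff_C,
      leadingCoeff_X_pow]
    ring
  have h3 := degree_sub_lt_left h1 hp h2
  by_cases h0 : C G.leadingCoeff * F - C F.leadingCoeff * X ^ (F.natDegree - G.natDegree) * G = 0
  · exact Or.inl h0
  · right
    exact (natDegree_lt_natDegree h0 h3).trans_eq n1

lemma QArcB_C (h : PowerSeries k) (a : k[X]) : arcE h (C a) = (a : PowerSeries k) := by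
  show eval₂ _ h (C a) = _
  rw [eval₂_C]
  rfl

lemma QArcB_div (h : PowerSeries k) (G : k[X][X]) (hG : G ≠ 0) (hE : arcE h G = 0)
    (hmin : ∀ F : k[X][X], F ≠ 0 → arcE h F = 0 → G.natDegree ≤ F.natDegree)
    (hG1 : 0 < G.natDegree) : ∀ (n : ℕ) (F : k[X][X]), F.natDegree ≤ n → arcE h F = 0 →
      ∃ (N : ℕ) (Q : k[X][X]), C G.leadingCoeff ^ N * F = Q * G := by
  intro n
  induction n with
  | zero =>
    intro F hn hF
    by_cases h0 : F = 0
    · exact ⟨0, 0, by rw [h0]; ring⟩
    · have := hmin F h0 hF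
      omega
  | succ n ih =>
    intro F hn hF
    by_cases h0 : F = 0
    · exact ⟨0, 0, by rw [h0]; ring⟩
    · have hle := hmin F h0 hF
      have h1 : arcE h (C G.leadingCoeff * F -
          C F.leadingCoeff * X ^ (F.natDegree - G.natDegree) * G) = 0 := by
        rw [map_sub, map_mul, map_mul, hF, hE, mul_zero, mul_zero, sub_zero]
      rcases QArcB_step h0 hG hle with h2 | h2
      · refine ⟨1, C F.leadingCoeff * X ^ (F.natDegree - G.natDegree), ?_⟩
        rw [pow_one]
        exact sub_eq_zero.1 h2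
      · obtain ⟨N, Q, h3⟩ := ih _ (by omega) h1
        refine ⟨N + 1, Q + C G.leadingCoeff ^ N * (C F.leadingCoeff *
          X ^ (F.natDegree - G.natDegree)), ?_⟩
        rw [add_mul, ← h3, pow_succ]
        ring

/-- the first nonzero coefficient -/
lemma QArcB_ord {b : PowerSeries k} (hb : b ≠ 0) :
    ∃ o : ℕ, PowerSeries.coeff o b ≠ 0 ∧ ∀ i < o, PowerSeries.coeff i b = 0 := by
  classical
  have h : ∃ n, PowerSeries.coeff n b ≠ 0 := by
    by_contra hcon
    push Not at hcon
    exact hb (PowerSeries.ext fun n => by rw [hcon n, map_zero])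
  exact ⟨Nat.find h, Nat.find_spec h, fun i hi => not_not.1 (Nat.find_min h hi)⟩

/-- a polynomial near a power series -/
lemma QArcB_near {b : PowerSeries k} {a : k[X]} {o m : ℕ} (ho : PowerSeries.coeff o b ≠ 0)
    (ho' : ∀ i < o, PowerSeries.coeff i b = 0) (hm : o ≤ m)
    (hab : (PowerSeries.X : PowerSeries k) ^ (m + 1) ∣ (a : PowerSeries k) - b) :
    ∃ u : k[X], a = X ^ o * u ∧ u.coeff 0 ≠ 0 := by
  have h1 : ∀ i ≤ m, a.coeff i = PowerSeries.coeff i b := by
    intro i hi
    have := PowerSeries.X_pow_dvd_iff.1 hab i (by omega)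
    rw [map_sub, Polynomial.coeff_coe] at this
    exact sub_eq_zero.1 this
  obtain ⟨u, hu⟩ : (X : k[X]) ^ o ∣ a := by
    rw [X_pow_dvd_iff]
    intro d hd
    rw [h1 d (by omega)]
    exact ho' d hd
  refine ⟨u, hu, ?_⟩
  have h2 := h1 o hm
  rw [hu, coeff_X_pow_mul', if_pos le_rfl, Nat.sub_self] at h2
  rw [h2]
  exact ho

/-- evaluation at a near polynomial -/
lemma QArcB_eval (h : PowerSeries k) (F : k[X][X]) (hk : k[X]) {m : ℕ}
    (hm : ∀ i ≤ m, hk.coeff i = PowerSeries.coeff i h) :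
    (PowerSeries.X : PowerSeries k) ^ (m + 1) ∣ (hk : PowerSeries k) - h ∧
    ((F.eval hk : k[X]) : PowerSeries k) = (F.map coeToPowerSeries.ringHom).eval (hk : PowerSeries k) ∧
    arcE h F = (F.map coeToPowerSeries.ringHom).eval h ∧
    (PowerSeries.X : PowerSeries k) ^ (m + 1) ∣ ((F.eval hk : k[X]) : PowerSeries k) - arcE h F := by
  have h1 : (PowerSeries.X : PowerSeries k) ^ (m + 1) ∣ (hk : PowerSeries k) - h := by
    rw [PowerSeries.X_pow_dvd_iff]
    intro i hi
    rw [map_sub, Polynomial.coeff_coe, hm i (by omega), sub_self]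
  have h2 : ((F.eval hk : k[X]) : PowerSeries k) =
      (F.map coeToPowerSeries.ringHom).eval (hk : PowerSeries k) := by
    rw [eval_map]
    exact (eval₂_at_apply (coeToPowerSeries.ringHom (R := k)) hk).symm
  have h3 : arcE h F = (F.map coeToPowerSeries.ringHom).eval h := by
    rw [eval_map]
    rfl
  refine ⟨h1, h2, h3, ?_⟩
  rw [h2, h3]
  exact h1.trans (sub_dvd_eval_sub _ _ _)

/-- the coefficients after the substitution -/
lemma QArcB_comp (F : k[X][X]) (hk : k[X]) (m j : ℕ) :
    (F.comp (C hk + C X ^ m * X)).coeff j = (Polynomial.taylor hk F).coeff j * (X ^ m) ^ j := by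
  have h1 : F.comp (C hk + C X ^ m * X) = (Polynomial.taylor hk F).comp (C (X ^ m) * X) := by
    rw [Polynomial.taylor_apply, comp_assoc]
    congr 1
    rw [add_comp, X_comp, C_comp, add_comm, C_pow]
  rw [h1, comp_C_mul_X_coeff]

lemma QArcB_ee (U : k[X][X]) : U.evalEval 0 0 = (U.coeff 0).coeff 0 := by
  unfold evalEval
  rw [C_0, ← coeff_zero_eq_eval_zero, ← coeff_zero_eq_eval_zero]

/-- Proof: first: if `arcE h F = 0` then `C c ^ N * F = Q * G` for some `N, Q`, `c = G.leadingCoeff`, by strong induction on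
`natDegree F`: if `F = 0` trivial, otherwise `natDegree G ≤ natDegree F` by `hmin`, and
`F1 = C c * F - C F.leadingCoeff * X ^ (natDegree F - natDegree G) * G` has smaller degree (or is `0`) and `arcE h F1 = 0`.
Then the claim by strong induction on `natDegree F`: if `arcE h F ≠ 0` take `N = b = 0`, `H = F`.  If `arcE h F = 0` then
`C c ^ N * F = Q * G`, `Q ≠ 0`, `natDegree Q < natDegree F` as `natDegree G > 0`; by induction `C c ^ N' * Q = G ^ b * H`, so
`C c ^ (N + N') * F = G ^ (b + 1) * H`. -/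
theorem arc_div (h : PowerSeries k) (G : k[X][X]) (hG : G ≠ 0) (hE : arcE h G = 0)
    (hmin : ∀ F : k[X][X], F ≠ 0 → arcE h F = 0 → G.natDegree ≤ F.natDegree)
    (F : k[X][X]) (hF : F ≠ 0) : ∃ (N b : ℕ) (H : k[X][X]),
      C G.leadingCoeff ^ N * F = G ^ b * H ∧ arcE h H ≠ 0 := by
  have hG1 : 0 < G.natDegree := by
    rcases Nat.eq_zero_or_pos G.natDegree with h0 | h0
    · exfalso
      rw [eq_C_of_natDegree_eq_zero h0, QArcB_C] at hE
      have h1 : G.coeff 0 = 0 := by
        have : ((G.coeff 0 : k[X]) : PowerSeries k) = ((0 : k[X]) : PowerSeries k) := by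
          rw [hE, Polynomial.coe_zero]
        exact Polynomial.coe_inj.1 this
      exact hG (by rw [eq_C_of_natDegree_eq_zero h0, h1, C_0])
    · exact h0
  have key : ∀ (n : ℕ) (F : k[X][X]), F.natDegree ≤ n → F ≠ 0 → ∃ (N b : ℕ) (H : k[X][X]),
      C G.leadingCoeff ^ N * F = G ^ b * H ∧ arcE h H ≠ 0 := by
    intro n
    induction n with
    | zero =>
      intro F hn hF
      by_cases h0 : arcE h F = 0
      · have := hmin F hF h0
        omega
      · exact ⟨0, 0, F, by rw [pow_zero, pow_zero], h0⟩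
    | succ n ih =>
      intro F hn hF
      by_cases h0 : arcE h F = 0
      · obtain ⟨N, Q, h1⟩ := QArcB_div h G hG hE hmin hG1 _ F le_rfl h0
        have hc : C G.leadingCoeff ≠ (0 : k[X][X]) := C_ne_zero.2 (leadingCoeff_ne_zero.2 hG)
        have hQ : Q ≠ 0 := by
          rintro rfl
          rw [zero_mul] at h1
          exact mul_ne_zero (pow_ne_zero _ hc) hF h1
        have h2 := congrArg natDegree h1
        rw [natDegree_mul (pow_ne_zero _ hc) hF, natDegree_mul hQ hG, natDegree_pow, natDegree_C,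
          mul_zero, zero_add] at h2
        obtain ⟨N', b, H, h3, h4⟩ := ih Q (by omega) hQ
        refine ⟨N + N', b + 1, H, ?_, h4⟩
        calc C G.leadingCoeff ^ (N + N') * F
            = C G.leadingCoeff ^ N' * (C G.leadingCoeff ^ N * F) := by ring
          _ = C G.leadingCoeff ^ N' * Q * G := by rw [h1]; ring
          _ = G ^ (b + 1) * H := by rw [h3]; ring
      · exact ⟨0, 0, F, by rw [pow_zero, pow_zero], h0⟩
  exact key _ F le_rfl hF

/-- Proof: `o` = the order of `arcE h F`.  Let `F' = F.comp (C hk + C X ^ m * X) = (taylor hk F).comp (C (X ^ m) * X)`, its coefficient of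
`Y ^ j` is `(taylor hk F).coeff j * (X ^ m) ^ j` (`comp_C_mul_X_coeff`).  For `j ≥ 1` it is divisible by `X ^ m`, so by `X ^ (o + 1)`.  For
`j = 0` it is `F.eval hk`; as a power series it is `arcE hk F`, and `hk - h` divides `arcE hk F - arcE h F` (`sub_dvd_eval_sub` for
`F.map coeToPowerSeries.ringHom`), so they have the same coefficients up to `m`: `F.eval hk = X ^ o * u` with `u.coeff 0 ≠ 0`.  So all
coefficients of `F'` are divisible by `X ^ o` (`C_dvd_iff_dvd_coeff`), `F' = C (X ^ o) * U`, `U.evalEval 0 0 = (U.coeff 0).coeff 0 ≠ 0`. -/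
theorem arc_one (h : PowerSeries k) (F : k[X][X]) (hF : arcE h F ≠ 0) : ∃ o : ℕ, ∀ m : ℕ, o < m →
    ∀ hk : k[X], (∀ i ≤ m, hk.coeff i = PowerSeries.coeff i h) →
      ∃ U : k[X][X], U.evalEval 0 0 ≠ 0 ∧ F.comp (C hk + C X ^ m * X) = C X ^ o * U := by
  obtain ⟨o, ho, ho'⟩ := QArcB_ord hF
  refine ⟨o, fun m hm hk hhk => ?_⟩
  obtain ⟨-, -, -, h1⟩ := QArcB_eval h F hk hhk
  obtain ⟨u, hu, hu0⟩ := QArcB_near ho ho' hm.le h1
  have h2 : C ((X : k[X]) ^ o) ∣ F.comp (C hk + C X ^ m * X) := by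
    rw [C_dvd_iff_dvd_coeff]
    intro j
    rw [QArcB_comp]
    rcases Nat.eq_zero_or_pos j with rfl | hj
    · rw [Polynomial.taylor_coeff_zero, hu, pow_zero, mul_one]
      exact dvd_mul_right _ _
    · rw [← pow_mul]
      exact Dvd.dvd.mul_left (pow_dvd_pow _ (le_trans hm.le (Nat.le_mul_of_pos_right m hj))) _
  obtain ⟨U, hU⟩ := h2
  refine ⟨U, ?_, ?_⟩
  · rw [QArcB_ee]
    have h3 := congrArg (fun p => coeff p 0) hU
    simp only [coeff_C_mul] at h3
    rw [QArcB_comp, Polynomial.taylor_coeff_zero, hu, pow_zero, mul_one] at h3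
    have h4 : u = U.coeff 0 := mul_left_cancel₀ (pow_ne_zero _ X_ne_zero) h3
    rw [← h4]
    exact hu0
  · rw [hU, C_pow]

/-- Proof: `o` = the order of `arcE h (derivative G)`.  As in `arc_one` the coefficient of `Y ^ j` of `G.comp (..)` is
`(taylor hk G).coeff j * X ^ (m * j)`.  `j ≥ 2`: divisible by `X ^ (2 m)`, so by `X ^ (m + o)`.  `j = 1`: `(derivative G).eval hk * X ^ m`, as
in `arc_one` this is `X ^ (m + o) * u` with `u.coeff 0 ≠ 0`.  `j = 0`: `G.eval hk`; with `d = hk - h` (divisible by `X ^ (m + 1)`) it is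
`arcE h G + arcE h (derivative G) * d + r * d ^ 2` (`Polynomial.binomExpansion`), divisible by `X ^ (m + o + 1)`.  So
`G.comp (..) = C X ^ (m + o) * Γ`, `(Γ.coeff 0).coeff 0 = 0`, `(Γ.coeff 1).coeff 0 ≠ 0`. -/
theorem arc_two (h : PowerSeries k) (G : k[X][X]) (hG : arcE h G = 0)
    (hG' : arcE h (derivative G) ≠ 0) : ∃ o : ℕ, ∀ m : ℕ, o < m →
    ∀ hk : k[X], (∀ i ≤ m, hk.coeff i = PowerSeries.coeff i h) →
      ∃ Γ : k[X][X], Γ.evalEval 0 0 = 0 ∧ (derivative Γ).evalEval 0 0 ≠ 0 ∧
        G.comp (C hk + C X ^ m * X) = C X ^ (m + o) * Γ := by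
  obtain ⟨o, ho, ho'⟩ := QArcB_ord hG'
  refine ⟨o, fun m hm hk hhk => ?_⟩
  obtain ⟨hd, g2, g3, -⟩ := QArcB_eval h G hk hhk
  obtain ⟨-, -, g4, h1⟩ := QArcB_eval h (derivative G) hk hhk
  obtain ⟨u, hu, hu0⟩ := QArcB_near ho ho' hm.le h1
  -- the constant coefficient
  have h0 : (X : k[X]) ^ (m + o + 1) ∣ G.eval hk := by
    have hb : (PowerSeries.X : PowerSeries k) ^ o ∣ arcE h (derivative G) := by
      rw [PowerSeries.X_pow_dvd_iff]
      exact ho'
    have hps : (PowerSeries.X : PowerSeries k) ^ (m + o + 1) ∣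
        ((G.eval hk : k[X]) : PowerSeries k) := by
      obtain ⟨q, hq⟩ := binomExpansion (G.map (coeToPowerSeries.ringHom (R := k))) h
        ((hk : PowerSeries k) - h)
      rw [add_sub_cancel, ← g3, hG, zero_add] at hq
      rw [g2, hq]
      refine dvd_add ?_ ?_
      · have e1 : eval h (derivative (G.map (coeToPowerSeries.ringHom (R := k)))) =
            arcE h (derivative G) := by
          rw [g4, derivative_map]
        rw [e1, show m + o + 1 = o + (m + 1) by omega, pow_add]
        exact mul_dvd_mul hb hd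
      · have e2 : (PowerSeries.X : PowerSeries k) ^ (m + o + 1) ∣
            ((hk : PowerSeries k) - h) ^ 2 := by
          refine (pow_dvd_pow _ (show m + o + 1 ≤ (m + 1) * 2 by omega)).trans ?_
          rw [pow_mul]
          exact pow_dvd_pow_of_dvd hd 2
        exact Dvd.dvd.mul_left e2 _
    rw [X_pow_dvd_iff]
    intro d hd'
    have := PowerSeries.X_pow_dvd_iff.1 hps d hd'
    rwa [Polynomial.coeff_coe] at this
  obtain ⟨w, hw⟩ := h0
  have h2 : C ((X : k[X]) ^ (m + o)) ∣ G.comp (C hk + C X ^ m * X) := by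
    rw [C_dvd_iff_dvd_coeff]
    intro j
    rw [QArcB_comp]
    rcases Nat.eq_zero_or_pos j with rfl | hj
    · rw [Polynomial.taylor_coeff_zero, hw, pow_zero, mul_one]
      exact Dvd.dvd.mul_right (pow_dvd_pow _ (by omega)) _
    · rcases Nat.lt_or_ge 1 j with hj1 | hj1
      · rw [← pow_mul]
        refine Dvd.dvd.mul_left (pow_dvd_pow _ ?_) _
        have : m * 2 ≤ m * j := Nat.mul_le_mul_left m (by omega)
        omega
      · have : j = 1 := by omega
        subst this
        rw [Polynomial.taylor_coeff_one, hu, pow_one, pow_add]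
        exact ⟨u, by ring⟩
  obtain ⟨Γ, hΓ⟩ := h2
  refine ⟨Γ, ?_, ?_, ?_⟩
  · rw [QArcB_ee]
    have h3 := congrArg (fun p => coeff p 0) hΓ
    simp only [coeff_C_mul] at h3
    rw [QArcB_comp, Polynomial.taylor_coeff_zero, hw, pow_zero, mul_one, pow_succ, mul_assoc] at h3
    have h4 : X * w = Γ.coeff 0 := mul_left_cancel₀ (pow_ne_zero _ X_ne_zero) h3
    rw [← h4, mul_coeff_zero, coeff_X_zero, zero_mul]
  · rw [QArcB_ee, coeff_derivative]
    have h3 := congrArg (fun p => coeff p 1) hΓ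
    simp only [coeff_C_mul] at h3
    rw [QArcB_comp, Polynomial.taylor_coeff_one, hu, pow_one, pow_add] at h3
    have h4 : u = Γ.coeff 1 := by
      refine mul_left_cancel₀ (pow_ne_zero (m + o) X_ne_zero) ?_
      rw [pow_add, ← h3]
      ring
    rw [zero_add, Nat.cast_zero, zero_add, mul_one, ← h4]
    exact hu0
  · rw [hΓ, C_pow]

end TF45
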