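import Pool.Agent.W_4ce76a_h45.Comp

set_option autoImplicit false
set_option linter.unusedSectionVars false

/-!
# MP_4ce76a_lc, two quantifiers: definitions

Polynomials in two variables are elements of `R[X][Y]`: the outer variable is `Y`, the inner one `X`.

* `opA α F = F (X, X (Y + α))`, `opB F = F (X Y, X)`: the two charts of the blow up of the origin; in both charts the
  exceptional curve is `X = 0`.
* `Nice F`: up to factors which do not vanish at the origin every nonzero member of the family is a monomial in `X` and one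
  polynomial `G` which vanishes at the origin and has there a nonzero derivative with respect to `Y`.
* `Tk D Dn`: the tuples `Dn n` converge to `D` in the fine topology.
* `Bd F`: the family `F` over `L p` is the limit of families `F_n` for which there are points `(x n, y n)`, converging to the origin,
  such that the values of `F_n` at `(x n, y n)` are not, up to units, the values of `F` at some point.
-/

namespace TF45

open TF14 Polynomial

section Alg

variable {R : Type} [CommRing R]

/-- `F (X, X (Y + α))` -/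
noncomputable def opA (α : R) (F : R[X][X]) : R[X][X] := F.comp (C X * (X + C (C α)))

/-- `F (X Y, X)` -/
noncomputable def opB (F : R[X][X]) : R[X][X] :=
  F.eval₂ (eval₂RingHom ((C : R[X] →+* R[X][X]).comp C) (C X * X)) (C X)

/-- the normal form at the origin -/
def Nice {J : Type} (F : J → R[X][X]) : Prop :=
  ∃ G : R[X][X], G.evalEval 0 0 = 0 ∧ (derivative G).evalEval 0 0 ≠ 0 ∧ ∀ j, F j = 0 ∨
    ∃ (a b : ℕ) (U V : R[X][X]), U.evalEval 0 0 ≠ 0 ∧ V.evalEval 0 0 ≠ 0 ∧
      V * F j = C X ^ a * G ^ b * U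

/-- specialization of the coefficients -/
noncomputable def spz {K : Type} [Field K] [Algebra K R] {κ : Type} (D : κ → R)
    (Φ : (MvPolynomial κ K)[X][X]) : R[X][X] :=
  Φ.map (mapRingHom ((MvPolynomial.aeval D : MvPolynomial κ K →ₐ[K] R) : MvPolynomial κ K →+* R))

end Alg

section Seq

variable {p : ℕ} [hp : Fact p.Prime]

/-- equal up to a unit of the valuation ring -/
def Eqv (a b : L p) : Prop := ∃ w : L p, w ≠ 0 ∧ w ∈ OL p ∧ w⁻¹ ∈ OL p ∧ a = b * w

/-- convergence -/
def Tnd (a : ℕ → L p) (b : L p) : Prop :=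
  ∀ e : L p, e ≠ 0 → ∃ n0 : ℕ, ∀ n ≥ n0, Cl (OL p) e (a n) b

/-- convergence in the fine topology -/
def Tk {κ : Type} (D : κ → L p) (Dn : ℕ → κ → L p) : Prop :=
  ∀ (m : ℕ) (e : L p), e ≠ 0 → ∃ n0 : ℕ, ∀ n ≥ n0, Near (K p) hp.out (ta_L p) m e D (Dn n)

/-- the family is bad -/
def Bd {J : Type} (F : J → (L p)[X][X]) : Prop :=
  ∃ (κ : Type) (_ : Finite κ) (D : κ → L p) (Dn : ℕ → κ → L p)
    (Φ : J → (MvPolynomial κ (K p))[X][X]) (x y : ℕ → L p),
    Tk D Dn ∧ (∀ j, spz D (Φ j) = F j) ∧ Tnd x 0 ∧ Tnd y 0 ∧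
    ∀ n, ¬ ∃ x' y' : L p, ∀ j, Eqv ((spz (Dn n) (Φ j)).evalEval (x n) (y n))
      ((F j).evalEval x' y')

end Seq

end TF45
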