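import Pool.Agent.W_4ce76a_h45.QAlg

set_option autoImplicit false
set_option linter.unusedSectionVars false

/-!
# MP_4ce76a_lc, two quantifiers: convergence and equality up to units
-/

namespace TF45

open TF14 Polynomial

variable {p : ℕ} [hp : Fact p.Prime] {κ κ' σ : Type}

theorem eqv_refl (a : L p) : Eqv a a :=
  ⟨1, one_ne_zero, (OL p).one_mem, by rw [inv_one]; exact (OL p).one_mem, (mul_one a).symm⟩

theorem eqv_symm {a b : L p} (h : Eqv a b) : Eqv b a := by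
  obtain ⟨w, hw0, hw, hwi, rfl⟩ := h
  refine ⟨w⁻¹, inv_ne_zero hw0, hwi, by rwa [inv_inv], ?_⟩
  rw [mul_assoc, mul_inv_cancel₀ hw0, mul_one]

theorem eqv_trans {a b c : L p} (h : Eqv a b) (h' : Eqv b c) : Eqv a c := by
  obtain ⟨w, hw0, hw, hwi, rfl⟩ := h
  obtain ⟨v, hv0, hv, hvi, rfl⟩ := h'
  refine ⟨v * w, mul_ne_zero hv0 hw0, mul_mem hv hw, ?_, mul_assoc _ _ _⟩
  rw [mul_inv]
  exact mul_mem hvi hwi

theorem eqv_mul {a b c d : L p} (h : Eqv a b) (h' : Eqv c d) : Eqv (a * c) (b * d) := by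
  obtain ⟨w, hw0, hw, hwi, rfl⟩ := h
  obtain ⟨v, hv0, hv, hvi, rfl⟩ := h'
  refine ⟨w * v, mul_ne_zero hw0 hv0, mul_mem hw hv, ?_, by ring⟩
  rw [mul_inv]
  exact mul_mem hwi hvi

theorem eqv_inv {a b : L p} (h : Eqv a b) : Eqv a⁻¹ b⁻¹ := by
  obtain ⟨w, hw0, hw, hwi, rfl⟩ := h
  exact ⟨w⁻¹, inv_ne_zero hw0, hwi, by rwa [inv_inv], mul_inv _ _⟩

theorem eqv_pow {a b : L p} (h : Eqv a b) (n : ℕ) : Eqv (a ^ n) (b ^ n) := by
  induction n with
  | zero => rw [pow_zero, pow_zero]; exact eqv_refl 1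
  | succ n ih => rw [pow_succ, pow_succ]; exact eqv_mul ih h

theorem eqv_zero {a b : L p} (h : Eqv a b) : a = 0 ↔ b = 0 := by
  obtain ⟨w, hw0, hw, hwi, rfl⟩ := h
  rw [mul_eq_zero]
  exact or_iff_left hw0

theorem eqv_cancel {a b c d : L p} (ha : a ≠ 0) (h : Eqv a b) (h' : Eqv (a * c) (b * d)) :
    Eqv c d := by
  have hb : b ≠ 0 := fun h0 => ha ((eqv_zero h).2 h0)
  obtain ⟨w, hw0, hw, hwi, rfl⟩ := h
  obtain ⟨v, hv0, hv, hvi, h2⟩ := h'
  refine ⟨v * w⁻¹, mul_ne_zero hv0 (inv_ne_zero hw0), mul_mem hv hwi, ?_, ?_⟩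
  · rw [mul_inv, inv_inv]
    exact mul_mem hvi hw
  · have h3 : b * (w * c) = b * (d * v) := by rw [← mul_assoc, h2, mul_assoc]
    have h4 := mul_left_cancel₀ hb h3
    rw [← mul_assoc, ← h4, mul_comm w c, mul_assoc, mul_inv_cancel₀ hw0, mul_one]

/-- Proof: apply the hypothesis with `e = b * q`, `0 < |q| < 1` (`nontriv (ta_L p)`): `Atom_unit`. -/
theorem tnd_eqv {a : ℕ → L p} {b : L p} (h : Tnd a b) (hb : b ≠ 0) :
    ∃ n0 : ℕ, ∀ n ≥ n0, Eqv (a n) b := by
  obtain ⟨q, hq0, hq⟩ := nontriv (ta_L p)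
  obtain ⟨n0, hn0⟩ := h (b * q) (mul_ne_zero hb hq0)
  exact ⟨n0, fun n hn => Atom_unit hq (hn0 n hn)⟩

theorem tnd_sub {a : ℕ → L p} {b : L p} (h : Tnd a b) {r : ℕ → ℕ} (hr : StrictMono r) :
    Tnd (fun n => a (r n)) b := by
  intro e he
  obtain ⟨n0, hn0⟩ := h e he
  exact ⟨n0, fun n hn => hn0 (r n) (hn.le.trans (hr.le_apply))⟩

/-- Proof: `Cl` with radius `e` for both; the difference of differences. -/
theorem tnd_diff {a a' : ℕ → L p} {b b' : L p} (h : Tnd a b) (h' : Tnd a' b') :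
    Tnd (fun n => a n - a' n) (b - b') := by
  intro e he
  obtain ⟨n0, hn0⟩ := h e he
  obtain ⟨n1, hn1⟩ := h' e he
  refine ⟨max n0 n1, fun n hn => ?_⟩
  obtain ⟨u, hu, h1⟩ := hn0 n ((le_max_left _ _).trans hn)
  obtain ⟨v, hv, h2⟩ := hn1 n ((le_max_right _ _).trans hn)
  refine ⟨u - v, sub_mem hu hv, ?_⟩
  rw [mul_sub, ← h1, ← h2]
  ring

theorem tk_sub {D : κ → L p} {Dn : ℕ → κ → L p} (h : Tk D Dn) {r : ℕ → ℕ} (hr : StrictMono r) :
    Tk D fun n => Dn (r n) := by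
  intro m e he
  obtain ⟨n0, hn0⟩ := h m e he
  exact ⟨n0, fun n hn => hn0 (r n) (hn.le.trans (hr.le_apply))⟩

/-- `near_comp` -/
theorem tk_comp {D : κ → L p} {Dn : ℕ → κ → L p} (h : Tk D Dn) (g : κ' → κ) :
    Tk (D ∘ g) fun n => Dn n ∘ g := by
  intro m e he
  obtain ⟨n0, hn0⟩ := h m e he
  exact ⟨n0, fun n hn => near_comp hp.out (ta_L p) (hn0 n hn) g⟩

theorem tk_tnd {D : κ → L p} {Dn : ℕ → κ → L p} (h : Tk D Dn) (i : κ) :
    Tnd (fun n => Dn n i) (D i) := by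
  intro e he
  obtain ⟨n0, hn0⟩ := h 0 e he
  exact ⟨n0, fun n hn => (hn0 n hn).2 i⟩

/-- `near_rel` -/
theorem tk_rel {D : κ → L p} {Dn : ℕ → κ → L p} (h : Tk D Dn) (P : MvPolynomial κ (K p))
    (hP : MvPolynomial.aeval D P = 0) :
    ∃ n0 : ℕ, ∀ n ≥ n0, MvPolynomial.aeval (Dn n) P = 0 := by
  obtain ⟨n0, hn0⟩ := h 0 1 one_ne_zero
  exact ⟨n0, fun n hn => near_rel hp.out (ta_L p) (emb_KL p) (hn0 n hn) P hP⟩

theorem QEqv_small (e : L p) (he : e ≠ 0) : ∃ n0 : ℕ, ∀ n ≥ n0, ∀ a b, Cl (OL p) (tL p ^ n) a b →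
    Cl (OL p) e a b := by
  obtain ⟨n0, hn0⟩ := OpenLB_pow p e⁻¹
  refine ⟨n0, fun n hn' a b hab => ?_⟩
  refine cl_mono (hn0 n hn') ?_
  have h2 : e * (tL p ^ n * e⁻¹) = tL p ^ n := by field_simp
  rwa [h2]

/-- One element.  Proof: for every `i` `lift` (with `m1 = i`, `e1 = tL p ^ i`) gives `m i`, `e i`, and `Tk` gives `N i` such that for
`n ≥ N i` there is `d'` with `Near _ _ _ i (tL p ^ i) (pr D d) (pr (Dn n) d')`.  For `n` let `k n` be the largest `i ≤ n` with `N i ≤ n` (if there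
is one, `Nat.findGreatest`) and take for `dn n` such a `d'` for `i = k n`.  For every `i` and `n ≥ max i (N i)` one has `k n ≥ i`, so
`Near i (tL p ^ i)` by `comp_near`-like monotonicity (`near_level`, `near_radius`, and `tL p ^ (k n)` is a multiple of `tL p ^ i`); for every
`e ≠ 0` some `tL p ^ i` is `e` times an element of `OL p` (`OpenLB_pow`, as in `main_ex`). -/
theorem tk_lift1 [Finite κ] {D : κ → L p} {Dn : ℕ → κ → L p} (h : Tk D Dn) (d : L p) :
    ∃ dn : ℕ → L p, Tk (pr D d) fun n => pr (Dn n) (dn n) := by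
  classical
  have ht := t_ne_zero (ta_L p)
  have h1 : ∀ i : ℕ, ∃ N : ℕ, ∀ n ≥ N, ∃ d' : L p,
      Near (K p) hp.out (ta_L p) i (tL p ^ i) (pr D d) (pr (Dn n) d') := by
    intro i
    obtain ⟨m, e, he, hl⟩ := lift hp.out (ta_K p) (ta_L p) (emb_KL p) D d i
      (pow_ne_zero i ht)
    obtain ⟨n0, hn0⟩ := h m e he
    exact ⟨n0, fun n hn => hl _ (hn0 n hn)⟩
  choose N hN using h1
  set k : ℕ → ℕ := fun n => Nat.findGreatest (fun i => N i ≤ n) n with hk
  refine ⟨fun n => if hx : ∃ d' : L p, Near (K p) hp.out (ta_L p) (k n) (tL p ^ k n) (pr D d)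
    (pr (Dn n) d') then hx.choose else 0, ?_⟩
  intro m e he
  obtain ⟨n0, hn0⟩ := QEqv_small e he
  refine ⟨max (max m n0) (N (max m n0)), fun n hn => ?_⟩
  have h2 : max m n0 ≤ n := (le_max_left _ _).trans hn
  have h3 : N (max m n0) ≤ n := (le_max_right _ _).trans hn
  have h4 : max m n0 ≤ k n := Nat.le_findGreatest h2 h3
  have h5 : N (k n) ≤ n := Nat.findGreatest_spec (P := fun i => N i ≤ n) h2 h3
  have hx := hN (k n) n h5
  beta_reduce
  rw [dif_pos hx]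
  exact comp_near p ((le_max_left _ _).trans h4) (hn0 _ ((le_max_right _ _).trans h4))
    hx.choose_spec

/-- Finitely many elements.  Proof: `Finite.exists_equiv_fin σ` and induction on the number, with `tk_lift1` and `tk_comp` (the index type
`κ ⊕ Fin (s + 1)` is mapped to `(κ ⊕ Fin s) ⊕ Unit`: `inl i ↦ inl (inl i)`, `inr i ↦ Fin.lastCases (inr ()) (fun i => inl (inr i)) i`). -/
theorem tk_lift [Finite κ] [Finite σ] {D : κ → L p} {Dn : ℕ → κ → L p} (h : Tk D Dn)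
    (d : σ → L p) : ∃ dn : ℕ → σ → L p,
      Tk (Sum.elim D d) fun n => Sum.elim (Dn n) (dn n) := by
  classical
  have key : ∀ (s : ℕ) (d : Fin s → L p), ∃ dn : ℕ → Fin s → L p,
      Tk (Sum.elim D d) fun n => Sum.elim (Dn n) (dn n) := by
    intro s
    induction s with
    | zero =>
      intro d
      refine ⟨fun _ => d, ?_⟩
      have h1 := tk_comp h (Sum.elim id (fun i : Fin 0 => i.elim0) : κ ⊕ Fin 0 → κ)
      have h2 : ∀ b : κ → L p, Sum.elim b d =
          b ∘ (Sum.elim id (fun i : Fin 0 => i.elim0) : κ ⊕ Fin 0 → κ) := by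
        intro b
        funext q
        rcases q with q | q
        · rfl
        · exact q.elim0
      rw [h2 D]
      have h3 : (fun n => Sum.elim (Dn n) d) =
          fun n => Dn n ∘ (Sum.elim id (fun i : Fin 0 => i.elim0) : κ ⊕ Fin 0 → κ) :=
        funext fun n => h2 (Dn n)
      rw [h3]
      exact h1
    | succ s ih =>
      intro d
      obtain ⟨dn0, h0⟩ := ih fun i => d i.castSucc
      obtain ⟨dn1, h1⟩ := tk_lift1 h0 (d (Fin.last s))
      refine ⟨fun n => Fin.snoc (dn0 n) (dn1 n), ?_⟩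
      set g : κ ⊕ Fin (s + 1) → (κ ⊕ Fin s) ⊕ Unit := Sum.elim (fun i => Sum.inl (Sum.inl i))
        (fun i => Fin.lastCases (Sum.inr ()) (fun i => Sum.inl (Sum.inr i)) i) with hg
      have h2 := tk_comp h1 g
      have h3 : ∀ (b : κ → L p) (a : Fin s → L p) (z : L p),
          (pr (Sum.elim b a) z ∘ g : κ ⊕ Fin (s + 1) → L p) =
            Sum.elim b (Fin.snoc a z : Fin (s + 1) → L p) := by
        intro b a z
        funext q
        rcases q with q | q
        · rfl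
        · refine Fin.lastCases ?_ (fun i => ?_) q
          · simp [hg, pr]
          · simp [hg, pr]
      have h4 : Sum.elim D d = pr (Sum.elim D fun i => d i.castSucc) (d (Fin.last s)) ∘ g := by
        rw [h3]
        congr 1
        funext q
        refine Fin.lastCases ?_ (fun i => ?_) q
        · simp
        · simp
      have h5 : (fun n => Sum.elim (Dn n) (Fin.snoc (dn0 n) (dn1 n) : Fin (s + 1) → L p)) =
          fun n => pr (Sum.elim (Dn n) (dn0 n)) (dn1 n) ∘ g :=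
        funext fun n => (h3 _ _ _).symm
      rw [h4, h5]
      exact h2
  obtain ⟨s, ⟨f⟩⟩ := Finite.exists_equiv_fin σ
  obtain ⟨dn, h1⟩ := key s (d ∘ f.symm)
  refine ⟨fun n => dn n ∘ f, ?_⟩
  have h2 := tk_comp h1 (Sum.map id f)
  have h3 : ∀ (b : κ → L p) (a : Fin s → L p), Sum.elim b a ∘ Sum.map id f =
      Sum.elim b (a ∘ f) := by
    intro b a
    funext q
    rcases q with q | q <;> rfl
  have h4 : Sum.elim D d = Sum.elim D (d ∘ f.symm) ∘ Sum.map id f := by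
    rw [h3]
    congr 1
    funext q
    simp
  have h5 : (fun n => Sum.elim (Dn n) (dn n ∘ f)) =
      fun n => Sum.elim (Dn n) (dn n) ∘ Sum.map id f := funext fun n => (h3 _ _).symm
  rw [h4, h5]
  exact h2

end TF45
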