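import Pool.Agent.W_4ce76a_h45.QStep

set_option autoImplicit false
set_option linter.unusedSectionVars false

/-!
# MP_4ce76a_lc, two quantifiers: the main theorem on values of polynomials in two variables
-/

namespace TF45

open TF14 MvPolynomial

variable {p : ℕ} [hp : Fact p.Prime] {ι : Type}

/-- Proof: `exists_tay` for `f`: `aeval (pr D z) f = ∑ i < n, aeval D (a i) * z ^ i`; take `N = n`,
`g = ∑ i < n, rename Sum.inl (a i) * X (Sum.inr ()) ^ (n - i)`. -/
theorem inv_one (f : MvPolynomial (ι ⊕ Unit) (K p)) : ∃ (N : ℕ) (g : MvPolynomial (ι ⊕ Unit) (K p)),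
    ∀ (D : ι → L p) (w : L p), w ≠ 0 → aeval (pr D w) g = w ^ N * aeval (pr D w⁻¹) f := by
  obtain ⟨n, a, b, ha, -⟩ := exists_tay (N := L p) f
  refine ⟨n, ∑ i ∈ Finset.range n, rename Sum.inl (a i) * X (Sum.inr ()) ^ (n - i), ?_⟩
  intro D w hw
  rw [ha, map_sum, Finset.mul_sum]
  refine Finset.sum_congr rfl fun i hi => ?_
  have h1 : (pr D w) ∘ Sum.inl = D := by
    funext i
    rfl
  rw [map_mul, map_pow, aeval_rename, h1, aeval_X]
  have h2 : w ^ n = w ^ (n - i) * w ^ i := by
    rw [← pow_add, Nat.sub_add_cancel (Finset.mem_range.1 hi).le]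
  have h3 : w ^ i * (w⁻¹) ^ i = 1 := by
    rw [← mul_pow, mul_inv_cancel₀ hw, one_pow]
  have h4 : pr D w (Sum.inr ()) = w := rfl
  rw [h4, h2]
  linear_combination (-(aeval D (a i)) * w ^ (n - i)) * h3

/-- inversion of one of the two variables -/
theorem QInit_inv (j : Fin 2) (f : MvPolynomial (ι ⊕ Fin 2) (K p)) :
    ∃ (N : ℕ) (g : MvPolynomial (ι ⊕ Fin 2) (K p)), ∀ (c : ι → L p) (w : Fin 2 → L p),
      w j ≠ 0 → aeval (Sum.elim c w) g =
        w j ^ N * aeval (Sum.elim c (Function.update w j (w j)⁻¹)) f := by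
  classical
  obtain ⟨N, g, hg⟩ := inv_one (p := p) (ι := ι ⊕ Fin 2) (rename (Sum.elim
    (fun i => Sum.inl (Sum.inl i)) (fun k => if k = j then Sum.inr () else Sum.inl (Sum.inr k)) :
      ι ⊕ Fin 2 → (ι ⊕ Fin 2) ⊕ Unit) f)
  refine ⟨N, rename (Sum.elim id (fun _ => Sum.inr j) : (ι ⊕ Fin 2) ⊕ Unit → ι ⊕ Fin 2) g, ?_⟩
  intro c w hw
  have h1 := hg (Sum.elim c w) (w j) hw
  rw [aeval_rename] at h1 ⊢
  have h2 : Sum.elim c w ∘ (Sum.elim id (fun _ => Sum.inr j) : (ι ⊕ Fin 2) ⊕ Unit → ι ⊕ Fin 2) =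
      pr (Sum.elim c w) (w j) := by
    funext q
    rcases q with q | q <;> rfl
  rw [h2, h1]
  congr 2
  apply congrArg
  funext q
  rcases q with q | q
  · rfl
  · change pr (Sum.elim c w) (w j)⁻¹ (if q = j then Sum.inr () else Sum.inl (Sum.inr q)) =
      Function.update w j (w j)⁻¹ q
    by_cases hq : q = j
    · rw [if_pos hq, hq, Function.update_self]
      rfl
    · rw [if_neg hq, Function.update_of_ne hq]
      rfl

theorem QInit_invb (j : Fin 2) (b : Bool) (f : MvPolynomial (ι ⊕ Fin 2) (K p)) :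
    ∃ (N : ℕ) (g : MvPolynomial (ι ⊕ Fin 2) (K p)), ∀ (c : ι → L p) (w : Fin 2 → L p),
      (b = true → w j ≠ 0) → aeval (Sum.elim c w) g =
        (if b = true then w j ^ N else 1) *
        aeval (Sum.elim c (if b = true then Function.update w j (w j)⁻¹ else w)) f := by
  cases b with
  | false =>
    refine ⟨0, f, fun c w _ => ?_⟩
    rw [if_neg Bool.false_ne_true, if_neg Bool.false_ne_true, one_mul]
  | true =>
    obtain ⟨N, g, hg⟩ := QInit_inv j f
    refine ⟨N, g, fun c w hw => ?_⟩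
    rw [if_pos rfl, if_pos rfl]
    exact hg c w (hw rfl)

/-- Proof: `inv_one` for the variable `0` and then for the variable `1` (the other variable is one of the parameters; rename), each only
if `s i = true`. -/
theorem inv_two (s : Fin 2 → Bool) (f : MvPolynomial (ι ⊕ Fin 2) (K p)) :
    ∃ (N : Fin 2 → ℕ) (g : MvPolynomial (ι ⊕ Fin 2) (K p)), ∀ (c : ι → L p) (w : Fin 2 → L p),
      (∀ i, s i = true → w i ≠ 0) → aeval (Sum.elim c w) g =
        (∏ i, if s i = true then w i ^ N i else 1) *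
          aeval (Sum.elim c fun i => if s i = true then (w i)⁻¹ else w i) f := by
  obtain ⟨N1, g1, h1⟩ := QInit_invb 1 (s 1) f
  obtain ⟨N0, g0, h0⟩ := QInit_invb 0 (s 0) g1
  refine ⟨![N0, N1], g0, fun c w hw => ?_⟩
  rw [h0 c w (hw 0)]
  have h2 : (if s 0 = true then Function.update w 0 (w 0)⁻¹ else w) 1 = w 1 := by
    split_ifs
    · rw [Function.update_of_ne (by decide)]
    · rfl
  rw [h1 c _ (by rw [h2]; exact hw 1), h2, Fin.prod_univ_two, ← mul_assoc]
  congr 2
  apply congrArg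
  apply congrArg
  funext i
  fin_cases i
  · change (if s 1 = true then Function.update (if s 0 = true then Function.update w 0 (w 0)⁻¹
      else w) 1 (w 1)⁻¹ else (if s 0 = true then Function.update w 0 (w 0)⁻¹ else w)) 0 =
      if s 0 = true then (w 0)⁻¹ else w 0
    have h3 : (if s 1 = true then Function.update (if s 0 = true then
        Function.update w 0 (w 0)⁻¹ else w) 1 (w 1)⁻¹ else
        (if s 0 = true then Function.update w 0 (w 0)⁻¹ else w)) 0 =
        (if s 0 = true then Function.update w 0 (w 0)⁻¹ else w) 0 := by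
      split_ifs
      · rw [Function.update_of_ne (by decide)]
      · rw [Function.update_of_ne (by decide)]
      · rfl
      · rfl
    rw [h3]
    split_ifs
    · rw [Function.update_self]
    · rfl
  · change (if s 1 = true then Function.update (if s 0 = true then Function.update w 0 (w 0)⁻¹
      else w) 1 (w 1)⁻¹ else (if s 0 = true then Function.update w 0 (w 0)⁻¹ else w)) 1 =
      if s 1 = true then (w 1)⁻¹ else w 1
    by_cases h3 : s 1 = true
    · rw [if_pos h3, if_pos h3, Function.update_self]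
    · rw [if_neg h3, if_neg h3, h2]

/-- bounded points.  Proof: otherwise `seq_compact` (`k = 2`) gives `r`, `v` with `w (r n) → v`; `tk_sub`, `tk_lift` (`σ = Fin 2`) give
`vn` with `Sum.elim (cn (r n)) (vn n) → Sum.elim c v`.  Let
`P j = aeval (Sum.elim (fun i => X (Sum.inl (Sum.inl i))) fun i => X (Sum.inl (Sum.inr i)) + X (Sum.inr i)) (g j)` in the variables
`(ι ⊕ Fin 2) ⊕ Fin 2` and `Φ j` from `mv_spz (P j)`: the value of `spz (Sum.elim c v) (Φ j)` at `(x, y)` is the value of `g j` at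
`c, v 0 + x, v 1 + y`.  With `x n = w (r n) 0 - vn n 0`, `y n = w (r n) 1 - vn n 1` (they tend to `0`: `tnd_diff`, `tk_tnd`) the family
`spz (Sum.elim c v) (Φ j)` is bad, contradiction to `not_bd`. -/
theorem two_affine [Finite ι] {J : Type} [Finite J] (g : J → MvPolynomial (ι ⊕ Fin 2) (K p))
    {c : ι → L p} {cn : ℕ → ι → L p} (h : Tk c cn) (w : ℕ → Fin 2 → L p)
    (hw : ∀ n i, w n i ∈ OL p) : ∃ (n : ℕ) (w' : Fin 2 → L p), ∀ j,
      Eqv (aeval (Sum.elim (cn n) (w n)) (g j)) (aeval (Sum.elim c w') (g j)) := by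
  classical
  by_contra hcon
  push Not at hcon
  obtain ⟨r, v, hr, -, hlim⟩ := seq_compact p (k := 2) w hw
  have hT : ∀ i, Tnd (fun n => w (r n) i) (v i) := by
    intro i e he
    obtain ⟨n0, hn0⟩ := hlim e he
    exact ⟨n0, fun n hn => hn0 n hn i⟩
  obtain ⟨vn, hvn⟩ := tk_lift (tk_sub h hr) v
  obtain ⟨P, hP⟩ : ∃ P : J → MvPolynomial ((ι ⊕ Fin 2) ⊕ Fin 2) (K p), ∀ j, P j =
      aeval (Sum.elim (fun i => X (Sum.inl (Sum.inl i)))
        fun i => X (Sum.inl (Sum.inr i)) + X (Sum.inr i)) (g j) := ⟨_, fun _ => rfl⟩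
  choose Φ hΦ using fun j => mv_spz (P j)
  have hval : ∀ (j : J) (b : ι → L p) (u : Fin 2 → L p) (x y : L p),
      (spz (Sum.elim b u) (Φ j)).evalEval x y =
        aeval (Sum.elim b fun i => u i + (![x, y] : Fin 2 → L p) i) (g j) := by
    intro j b u x y
    rw [hΦ, hP, comp_aeval_apply]
    congr 1
    apply congrArg
    funext q
    rcases q with q | q
    · simp
    · simp
  refine not_bd (fun j => spz (Sum.elim c v) (Φ j)) ⟨ι ⊕ Fin 2, inferInstance, Sum.elim c v,
    fun n => Sum.elim (cn (r n)) (vn n), Φ, fun n => w (r n) 0 - vn n 0,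
    fun n => w (r n) 1 - vn n 1, hvn, fun _ => rfl, ?_, ?_, ?_⟩
  · have h1 := tnd_diff (hT 0) (tk_tnd hvn (Sum.inr 0))
    have h2 : v 0 - Sum.elim c v (Sum.inr 0) = 0 := sub_self _
    rw [h2] at h1
    exact h1
  · have h1 := tnd_diff (hT 1) (tk_tnd hvn (Sum.inr 1))
    have h2 : v 1 - Sum.elim c v (Sum.inr 1) = 0 := sub_self _
    rw [h2] at h1
    exact h1
  · rintro n ⟨x', y', hxy⟩
    obtain ⟨j, hj⟩ := hcon (r n) fun i => v i + (![x', y'] : Fin 2 → L p) i
    apply hj
    have h1 := hxy j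
    rw [hval, hval] at h1
    have h2 : (fun i => vn n i + (![w (r n) 0 - vn n 0, w (r n) 1 - vn n 1] : Fin 2 → L p) i) =
        w (r n) := by
      funext i
      fin_cases i
      · simp
      · simp
    rw [h2] at h1
    exact h1

/-- Proof: otherwise for every `n` there are `c' n`, near `c` with level `n` and radius `tL p ^ n`, and `z' n` without `z''`
(`push Not`, `choose` as in `main_ex`); `Tk c c'`.  Let `s n i = true` iff `z' n i ∉ OL p`; one of the four functions `s` occurs for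
infinitely many `n` (`Finite.exists_infinite_fiber` or `Filter.frequently`); pass to the subsequence.  `w n i = (z' n i)⁻¹` if
`s i = true`, `= z' n i` otherwise; it is in `OL p`.  `two_affine` for the family which consists of the `g` of `inv_two s f`, `f ∈ fs`, and of
`X (Sum.inr 0)`, `X (Sum.inr 1)` (`J = {f // f ∈ fs} ⊕ Fin 2`): `n`, `w'`.  `z'' i = (w' i)⁻¹` if `s i = true`, `= w' i` otherwise.  As
`w n i` and `w' i` are `Eqv`, `w' i ≠ 0` if `s i = true`, and by `inv_two` (for `(c' n, w n)` and `(c, w')`), `eqv_cancel`, the values of `f`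
at `(c' n, z' n)` and `(c, z'')` are `Eqv`. -/
theorem two_main [Finite ι] (fs : List (MvPolynomial (ι ⊕ Fin 2) (K p))) (c : ι → L p) :
    ∃ (m : ℕ) (e : L p), e ≠ 0 ∧ ∀ c', Near (K p) hp.out (ta_L p) m e c c' →
      ∀ z' : Fin 2 → L p, ∃ z'' : Fin 2 → L p, ∀ f ∈ fs,
        Eqv (aeval (Sum.elim c' z') f) (aeval (Sum.elim c z'') f) := by
  classical
  by_contra hcon
  push Not at hcon
  have ht := t_ne_zero (ta_L p)
  choose c' hn z' hz' using fun n : ℕ => hcon n (tL p ^ n) (pow_ne_zero n ht)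
  have hTk : Tk c c' := by
    intro m e he
    obtain ⟨n0, hn0⟩ := QEqv_small e he
    exact ⟨max n0 m, fun n hn' => comp_near p ((le_max_right _ _).trans hn')
      (hn0 n ((le_max_left _ _).trans hn')) (hn n)⟩
  -- the type of the points
  obtain ⟨S, hS⟩ : ∃ S : ℕ → Fin 2 → Bool, ∀ n i, S n i = true ↔ z' n i ∉ OL p :=
    ⟨fun n i => decide (z' n i ∉ OL p), fun n i => by simp⟩
  obtain ⟨s, hs⟩ := Finite.exists_infinite_fiber S
  have hs' : ∃ᶠ n in Filter.atTop, S n = s := by
    rw [Nat.frequently_atTop_iff_infinite]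
    exact Set.infinite_coe_iff.1 hs
  obtain ⟨r, hr, hrs⟩ := Filter.extraction_of_frequently_atTop hs'
  have hsz : ∀ n i, s i = true ↔ z' (r n) i ∉ OL p := by
    intro n i
    rw [← hS (r n) i, hrs n]
  obtain ⟨w, hw⟩ : ∃ w : ℕ → Fin 2 → L p, ∀ n i, w n i =
      if s i = true then (z' (r n) i)⁻¹ else z' (r n) i := ⟨_, fun _ _ => rfl⟩
  have hwz : ∀ n i, s i = true → z' (r n) i ≠ 0 := by
    intro n i hi h0
    apply (hsz n i).1 hi
    rw [h0]
    exact (OL p).zero_mem
  have hwO : ∀ n i, w n i ∈ OL p := by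
    intro n i
    rw [hw]
    split_ifs with hi
    · rcases (OL p).mem_or_inv_mem (z' (r n) i) with h1 | h1
      · exact absurd h1 ((hsz n i).1 hi)
      · exact h1
    · by_contra h1
      exact hi ((hsz n i).2 h1)
  have hww : ∀ n, (fun i => if s i = true then (w n i)⁻¹ else w n i) = z' (r n) := by
    intro n
    funext i
    rw [hw]
    split_ifs with hi
    · rw [inv_inv]
    · rfl
  choose N g hg using fun f => inv_two (p := p) (ι := ι) s f
  have hfin : Finite {f // f ∈ fs} := (List.finite_toSet fs).to_subtype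
  obtain ⟨n, w', hE⟩ := two_affine (J := {f // f ∈ fs} ⊕ Fin 2)
    (Sum.elim (fun f => g f.1) (fun i => X (Sum.inr i))) (tk_sub hTk hr) w hwO
  have hE2 : ∀ i, Eqv (w n i) (w' i) := by
    intro i
    have h1 := hE (Sum.inr i)
    simpa using h1
  have hw0 : ∀ i, s i = true → w n i ≠ 0 := by
    intro i hi
    rw [hw, if_pos hi]
    exact inv_ne_zero (hwz n i hi)
  have hw0' : ∀ i, s i = true → w' i ≠ 0 := fun i hi h0 =>
    hw0 i hi ((eqv_zero (hE2 i)).2 h0)
  obtain ⟨f, hf, hne⟩ := hz' (r n) fun i => if s i = true then (w' i)⁻¹ else w' i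
  apply hne
  have h1 := hE (Sum.inl ⟨f, hf⟩)
  rw [Sum.elim_inl] at h1
  change Eqv (aeval (Sum.elim (c' (r n)) (w n)) (g f)) (aeval (Sum.elim c w') (g f)) at h1
  rw [hg f (c' (r n)) (w n) hw0, hg f c w' hw0', hww n] at h1
  refine eqv_cancel ?_ ?_ h1
  · rw [Finset.prod_ne_zero_iff]
    intro i _
    split_ifs with hi
    · exact pow_ne_zero _ (hw0 i hi)
    · exact one_ne_zero
  · rw [Fin.prod_univ_two, Fin.prod_univ_two]
    have h2 : ∀ i, Eqv (if s i = true then w n i ^ N f i else 1)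
        (if s i = true then w' i ^ N f i else 1) := by
      intro i
      split_ifs
      · exact eqv_pow (hE2 i) _
      · exact eqv_refl 1
    exact eqv_mul (h2 0) (h2 1)

end TF45
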