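import Pool.Agent.W_4ce76a_h45.QSpz

set_option autoImplicit false
set_option linter.unusedSectionVars false

/-!
# MP_4ce76a_lc, two quantifiers: families in normal form are not bad
-/

namespace TF45

open TF14 Polynomial

variable {p : ℕ} [hp : Fact p.Prime]

theorem QNice_all {J : Type} [Finite J] {P : J → ℕ → Prop}
    (h : ∀ j, ∃ n0 : ℕ, ∀ n ≥ n0, P j n) : ∃ n0 : ℕ, ∀ n ≥ n0, ∀ j, P j n := by
  choose m hm using h
  obtain ⟨M, hM⟩ := Finite.exists_le m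
  exact ⟨M, fun n hn j => hm j n ((hM j).trans hn)⟩

section Hom

variable {κ σ : Type}

theorem QNice_mul (D : κ → L p) (P Q : (MvPolynomial κ (K p))[X][X]) :
    spz D (P * Q) = spz D P * spz D Q := by
  unfold spz
  rw [Polynomial.map_mul]

theorem QNice_add (D : κ → L p) (P Q : (MvPolynomial κ (K p))[X][X]) :
    spz D (P + Q) = spz D P + spz D Q := by
  unfold spz
  rw [Polynomial.map_add]

theorem QNice_C (D : κ → L p) :
    spz D (C (C (MvPolynomial.C (-1))) : (MvPolynomial κ (K p))[X][X]) = -1 := by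
  unfold spz
  rw [map_C, coe_mapRingHom, map_C]
  simp

theorem QNice_pow (D : κ → L p) (P : (MvPolynomial κ (K p))[X][X]) (n : ℕ) :
    spz D (P ^ n) = spz D P ^ n := by
  unfold spz
  rw [Polynomial.map_pow]

theorem QNice_X (D : κ → L p) : spz D (C X : (MvPolynomial κ (K p))[X][X]) = C X := by
  unfold spz
  rw [map_C, coe_mapRingHom, map_X]

/-- the identity `V F - X ^ a G ^ b U` specializes -/
theorem QNice_id (D : κ → L p) (V F G U : (MvPolynomial κ (K p))[X][X]) (a b : ℕ) :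
    spz D (V * F + C (C (MvPolynomial.C (-1))) * (C X ^ a * G ^ b * U)) =
      spz D V * spz D F - C X ^ a * spz D G ^ b * spz D U := by
  rw [QNice_add, QNice_mul, QNice_mul, QNice_C, QNice_mul, QNice_mul, QNice_pow, QNice_pow,
    QNice_X]
  ring

theorem QNice_ev {R : Type} [CommRing R] {V F G U : R[X][X]} {a b : ℕ}
    (h : V * F = C X ^ a * G ^ b * U) (x y : R) :
    V.evalEval x y * F.evalEval x y = x ^ a * G.evalEval x y ^ b * U.evalEval x y := by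
  have h1 := congrArg (fun P : R[X][X] => P.evalEval x y) h
  simp only [evalEval_mul, evalEval_pow] at h1
  rw [h1]
  congr 3
  simp [evalEval]

/-- new variables on the left or on the right -/
theorem QNice_inl (D : κ → L p) (d : σ → L p) (Φ : (MvPolynomial κ (K p))[X][X]) :
    spz (Sum.elim D d) (Φ.map (mapRingHom ((MvPolynomial.rename Sum.inl :
      MvPolynomial κ (K p) →ₐ[K p] MvPolynomial (κ ⊕ σ) (K p)) :
      MvPolynomial κ (K p) →+* MvPolynomial (κ ⊕ σ) (K p)))) = spz D Φ := by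
  rw [spz_map, Sum.elim_comp_inl]

theorem QNice_inr (D : κ → L p) (d : σ → L p) (Φ : (MvPolynomial σ (K p))[X][X]) :
    spz (Sum.elim D d) (Φ.map (mapRingHom ((MvPolynomial.rename Sum.inr :
      MvPolynomial σ (K p) →ₐ[K p] MvPolynomial (κ ⊕ σ) (K p)) :
      MvPolynomial σ (K p) →+* MvPolynomial (κ ⊕ σ) (K p)))) = spz d Φ := by
  rw [spz_map, Sum.elim_comp_inr]

end Hom

/-- Proof.  Let `κ, D, Dn, Φ, x, y` be as in `Bd`, `G`, `a j, b j, U j, V j` from `Nice` (for `F j = 0` put `U j = V j = 1`).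
`cf_track` for the family `G, U j, V j` gives `σ, d, Ψ`; `tk_lift` gives `dn`; `D' = Sum.elim D d`, `D'n = Sum.elim (Dn n) (dn n)`; move
everything to `MvPolynomial (κ ⊕ σ) (K p)` by `spz_map` (for `Sum.inl`, `Sum.inr`).  For `F j ≠ 0` the polynomial
`V' j * Φ' j - C X ^ a * Γ' ^ b * U' j` specializes at `D'` to `0`, so at `D'n` for large `n` (`spz_zero`; `spz` is a ring homomorphism:
`Polynomial.map`); for `F j = 0` `Φ' j` specializes at `D'n` to `0` for large `n`.  Let `g n` be the value of `Γ'` (specialized at `D'n`) at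
`(x n, y n)`: it tends to `G (0, 0) = 0` (`spz_tnd`).  Let `e` be good for all `U j`, `V j` (`ev_eqv`, `exists_all`), `d` from `solve`.
For large `n` there is `y'` with `Cl e y' 0`, `G (x n, y') = g n`.  Then for `F j ≠ 0`
`V'n (x n, y n) * F'n j (x n, y n) = (x n) ^ a * (g n) ^ b * U'n (x n, y n)` and
`V (x n, y') * F j (x n, y') = (x n) ^ a * (g n) ^ b * U (x n, y')`, and the values of `U'n, U` and of `V'n, V` are `Eqv` to those at the
origin (`spz_tnd`, `tnd_eqv`, `ev_eqv`), not zero; so `F'n j (x n, y n)` and `F j (x n, y')` are `Eqv` (`eqv_cancel`).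
This contradicts `Bd` for this `n`, `x' = x n`, `y'`. -/
theorem nice_not_bd {J : Type} [Finite J] {F : J → (L p)[X][X]} (h : Nice F) : ¬ Bd F := by
  classical
  rintro ⟨κ, hκ, D, Dn, Φ, x, y, hTk, hΦ, hx, hy, hbad⟩
  obtain ⟨G, hG0, hG1, hF⟩ := h
  have hF' : ∀ j, ∃ (a b : ℕ) (U V : (L p)[X][X]), U.evalEval 0 0 ≠ 0 ∧ V.evalEval 0 0 ≠ 0 ∧
      (F j ≠ 0 → V * F j = C X ^ a * G ^ b * U) := by
    intro j
    rcases hF j with h0 | ⟨a, b, U, V, hU, hV, hE⟩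
    · refine ⟨0, 0, 1, 1, ?_, ?_, fun h => absurd h0 h⟩
      · simp [evalEval]
      · simp [evalEval]
    · exact ⟨a, b, U, V, hU, hV, fun _ => hE⟩
  choose a b U V hU hV hE using hF'
  obtain ⟨σ, hσ, d, Ψ, hΨ⟩ := cf_track (S := Unit ⊕ J ⊕ J)
    (Sum.elim (fun _ => G) (Sum.elim U V))
  obtain ⟨dn, hdn⟩ := tk_lift hTk d
  have hd : Tk d dn := tk_comp hdn Sum.inr
  have hΨG : spz d (Ψ (Sum.inl ())) = G := hΨ (Sum.inl ())
  have hΨU : ∀ j, spz d (Ψ (Sum.inr (Sum.inl j))) = U j := fun j => hΨ (Sum.inr (Sum.inl j))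
  have hΨV : ∀ j, spz d (Ψ (Sum.inr (Sum.inr j))) = V j := fun j => hΨ (Sum.inr (Sum.inr j))
  -- the identities persist
  have hid : ∀ j, ∃ n0 : ℕ, ∀ n ≥ n0, F j ≠ 0 →
      spz (dn n) (Ψ (Sum.inr (Sum.inr j))) * spz (Dn n) (Φ j) =
        C X ^ a j * spz (dn n) (Ψ (Sum.inl ())) ^ b j * spz (dn n) (Ψ (Sum.inr (Sum.inl j))) := by
    intro j
    by_cases hj : F j = 0
    · exact ⟨0, fun n _ h => absurd hj h⟩
    obtain ⟨n0, hn0⟩ := spz_zero hdn
      ((Ψ (Sum.inr (Sum.inr j))).map (mapRingHom ((MvPolynomial.rename Sum.inr :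
      MvPolynomial σ (K p) →ₐ[K p] MvPolynomial (κ ⊕ σ) (K p)) :
      MvPolynomial σ (K p) →+* MvPolynomial (κ ⊕ σ) (K p))) *
      (Φ j).map (mapRingHom ((MvPolynomial.rename Sum.inl :
      MvPolynomial κ (K p) →ₐ[K p] MvPolynomial (κ ⊕ σ) (K p)) :
      MvPolynomial κ (K p) →+* MvPolynomial (κ ⊕ σ) (K p))) +
      C (C (MvPolynomial.C (-1))) * (C X ^ a j * (Ψ (Sum.inl ())).map (mapRingHom ((MvPolynomial.rename Sum.inr :
      MvPolynomial σ (K p) →ₐ[K p] MvPolynomial (κ ⊕ σ) (K p)) :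
      MvPolynomial σ (K p) →+* MvPolynomial (κ ⊕ σ) (K p))) ^ b j *
      (Ψ (Sum.inr (Sum.inl j))).map (mapRingHom ((MvPolynomial.rename Sum.inr :
      MvPolynomial σ (K p) →ₐ[K p] MvPolynomial (κ ⊕ σ) (K p)) :
      MvPolynomial σ (K p) →+* MvPolynomial (κ ⊕ σ) (K p))))) (by
        rw [QNice_id, QNice_inl, QNice_inr, QNice_inr, QNice_inr, hΨG, hΨU, hΨV, hΦ, hE j hj,
          sub_self])
    refine ⟨n0, fun n hn _ => ?_⟩
    have h1 := hn0 n hn
    rw [QNice_id, QNice_inl, QNice_inr, QNice_inr, QNice_inr] at h1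
    exact sub_eq_zero.1 h1
  have hz : ∀ j, ∃ n0 : ℕ, ∀ n ≥ n0, F j = 0 → spz (Dn n) (Φ j) = 0 := by
    intro j
    by_cases hj : F j = 0
    · obtain ⟨n0, hn0⟩ := spz_zero hTk (Φ j) (by rw [hΦ, hj])
      exact ⟨n0, fun n hn _ => hn0 n hn⟩
    · exact ⟨0, fun n _ h => absurd h hj⟩
  obtain ⟨N1, hN1⟩ := QNice_all hid
  obtain ⟨N2, hN2⟩ := QNice_all hz
  -- the units
  have hUn : ∀ j, ∃ n0 : ℕ, ∀ n ≥ n0,
      Eqv ((spz (dn n) (Ψ (Sum.inr (Sum.inl j)))).evalEval (x n) (y n)) ((U j).evalEval 0 0) := by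
    intro j
    have h1 := spz_tnd hd hx hy (Ψ (Sum.inr (Sum.inl j)))
    rw [hΨU] at h1
    exact tnd_eqv h1 (hU j)
  have hVn : ∀ j, ∃ n0 : ℕ, ∀ n ≥ n0,
      Eqv ((spz (dn n) (Ψ (Sum.inr (Sum.inr j)))).evalEval (x n) (y n)) ((V j).evalEval 0 0) := by
    intro j
    have h1 := spz_tnd hd hx hy (Ψ (Sum.inr (Sum.inr j)))
    rw [hΨV] at h1
    exact tnd_eqv h1 (hV j)
  obtain ⟨N3, hN3⟩ := QNice_all hUn
  obtain ⟨N4, hN4⟩ := QNice_all hVn
  -- a good radius for all `U j`, `V j`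
  choose eU heU hevU using fun j => ev_eqv (hU j)
  choose eV heV hevV using fun j => ev_eqv (hV j)
  obtain ⟨e1, he1, hall1⟩ := exists_all (O := OL p) eU heU
  obtain ⟨e2, he2, hall2⟩ := exists_all (O := OL p) eV heV
  obtain ⟨e, he, hb1, hb2⟩ := exists_both (O := OL p) he1 he2
  obtain ⟨δ, hδ, hsolve⟩ := solve hG0 hG1 he
  obtain ⟨r, hr, hr1, hr2⟩ := exists_both (O := OL p) he hδ
  obtain ⟨N5, hN5⟩ := hx r hr
  have hg : Tnd (fun n => (spz (dn n) (Ψ (Sum.inl ()))).evalEval (x n) (y n)) 0 := by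
    have h1 := spz_tnd hd hx hy (Ψ (Sum.inl ()))
    rw [hΨG, hG0] at h1
    exact h1
  obtain ⟨N6, hN6⟩ := hg δ hδ
  obtain ⟨n, h1, h2, h3, h4, h5, h6⟩ : ∃ n, n ≥ N1 ∧ n ≥ N2 ∧ n ≥ N3 ∧ n ≥ N4 ∧ n ≥ N5 ∧ n ≥ N6 :=
    ⟨N1 + N2 + N3 + N4 + N5 + N6, by omega, by omega, by omega, by omega, by omega, by omega⟩
  have hxn := hN5 n h5
  obtain ⟨y', hy', hGy⟩ := hsolve (x n) _ (hr2 _ _ hxn) (hN6 n h6)
  refine hbad n ⟨x n, y', fun j => ?_⟩
  by_cases hj : F j = 0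
  · rw [hN2 n h2 j hj, hj, evalEval_zero, evalEval_zero]
    exact eqv_refl _
  have hxe := hr1 _ _ hxn
  have hvv : Eqv ((spz (dn n) (Ψ (Sum.inr (Sum.inr j)))).evalEval (x n) (y n))
      ((V j).evalEval (x n) y') :=
    eqv_trans (hN4 n h4 j) (eqv_symm (hevV j _ _ (hall2 j _ _ (hb2 _ _ hxe))
      (hall2 j _ _ (hb2 _ _ hy'))))
  have huu : Eqv ((spz (dn n) (Ψ (Sum.inr (Sum.inl j)))).evalEval (x n) (y n))
      ((U j).evalEval (x n) y') :=
    eqv_trans (hN3 n h3 j) (eqv_symm (hevU j _ _ (hall1 j _ _ (hb1 _ _ hxe))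
      (hall1 j _ _ (hb1 _ _ hy'))))
  refine eqv_cancel ?_ hvv ?_
  · intro h0
    exact hV j ((eqv_zero (hN4 n h4 j)).1 h0)
  · rw [QNice_ev (hN1 n h1 j hj), QNice_ev (hE j hj), hGy]
    exact eqv_mul (eqv_refl _) huu

end TF45
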