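import Pool.Agent.W_4ce76a_h45.QAlg

set_option autoImplicit false
set_option linter.unusedSectionVars false

/-!
# MP_4ce76a_lc, two quantifiers: the potential

`Pot F ν`: `F = X ^ a Y ^ b H`, and `H (0, Y)` is not zero and has at `0` order at most `ν`.  The potential does not increase under
`opA α` and strictly decreases under `opB`; if it is `0` then `F` is a monomial times a unit.
-/

namespace TF45

open Polynomial

variable {k : Type} [Field k]

/-- `H (0, Y)` -/
noncomputable def z0 (H : k[X][X]) : k[X] := H.map (evalRingHom (0 : k))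

/-- the potential is at most `ν` -/
def Pot (F : k[X][X]) (ν : ℕ) : Prop :=
  F = 0 ∨ ∃ (a b : ℕ) (H : k[X][X]), F = C X ^ a * X ^ b * H ∧ z0 H ≠ 0 ∧
    (z0 H).natTrailingDegree ≤ ν

/-- `z0` of a sum -/
theorem QPot_z0_sum {ι : Type} (s : Finset ι) (f : ι → k[X][X]) :
    z0 (∑ i ∈ s, f i) = ∑ i ∈ s, z0 (f i) := by
  unfold z0
  exact map_sum (mapRingHom (evalRingHom (0 : k))) f s

/-- `z0` of a product -/
theorem QPot_z0_mul (f g : k[X][X]) : z0 (f * g) = z0 f * z0 g := by
  unfold z0
  exact map_mul (mapRingHom (evalRingHom (0 : k))) f g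

/-- `z0` of a power -/
theorem QPot_z0_pow (f : k[X][X]) (n : ℕ) : z0 (f ^ n) = z0 f ^ n := by
  unfold z0
  exact map_pow (mapRingHom (evalRingHom (0 : k))) f n

/-- the coefficients of `z0` -/
theorem QPot_z0_coeff (H : k[X][X]) (j : ℕ) : (z0 H).coeff j = (H.coeff j).coeff 0 := by
  unfold z0
  rw [coeff_map, coeff_zero_eq_eval_zero]
  rfl

/-- a double sum with terms on one diagonal only -/
theorem QPot_sum_diag {A : Type} [AddCommMonoid A] (T : ℕ → ℕ → A) (N μ : ℕ)
    (h0 : ∀ i j, i + j ≠ μ → T i j = 0) (h1 : ∀ i j, N ≤ i ∨ N ≤ j → T i j = 0) :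
    ∑ j ∈ Finset.range N, ∑ i ∈ Finset.range N, T i j =
      ∑ j ∈ Finset.range (μ + 1), T (μ - j) j := by
  have h2 : ∀ j : ℕ, ∑ i ∈ Finset.range N, T i j = if j ≤ μ then T (μ - j) j else 0 := by
    intro j
    split_ifs with hj
    · refine Finset.sum_eq_single (μ - j) (fun i _ hi => h0 i j (by omega)) (fun hi => ?_)
      exact h1 _ _ (Or.inl (by simpa using hi))
    · exact Finset.sum_eq_zero (fun i _ => h0 i j (by omega))
  rw [Finset.sum_congr rfl (fun j _ => h2 j)]
  have h3 : ∑ j ∈ Finset.range (μ + 1), T (μ - j) j =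
      ∑ j ∈ Finset.range (μ + 1), (if j ≤ μ then T (μ - j) j else 0) := by
    refine Finset.sum_congr rfl (fun j hj => ?_)
    rw [Finset.mem_range] at hj
    rw [if_pos (by omega)]
  rw [h3]
  have h4 : ∀ M : ℕ, (N ≤ M) → ∑ j ∈ Finset.range N, (if j ≤ μ then T (μ - j) j else 0) =
      ∑ j ∈ Finset.range M, (if j ≤ μ then T (μ - j) j else 0) := by
    intro M hM
    refine Finset.sum_subset (Finset.range_mono hM) (fun j _ hj => ?_)
    rw [Finset.mem_range] at hj
    split_ifs
    · exact h1 _ _ (Or.inr (by omega))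
    · rfl
  have h5 : ∀ M : ℕ, (μ + 1 ≤ M) →
      ∑ j ∈ Finset.range (μ + 1), (if j ≤ μ then T (μ - j) j else 0) =
      ∑ j ∈ Finset.range M, (if j ≤ μ then T (μ - j) j else 0) := by
    intro M hM
    refine Finset.sum_subset (Finset.range_mono hM) (fun j _ hj => ?_)
    rw [Finset.mem_range] at hj
    rw [if_neg (by omega)]
  rw [h4 (N + μ + 1) (by omega), h5 (N + μ + 1) (by omega)]

/-- the first chart on a term -/
theorem QPot_opA_sum (α : k) {ι : Type} (s : Finset ι) (f : ι → k[X][X]) :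
    opA α (∑ i ∈ s, f i) = ∑ i ∈ s, opA α (f i) := by
  unfold opA
  exact map_sum (compRingHom (C X * (X + C (C α)) : k[X][X])) f s

/-- the first chart on a product -/
theorem QPot_opA_mul (α : k) (f g : k[X][X]) : opA α (f * g) = opA α f * opA α g := by
  unfold opA
  exact mul_comp _ _ _

/-- the first chart on a power -/
theorem QPot_opA_pow (α : k) (f : k[X][X]) (n : ℕ) : opA α (f ^ n) = opA α f ^ n := by
  unfold opA
  exact pow_comp _ _ _

theorem QPot_opA_C (α : k) (f : k[X]) : opA α (C f) = C f := by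
  unfold opA
  exact C_comp

theorem QPot_opA_X (α : k) : opA α (X : k[X][X]) = C X * (X + C (C α)) := by
  unfold opA
  exact X_comp

/-- the second chart on a sum -/
theorem QPot_opB_sum {ι : Type} (s : Finset ι) (f : ι → k[X][X]) :
    opB (∑ i ∈ s, f i) = ∑ i ∈ s, opB (f i) := by
  unfold opB
  exact map_sum (eval₂RingHom (eval₂RingHom ((C : k[X] →+* k[X][X]).comp C) (C X * X)) (C X)) f s

/-- the second chart on a product -/
theorem QPot_opB_mul (f g : k[X][X]) : opB (f * g) = opB f * opB g := by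
  unfold opB
  exact eval₂_mul _ _

/-- the second chart on a power -/
theorem QPot_opB_pow (f : k[X][X]) (n : ℕ) : opB (f ^ n) = opB f ^ n := by
  unfold opB
  exact eval₂_pow _ _ n

theorem QPot_opB_CC (a : k) : opB (C (C a) : k[X][X]) = C (C a) := by
  unfold opB
  simp

theorem QPot_opB_CX : opB (C X : k[X][X]) = C X * X := by
  unfold opB
  simp

theorem QPot_opB_X : opB (X : k[X][X]) = C X := by
  unfold opB
  simp

/-- `evalEval` at the origin -/
theorem QPot_ev (H : k[X][X]) : H.evalEval 0 0 = (z0 H).coeff 0 := by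
  rw [QPot_z0_coeff]
  unfold evalEval
  rw [C_0, ← coeff_zero_eq_eval_zero, ← coeff_zero_eq_eval_zero]

/-- a polynomial as a sum of its terms.  Proof: `Polynomial.as_sum_range_C_mul_X_pow'` (or `as_sum_range_C_mul_X_pow` and adding zero
terms) for `H` and for its coefficients; `N` larger than `H.natDegree` and all `(H.coeff j).natDegree`, `j ≤ H.natDegree`. -/
theorem biv_sum (H : k[X][X]) : ∃ N : ℕ, (H = ∑ j ∈ Finset.range N, ∑ i ∈ Finset.range N,
    C (C ((H.coeff j).coeff i)) * C X ^ i * X ^ j) ∧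
    ∀ i j, N ≤ i ∨ N ≤ j → (H.coeff j).coeff i = 0 := by
  have hN : ∃ N : ℕ, ∀ i j, N ≤ i ∨ N ≤ j → (H.coeff j).coeff i = 0 := by
    refine ⟨(H.natDegree + 1) + ∑ j ∈ Finset.range (H.natDegree + 1), ((H.coeff j).natDegree + 1),
      fun i j hij => ?_⟩
    by_cases hj : H.natDegree < j
    · rw [coeff_eq_zero_of_natDegree_lt hj, coeff_zero]
    · have h1 : (H.coeff j).natDegree + 1 ≤
          ∑ j ∈ Finset.range (H.natDegree + 1), ((H.coeff j).natDegree + 1) :=
        Finset.single_le_sum (f := fun j => (H.coeff j).natDegree + 1)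
          (fun _ _ => Nat.zero_le _) (Finset.mem_range.2 (by omega))
      exact coeff_eq_zero_of_natDegree_lt (by omega)
  obtain ⟨N, hN⟩ := hN
  refine ⟨N, ?_, hN⟩
  ext j i
  have h1 : ∀ (j' i' : ℕ), ((C (C ((H.coeff j').coeff i')) * C X ^ i' * X ^ j' :
      k[X][X]).coeff j).coeff i = if j' = j ∧ i' = i then (H.coeff j).coeff i else 0 := by
    intro j' i'
    have h2 : (C (C ((H.coeff j').coeff i')) * C X ^ i' * X ^ j' : k[X][X]) =
        C (C ((H.coeff j').coeff i') * X ^ i') * X ^ j' := by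
      rw [C_mul, C_pow]
    rw [h2, coeff_C_mul_X_pow]
    by_cases h3 : j = j'
    · subst h3
      rw [if_pos rfl, coeff_C_mul_X_pow]
      by_cases h4 : i = i'
      · subst h4
        simp
      · rw [if_neg h4, if_neg (fun h => h4 h.2.symm)]
    · rw [if_neg h3, if_neg (fun h => h3 h.1.symm), coeff_zero]
  rw [finsetSum_coeff, finsetSum_coeff]
  rw [Finset.sum_congr rfl (fun j' _ => by rw [finsetSum_coeff, finsetSum_coeff])]
  rw [Finset.sum_congr rfl (fun j' _ => Finset.sum_congr rfl (fun i' _ => h1 j' i'))]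
  by_cases hj : j < N
  · by_cases hi : i < N
    · rw [Finset.sum_eq_single j, Finset.sum_eq_single i]
      · simp
      · intro b _ hb
        rw [if_neg (fun h => hb h.2)]
      · intro h
        exact absurd (Finset.mem_range.2 hi) h
      · intro b _ hb
        exact Finset.sum_eq_zero (fun i' _ => by rw [if_neg (fun h => hb h.1)])
      · intro h
        exact absurd (Finset.mem_range.2 hj) h
    · rw [hN i j (Or.inl (by omega))]
      simp
  · rw [hN i j (Or.inr (by omega))]
    simp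

/-- Proof: for `F ≠ 0` take the largest `a` such that `C X ^ a ∣ F` (it is at most `(F.coeff j).natDegree` for a `j` with
`F.coeff j ≠ 0`: `Polynomial.C_dvd_iff_dvd_coeff`), `F = C X ^ a * H`.  Then `C X` does not divide `H`, so some `H.coeff i` is not
divisible by `X`, `(H.coeff i).coeff 0 ≠ 0` (`Polynomial.X_dvd_iff`), `z0 H ≠ 0`.  `b = 0`, `ν = (z0 H).natTrailingDegree`. -/
theorem pot_exists (F : k[X][X]) : ∃ ν : ℕ, Pot F ν := by
  by_cases hF : F = 0
  · exact ⟨0, Or.inl hF⟩
  have hu : ¬ IsUnit (C X : k[X][X]) := by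
    rw [isUnit_C]
    exact not_isUnit_X
  obtain ⟨n, a, ha, h⟩ := WfDvdMonoid.max_power_factor' hF hu
  refine ⟨(z0 a).natTrailingDegree, Or.inr ⟨n, 0, a, ?_, fun h0 => ha ?_, le_refl _⟩⟩
  · rw [h, pow_zero, mul_one]
  · rw [C_dvd_iff_dvd_coeff]
    intro i
    rw [X_dvd_iff, ← QPot_z0_coeff, h0, coeff_zero]

/-- The lowest homogeneous part of `H`: `μ` is the order of `H` at the origin, `c j` the coefficient of `X ^ (μ - j) Y ^ j`.  Proof:
`c i j = (H.coeff j).coeff i`; as `z0 H ≠ 0` has the coefficient `c 0 ν ≠ 0`, `ν = (z0 H).natTrailingDegree`, there is a smallest `μ` such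
that `c i j ≠ 0` for some `i, j` with `i + j = μ` (`Nat.find`), and `μ ≤ ν`.  By `biv_sum` and `map_sum`-like rules
`opA α H = ∑ c i j X ^ i (X (Y + α)) ^ j = ∑ c i j X ^ (i + j) (Y + α) ^ j = X ^ μ ∑ c i j X ^ (i + j - μ) (Y + α) ^ j`; setting `X = 0` in the last
sum leaves the terms with `i + j = μ`.  Similarly `opB H = ∑ c i j (X Y) ^ i X ^ j = X ^ μ ∑ c i j X ^ (i + j - μ) Y ^ i`. -/
theorem pot_exp (H : k[X][X]) (hH : z0 H ≠ 0) : ∃ (μ : ℕ) (c : ℕ → k),
    μ ≤ (z0 H).natTrailingDegree ∧ (∃ j, j ≤ μ ∧ c j ≠ 0) ∧ c μ = (z0 H).coeff μ ∧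
    (∀ α : k, ∃ H' : k[X][X], opA α H = C X ^ μ * H' ∧
      z0 H' = (∑ j ∈ Finset.range (μ + 1), C (c j) * X ^ j).comp (X + C α)) ∧
    ∃ H' : k[X][X], opB H = C X ^ μ * H' ∧
      z0 H' = ∑ j ∈ Finset.range (μ + 1), C (c j) * X ^ (μ - j) := by
  classical
  have hex : ∃ n : ℕ, ∃ i j : ℕ, i + j = n ∧ (H.coeff j).coeff i ≠ 0 := by
    refine ⟨(z0 H).natTrailingDegree, 0, (z0 H).natTrailingDegree, by omega, ?_⟩
    rw [← QPot_z0_coeff]
    exact coeff_natTrailingDegree_ne_zero.2 hH
  have hle : Nat.find hex ≤ (z0 H).natTrailingDegree := by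
    refine Nat.find_min' hex ⟨0, (z0 H).natTrailingDegree, by omega, ?_⟩
    rw [← QPot_z0_coeff]
    exact coeff_natTrailingDegree_ne_zero.2 hH
  obtain ⟨i0, j0, hij0, hc0⟩ := Nat.find_spec hex
  have hmin : ∀ i j : ℕ, i + j < Nat.find hex → (H.coeff j).coeff i = 0 := by
    intro i j hij
    by_contra hne
    exact Nat.find_min hex hij ⟨i, j, rfl, hne⟩
  generalize Nat.find hex = μ at hle hij0 hmin
  obtain ⟨N, hN, hN0⟩ := biv_sum H
  refine ⟨μ, fun j => (H.coeff j).coeff (μ - j), hle, ⟨j0, by omega, ?_⟩, ?_, fun α => ?_, ?_⟩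
  · have : μ - j0 = i0 := by omega
    show (H.coeff j0).coeff (μ - j0) ≠ 0
    rw [this]
    exact hc0
  · show (H.coeff μ).coeff (μ - μ) = _
    rw [Nat.sub_self, QPot_z0_coeff]
  · refine ⟨∑ j ∈ Finset.range N, ∑ i ∈ Finset.range N,
      C (C ((H.coeff j).coeff i)) * C X ^ (i + j - μ) * (X + C (C α)) ^ j, ?_, ?_⟩
    · conv_lhs => rw [hN]
      rw [QPot_opA_sum, Finset.mul_sum]
      refine Finset.sum_congr rfl (fun j _ => ?_)
      rw [QPot_opA_sum, Finset.mul_sum]
      refine Finset.sum_congr rfl (fun i _ => ?_)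
      rw [QPot_opA_mul, QPot_opA_mul, QPot_opA_pow, QPot_opA_pow, QPot_opA_C, QPot_opA_C,
        QPot_opA_X]
      by_cases hij : i + j < μ
      · rw [hmin i j hij]
        simp
      · have h1 : (C X : k[X][X]) ^ i * C X ^ j = C X ^ μ * C X ^ (i + j - μ) := by
          rw [← pow_add, ← pow_add]
          congr 1
          omega
        rw [mul_pow]
        calc C (C ((H.coeff j).coeff i)) * C X ^ i * (C X ^ j * (X + C (C α)) ^ j)
            = C (C ((H.coeff j).coeff i)) * ((C X : k[X][X]) ^ i * C X ^ j) *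
              (X + C (C α)) ^ j := by ring
          _ = _ := by rw [h1]; ring
    · rw [QPot_z0_sum]
      rw [Finset.sum_congr rfl (fun j _ => QPot_z0_sum _ _)]
      have h1 : ∀ j i : ℕ, z0 (C (C ((H.coeff j).coeff i)) * C X ^ (i + j - μ) *
          (X + C (C α)) ^ j : k[X][X]) =
          C ((H.coeff j).coeff i) * 0 ^ (i + j - μ) * (X + C α) ^ j := by
        intro j i
        rw [QPot_z0_mul, QPot_z0_mul, QPot_z0_pow, QPot_z0_pow]
        unfold z0
        simp
      rw [Finset.sum_congr rfl (fun j _ => Finset.sum_congr rfl (fun i _ => h1 j i))]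
      rw [QPot_sum_diag (fun i j => C ((H.coeff j).coeff i) * 0 ^ (i + j - μ) *
        (X + C α : k[X]) ^ j) N μ ?_ ?_]
      · have h2 : ∀ P : k[X], P.comp (X + C α) = compRingHom (X + C α) P := fun P => rfl
        rw [h2, map_sum]
        refine Finset.sum_congr rfl (fun j hj => ?_)
        rw [Finset.mem_range] at hj
        have h3 : μ - j + j - μ = 0 := by omega
        show C ((H.coeff j).coeff (μ - j)) * 0 ^ (μ - j + j - μ) * (X + C α : k[X]) ^ j = _
        rw [h3]
        simp
      · intro i j hij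
        show C ((H.coeff j).coeff i) * 0 ^ (i + j - μ) * (X + C α : k[X]) ^ j = 0
        by_cases h4 : i + j < μ
        · rw [hmin i j h4]
          simp
        · rw [zero_pow (by omega)]
          simp
      · intro i j hij
        show C ((H.coeff j).coeff i) * 0 ^ (i + j - μ) * (X + C α : k[X]) ^ j = 0
        rw [hN0 i j hij]
        simp
  · refine ⟨∑ j ∈ Finset.range N, ∑ i ∈ Finset.range N,
      C (C ((H.coeff j).coeff i)) * C X ^ (i + j - μ) * X ^ i, ?_, ?_⟩
    · conv_lhs => rw [hN]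
      rw [QPot_opB_sum, Finset.mul_sum]
      refine Finset.sum_congr rfl (fun j _ => ?_)
      rw [QPot_opB_sum, Finset.mul_sum]
      refine Finset.sum_congr rfl (fun i _ => ?_)
      rw [QPot_opB_mul, QPot_opB_mul, QPot_opB_pow, QPot_opB_pow, QPot_opB_CC, QPot_opB_CX,
        QPot_opB_X]
      by_cases hij : i + j < μ
      · rw [hmin i j hij]
        simp
      · have h1 : (C X : k[X][X]) ^ i * C X ^ j = C X ^ μ * C X ^ (i + j - μ) := by
          rw [← pow_add, ← pow_add]
          congr 1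
          omega
        rw [mul_pow]
        calc C (C ((H.coeff j).coeff i)) * (C X ^ i * X ^ i) * C X ^ j
            = C (C ((H.coeff j).coeff i)) * ((C X : k[X][X]) ^ i * C X ^ j) * X ^ i := by ring
          _ = _ := by rw [h1]; ring
    · rw [QPot_z0_sum]
      rw [Finset.sum_congr rfl (fun j _ => QPot_z0_sum _ _)]
      have h1 : ∀ j i : ℕ, z0 (C (C ((H.coeff j).coeff i)) * C X ^ (i + j - μ) *
          X ^ i : k[X][X]) =
          C ((H.coeff j).coeff i) * 0 ^ (i + j - μ) * X ^ i := by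
        intro j i
        rw [QPot_z0_mul, QPot_z0_mul, QPot_z0_pow, QPot_z0_pow]
        unfold z0
        simp
      rw [Finset.sum_congr rfl (fun j _ => Finset.sum_congr rfl (fun i _ => h1 j i))]
      rw [QPot_sum_diag (fun i j => C ((H.coeff j).coeff i) * 0 ^ (i + j - μ) *
        (X : k[X]) ^ i) N μ ?_ ?_]
      · refine Finset.sum_congr rfl (fun j hj => ?_)
        rw [Finset.mem_range] at hj
        have h3 : μ - j + j - μ = 0 := by omega
        show C ((H.coeff j).coeff (μ - j)) * 0 ^ (μ - j + j - μ) * (X : k[X]) ^ (μ - j) = _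
        rw [h3]
        simp
      · intro i j hij
        show C ((H.coeff j).coeff i) * 0 ^ (i + j - μ) * (X : k[X]) ^ i = 0
        by_cases h4 : i + j < μ
        · rw [hmin i j h4]
          simp
        · rw [zero_pow (by omega)]
          simp
      · intro i j hij
        show C ((H.coeff j).coeff i) * 0 ^ (i + j - μ) * (X : k[X]) ^ i = 0
        rw [hN0 i j hij]
        simp

/-- Proof: `F = 0`: trivial.  `F = X ^ a Y ^ b H`: `opA α` is a ring homomorphism (`comp`), so
`opA α F = X ^ (a + b + μ) (Y + α) ^ b H'` with `μ, c, H'` from `pot_exp`.  The polynomial `φ = ∑ C (c j) X ^ j` is not zero and has degree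
at most `μ`, so `z0 H' = φ.comp (X + C α)` is not zero (`Polynomial.taylor`) and `natTrailingDegree ≤ natDegree ≤ μ ≤ ν`.  If `α = 0` take
`(a + b + μ, b, H')`; if `α ≠ 0` take `(a + b + μ, 0, (Y + α) ^ b H')`: `z0` of it is `(X + C α) ^ b * z0 H'`, with the same trailing degree
as `z0 H'` (`natTrailingDegree_mul`; the first factor has the nonzero coefficient `α ^ b` in degree `0`). -/
theorem potA {F : k[X][X]} {ν : ℕ} (h : Pot F ν) (α : k) : Pot (opA α F) ν := by
  rcases h with h | ⟨a, b, H, hF, hz, hν⟩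
  · left
    rw [h]
    unfold opA
    exact zero_comp
  right
  obtain ⟨μ, c, hμ, ⟨j, hj, hcj⟩, -, hA, -⟩ := pot_exp H hz
  obtain ⟨H', hH', hz'⟩ := hA α
  have hφ : (∑ j ∈ Finset.range (μ + 1), C (c j) * X ^ j : k[X]) ≠ 0 := by
    intro h0
    have h1 := congrArg (fun P : k[X] => P.coeff j) h0
    simp only [finsetSum_coeff, coeff_C_mul_X_pow, coeff_zero] at h1
    rw [Finset.sum_ite_eq, if_pos (Finset.mem_range.2 (by omega))] at h1
    exact hcj h1
  have hdeg : (∑ j ∈ Finset.range (μ + 1), C (c j) * X ^ j : k[X]).natDegree ≤ μ := by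
    refine natDegree_sum_le_of_forall_le _ _ (fun i hi => ?_)
    rw [Finset.mem_range] at hi
    exact (natDegree_C_mul_X_pow_le _ _).trans (by omega)
  have hz1 : z0 H' ≠ 0 := by
    rw [hz']
    intro h0
    rw [comp_eq_zero_iff] at h0
    rcases h0 with h0 | h0
    · exact hφ h0
    · have h1 := congrArg natDegree h0.2
      rw [natDegree_X_add_C, natDegree_C] at h1
      exact one_ne_zero h1
  have hz2 : (z0 H').natTrailingDegree ≤ ν := by
    refine (natTrailingDegree_le_natDegree _).trans ?_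
    rw [hz', natDegree_comp, natDegree_X_add_C, mul_one]
    exact hdeg.trans (hμ.trans hν)
  have hop : opA α F = C X ^ (a + b + μ) * ((X + C (C α)) ^ b * H') := by
    rw [hF, QPot_opA_mul, QPot_opA_mul, QPot_opA_pow, QPot_opA_pow, QPot_opA_C, QPot_opA_X, hH',
      mul_pow, pow_add, pow_add]
    ring
  by_cases hα : α = 0
  · refine ⟨a + b + μ, b, H', ?_, hz1, hz2⟩
    rw [hop, hα]
    simp only [C_0, add_zero]
    ring
  · refine ⟨a + b + μ, 0, (X + C (C α)) ^ b * H', ?_, ?_, ?_⟩
    · rw [hop, pow_zero, mul_one]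
    · rw [QPot_z0_mul, QPot_z0_pow]
      refine mul_ne_zero (pow_ne_zero _ ?_) hz1
      unfold z0
      simp only [Polynomial.map_add, map_X, map_C, coe_evalRingHom, eval_C]
      exact X_add_C_ne_zero α
    · have h1 : z0 (X + C (C α) : k[X][X]) = X + C α := by
        unfold z0
        simp
      rw [QPot_z0_mul, QPot_z0_pow, h1]
      rw [natTrailingDegree_mul (pow_ne_zero _ (X_add_C_ne_zero α)) hz1]
      have h2 : ((X + C α : k[X]) ^ b).natTrailingDegree = 0 := by
        rw [natTrailingDegree_eq_zero]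
        right
        rw [coeff_zero_eq_eval_zero]
        simp only [eval_pow, eval_add, eval_X, eval_C, zero_add]
        exact pow_ne_zero _ hα
      rw [h2, zero_add]
      exact hz2

/-- Proof: similarly `opB F = (X Y) ^ a X ^ b X ^ μ H' = X ^ (a + b + μ) Y ^ a H'`, `z0 H' = ψ = ∑ C (c j) X ^ (μ - j)`, not zero.  Let
`ν' = (z0 H).natTrailingDegree ≤ ν + 1`.  If `μ < ν'`: `natTrailingDegree ψ ≤ natDegree ψ ≤ μ ≤ ν`.  If `μ = ν'` then `c μ ≠ 0`, so `ψ` has the
nonzero coefficient `c μ` in degree `0` and `natTrailingDegree ψ = 0`. -/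
theorem potB {F : k[X][X]} {ν : ℕ} (h : Pot F (ν + 1)) : Pot (opB F) ν := by
  rcases h with h | ⟨a, b, H, hF, hz, hν⟩
  · left
    rw [h]
    unfold opB
    exact eval₂_zero _ _
  right
  obtain ⟨μ, c, hμ, ⟨j, hj, hcj⟩, hcμ, -, hB⟩ := pot_exp H hz
  obtain ⟨H', hH', hz'⟩ := hB
  have hcoef : ∀ i : ℕ, i ≤ μ → (z0 H').coeff (μ - i) = c i := by
    intro i hi
    rw [hz', finsetSum_coeff, Finset.sum_eq_single i]
    · rw [coeff_C_mul_X_pow, if_pos rfl]
    · intro i' hi' hne
      rw [Finset.mem_range] at hi'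
      rw [coeff_C_mul_X_pow, if_neg (by omega)]
    · intro hi'
      exact absurd (Finset.mem_range.2 (by omega)) hi'
  have hz1 : z0 H' ≠ 0 := by
    intro h0
    have h1 := hcoef j hj
    rw [h0, coeff_zero] at h1
    exact hcj h1.symm
  refine ⟨a + b + μ, a, H', ?_, hz1, ?_⟩
  · rw [hF, QPot_opB_mul, QPot_opB_mul, QPot_opB_pow, QPot_opB_pow, QPot_opB_CX, QPot_opB_X, hH',
      mul_pow, pow_add, pow_add]
    ring
  · rcases lt_or_eq_of_le hμ with h1 | h1
    · have hdeg : (z0 H').natDegree ≤ μ := by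
        rw [hz']
        refine natDegree_sum_le_of_forall_le _ _ (fun i hi => ?_)
        exact (natDegree_C_mul_X_pow_le _ _).trans (by omega)
      exact ((natTrailingDegree_le_natDegree _).trans hdeg).trans (by omega)
    · have h2 : (z0 H').natTrailingDegree = 0 := by
        rw [natTrailingDegree_eq_zero]
        right
        have h3 := hcoef μ (le_refl _)
        rw [Nat.sub_self] at h3
        rw [h3, hcμ, h1]
        exact coeff_natTrailingDegree_ne_zero.2 hz
      omega

/-- Proof: take `G = X` (that is `Y`), `V = 1`; `z0 H` has the nonzero coefficient `(z0 H).coeff 0 = H.evalEval 0 0`. -/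
theorem pot_nice {J : Type} {F : J → k[X][X]} (h : ∀ j, Pot (F j) 0) : Nice F := by
  refine ⟨X, ?_, ?_, fun j => ?_⟩
  · simp [evalEval]
  · rw [derivative_X]
    simp [evalEval]
  · rcases h j with h | ⟨a, b, H, hF, hz, hν⟩
    · exact Or.inl h
    · refine Or.inr ⟨a, b, H, 1, ?_, ?_, ?_⟩
      · rw [QPot_ev]
        have h1 : (z0 H).natTrailingDegree = 0 := Nat.le_zero.1 hν
        rcases natTrailingDegree_eq_zero.1 h1 with h2 | h2
        · exact absurd h2 hz
        · exact h2
      · simp [evalEval]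
      · rw [one_mul, hF]

end TF45
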