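import Pool.Agent.W_4ce76a_h45.QEqv

set_option autoImplicit false
set_option linter.unusedSectionVars false

/-!
# MP_4ce76a_lc, two quantifiers: specialization of families
-/

namespace TF45

open TF14 Polynomial

variable {p : ℕ} [hp : Fact p.Prime] {κ κ' σ : Type}

theorem QSpz_coeff (D : κ → L p) (Φ : (MvPolynomial κ (K p))[X][X]) (j i : ℕ) :
    ((spz D Φ).coeff j).coeff i = MvPolynomial.aeval D ((Φ.coeff j).coeff i) := by
  unfold spz
  rw [coeff_map, coe_mapRingHom, coeff_map]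
  rfl

theorem QSpz_eval₂ {R : Type} [CommRing R] (F : R[X][X]) (x y : R) :
    F.evalEval x y = F.eval₂ (evalRingHom x) y := by
  have h1 := Polynomial.hom_eval₂ F (RingHom.id R[X]) (evalRingHom x) (C y)
  simp only [eval₂_id, coe_evalRingHom, eval_C, RingHom.comp_id] at h1
  exact h1

theorem QSpz_ev (D : κ → L p) (Φ : (MvPolynomial κ (K p))[X][X]) (x y : L p) :
    (spz D Φ).evalEval x y = Φ.eval₂ ((evalRingHom x).comp (mapRingHom
      ((MvPolynomial.aeval D : MvPolynomial κ (K p) →ₐ[K p] L p) :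
        MvPolynomial κ (K p) →+* L p))) y := by
  rw [QSpz_eval₂]
  unfold spz
  rw [eval₂_map]

theorem QSpz_zero {R : Type} [CommRing R] (F : R[X][X]) :
    F.evalEval 0 0 = (F.coeff 0).coeff 0 := by
  unfold evalEval
  rw [C_0, ← coeff_zero_eq_eval_zero, ← coeff_zero_eq_eval_zero]

theorem QSpz_all {D : κ → L p} {Dn : ℕ → κ → L p} (h : Tk D Dn)
    (T : Finset (MvPolynomial κ (K p))) (hT : ∀ P ∈ T, MvPolynomial.aeval D P = 0) :
    ∃ n0 : ℕ, ∀ n ≥ n0, ∀ P ∈ T, MvPolynomial.aeval (Dn n) P = 0 := by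
  classical
  induction T using Finset.induction_on with
  | empty => exact ⟨0, fun n _ P hP => absurd hP (Finset.notMem_empty P)⟩
  | insert Q T _ ih =>
    obtain ⟨n1, h1⟩ := ih fun P hP => hT P (Finset.mem_insert_of_mem hP)
    obtain ⟨n2, h2⟩ := tk_rel h Q (hT Q (Finset.mem_insert_self _ _))
    refine ⟨max n1 n2, fun n hn P hP => ?_⟩
    rcases Finset.mem_insert.1 hP with rfl | hP
    · exact h2 n ((le_max_right _ _).trans hn)
    · exact h1 n ((le_max_left _ _).trans hn) P hP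

theorem QSpz_mv2 {R : Type} [CommRing R] (F : R[X][X]) : ∃ P : MvPolynomial (Fin 2) R,
    ∀ x y : R, MvPolynomial.aeval ![x, y] P = F.evalEval x y := by
  refine ⟨F.eval₂ (eval₂RingHom MvPolynomial.C (MvPolynomial.X 0)) (MvPolynomial.X 1), ?_⟩
  intro x y
  rw [QSpz_eval₂]
  have h1 := Polynomial.hom_eval₂ F (eval₂RingHom (MvPolynomial.C : R →+* MvPolynomial (Fin 2) R)
    (MvPolynomial.X 0)) ((MvPolynomial.aeval ![x, y] : MvPolynomial (Fin 2) R →ₐ[R] R) :
      MvPolynomial (Fin 2) R →+* R) (MvPolynomial.X 1)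
  have h2 : (((MvPolynomial.aeval ![x, y] : MvPolynomial (Fin 2) R →ₐ[R] R) :
      MvPolynomial (Fin 2) R →+* R)).comp (eval₂RingHom (MvPolynomial.C : R →+* MvPolynomial (Fin 2) R)
      (MvPolynomial.X 0)) = evalRingHom x := by
    refine Polynomial.ringHom_ext (fun a => ?_) ?_
    · simp
    · simp
  rw [h2] at h1
  refine h1.trans ?_
  congr 1
  simp

/-- Proof: all coefficients `(Φ.coeff j).coeff i` vanish at `D`; only finitely many of them are nonzero (`j ≤ Φ.natDegree`,
`i ≤ (Φ.coeff j).natDegree`); `tk_rel` for each of them and the maximum of the `n0`. -/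
theorem spz_zero {D : κ → L p} {Dn : ℕ → κ → L p} (h : Tk D Dn)
    (Φ : (MvPolynomial κ (K p))[X][X]) (h0 : spz D Φ = 0) :
    ∃ n0 : ℕ, ∀ n ≥ n0, spz (Dn n) Φ = 0 := by
  classical
  obtain ⟨n0, hn0⟩ := QSpz_all h (Φ.support.biUnion fun j =>
    (Φ.coeff j).support.image fun i => (Φ.coeff j).coeff i) (by
      intro P hP
      obtain ⟨j, _, hP⟩ := Finset.mem_biUnion.1 hP
      obtain ⟨i, _, rfl⟩ := Finset.mem_image.1 hP
      rw [← QSpz_coeff, h0, coeff_zero, coeff_zero])
  refine ⟨n0, fun n hn => Polynomial.ext fun j => Polynomial.ext fun i => ?_⟩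
  rw [QSpz_coeff, coeff_zero, coeff_zero]
  by_cases hc : (Φ.coeff j).coeff i = 0
  · rw [hc, map_zero]
  · refine hn0 n hn _ (Finset.mem_biUnion.2 ⟨j, ?_, Finset.mem_image.2 ⟨i, ?_, rfl⟩⟩)
    · rw [mem_support_iff]
      intro hj
      rw [hj, coeff_zero] at hc
      exact hc rfl
    · rw [mem_support_iff]
      exact hc

/-- Proof: `Polynomial.induction_on'` twice (sums, and `C (C q) X ^ i Y ^ j`): `P = rename Sum.inl q * X (Sum.inr 0) ^ i * X (Sum.inr 1) ^ j`; or
define `P` by `eval₂`. -/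
theorem spz_mv (Φ : (MvPolynomial κ (K p))[X][X]) : ∃ P : MvPolynomial (κ ⊕ Fin 2) (K p),
    ∀ (D : κ → L p) (x y : L p),
      MvPolynomial.aeval (Sum.elim D ![x, y]) P = (spz D Φ).evalEval x y := by
  refine ⟨Φ.eval₂ (eval₂RingHom ((MvPolynomial.rename Sum.inl : MvPolynomial κ (K p) →ₐ[K p]
    MvPolynomial (κ ⊕ Fin 2) (K p)) : MvPolynomial κ (K p) →+* MvPolynomial (κ ⊕ Fin 2) (K p))
    (MvPolynomial.X (Sum.inr 0))) (MvPolynomial.X (Sum.inr 1)), ?_⟩
  intro D x y
  rw [QSpz_ev]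
  have h1 := Polynomial.hom_eval₂ Φ (eval₂RingHom ((MvPolynomial.rename Sum.inl :
    MvPolynomial κ (K p) →ₐ[K p] MvPolynomial (κ ⊕ Fin 2) (K p)) :
      MvPolynomial κ (K p) →+* MvPolynomial (κ ⊕ Fin 2) (K p)) (MvPolynomial.X (Sum.inr 0)))
    ((MvPolynomial.aeval (Sum.elim D ![x, y]) : MvPolynomial (κ ⊕ Fin 2) (K p) →ₐ[K p] L p) :
      MvPolynomial (κ ⊕ Fin 2) (K p) →+* L p) (MvPolynomial.X (Sum.inr 1))
  have h2 : ((MvPolynomial.aeval (Sum.elim D ![x, y]) :
      MvPolynomial (κ ⊕ Fin 2) (K p) →ₐ[K p] L p) :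
      MvPolynomial (κ ⊕ Fin 2) (K p) →+* L p).comp (eval₂RingHom ((MvPolynomial.rename Sum.inl :
      MvPolynomial κ (K p) →ₐ[K p] MvPolynomial (κ ⊕ Fin 2) (K p)) :
      MvPolynomial κ (K p) →+* MvPolynomial (κ ⊕ Fin 2) (K p)) (MvPolynomial.X (Sum.inr 0))) =
      (evalRingHom x).comp (mapRingHom
      ((MvPolynomial.aeval D : MvPolynomial κ (K p) →ₐ[K p] L p) :
        MvPolynomial κ (K p) →+* L p)) := by
    refine Polynomial.ringHom_ext (fun a => ?_) ?_
    · simp only [RingHom.comp_apply, coe_eval₂RingHom, eval₂_C, RingHom.coe_coe,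
        MvPolynomial.aeval_rename, coe_mapRingHom, map_C, coe_evalRingHom, eval_C,
        Sum.elim_comp_inl]
    · simp
  rw [h2] at h1
  refine h1.trans ?_
  congr 1
  simp

/-- The converse: `Φ = MvPolynomial.aeval (Sum.elim (fun i => C (C (MvPolynomial.X i))) ![C X, X]) P` (algebra over `K p`), or induction on
`P`. -/
theorem mv_spz (P : MvPolynomial (κ ⊕ Fin 2) (K p)) : ∃ Φ : (MvPolynomial κ (K p))[X][X],
    ∀ (D : κ → L p) (x y : L p),
      (spz D Φ).evalEval x y = MvPolynomial.aeval (Sum.elim D ![x, y]) P := by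
  refine ⟨MvPolynomial.aeval (Sum.elim (fun i => C (C (MvPolynomial.X i))) ![C X, X]) P, ?_⟩
  intro D x y
  have key : ∀ F : (MvPolynomial κ (K p))[X][X], (spz D F).evalEval x y =
      eval₂RingHom ((evalRingHom x).comp (mapRingHom
      ((MvPolynomial.aeval D : MvPolynomial κ (K p) →ₐ[K p] L p) :
        MvPolynomial κ (K p) →+* L p))) y F := fun F => QSpz_ev D F x y
  rw [key]
  induction P using MvPolynomial.induction_on with
  | C a =>
    rw [MvPolynomial.aeval_C, MvPolynomial.aeval_C]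
    have h1 : algebraMap (K p) (MvPolynomial κ (K p))[X][X] a = C (C (MvPolynomial.C a)) := rfl
    rw [h1]
    simp
  | add P Q hP hQ => rw [map_add, map_add, map_add, hP, hQ]
  | mul_X P i hP =>
    rw [map_mul, map_mul, map_mul, hP, MvPolynomial.aeval_X, MvPolynomial.aeval_X]
    congr 1
    rcases i with i | i
    · simp
    · fin_cases i
      · simp
      · simp

/-- Proof: `spz_mv` and `cont_aeval`. -/
theorem spz_tnd [Finite κ] {D : κ → L p} {Dn : ℕ → κ → L p} (h : Tk D Dn) {x y : ℕ → L p}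
    {x0 y0 : L p} (hx : Tnd x x0) (hy : Tnd y y0) (Φ : (MvPolynomial κ (K p))[X][X]) :
    Tnd (fun n => (spz (Dn n) Φ).evalEval (x n) (y n)) ((spz D Φ).evalEval x0 y0) := by
  classical
  obtain ⟨P, hP⟩ := spz_mv Φ
  intro e he
  obtain ⟨d, hd, h1⟩ := cont_aeval (O := OL p) P (Sum.elim D ![x0, y0]) he
  choose m hm using fun i => tk_tnd h i d hd
  obtain ⟨M, hM⟩ := Finite.exists_le m
  obtain ⟨nx, hnx⟩ := hx d hd
  obtain ⟨ny, hny⟩ := hy d hd
  refine ⟨max M (max nx ny), fun n hn => ?_⟩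
  have h2 := h1 (Sum.elim (Dn n) ![x n, y n]) (by
    intro i
    rcases i with i | i
    · exact hm i n ((hM i).trans ((le_max_left _ _).trans hn))
    · fin_cases i
      · exact hnx n ((le_max_left _ _).trans ((le_max_right _ _).trans hn))
      · exact hny n ((le_max_right _ _).trans ((le_max_right _ _).trans hn)))
  rw [hP, hP] at h2
  exact h2

/-- Proof: `Polynomial.map_map`, `MvPolynomial.aeval_rename`. -/
theorem spz_map (g : κ → κ') (D' : κ' → L p) (Φ : (MvPolynomial κ (K p))[X][X]) :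
    spz D' (Φ.map (mapRingHom ((MvPolynomial.rename g : MvPolynomial κ (K p) →ₐ[K p]
      MvPolynomial κ' (K p)) : MvPolynomial κ (K p) →+* MvPolynomial κ' (K p)))) =
      spz (D' ∘ g) Φ := by
  unfold spz
  rw [Polynomial.map_map, mapRingHom_comp]
  congr 2
  refine MvPolynomial.ringHom_ext (fun a => ?_) (fun i => ?_)
  · simp
  · simp

/-- Finitely many polynomials over `L p`, with coefficients as new variables.  Proof: `N` larger than all degrees;
`σ = S × Fin N × Fin N`, `d (s, i, j) = ((H s).coeff j).coeff i`,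
`Ψ s = ∑ i, ∑ j, C (C (MvPolynomial.X (s, i, j))) * C X ^ i * X ^ j`. -/
theorem cf_track {S : Type} [Finite S] (H : S → (L p)[X][X]) :
    ∃ (σ : Type) (_ : Finite σ) (d : σ → L p) (Ψ : S → (MvPolynomial σ (K p))[X][X]),
      ∀ s, spz d (Ψ s) = H s := by
  classical
  have hN : ∀ s, ∃ N : ℕ, ∀ j i, N ≤ j ∨ N ≤ i → ((H s).coeff j).coeff i = 0 := by
    intro s
    refine ⟨max ((H s).natDegree + 1)
      ((H s).support.sup (fun j => ((H s).coeff j).natDegree) + 1), ?_⟩
    rintro j i (h | h)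
    · rw [coeff_eq_zero_of_natDegree_lt (p := H s) (n := j)
        (Nat.lt_of_succ_le ((le_max_left _ _).trans h)), coeff_zero]
    · by_cases hj : j ∈ (H s).support
      · apply coeff_eq_zero_of_natDegree_lt
        have h1 := Finset.le_sup (f := fun j => ((H s).coeff j).natDegree) hj
        have h2 := (le_max_right _ _).trans h
        omega
      · rw [notMem_support_iff.1 hj, coeff_zero]
  choose Ns hNs using hN
  obtain ⟨N, hN⟩ := Finite.exists_le Ns
  refine ⟨S × Fin N × Fin N, inferInstance, fun v => ((H v.1).coeff v.2.2).coeff v.2.1,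
    fun s => ∑ j : Fin N, monomial (j : ℕ) (∑ i : Fin N, monomial (i : ℕ)
      (MvPolynomial.X (s, i, j))), ?_⟩
  intro s
  refine Polynomial.ext fun j => Polynomial.ext fun i => ?_
  rw [QSpz_coeff, finsetSum_coeff]
  simp only [coeff_monomial]
  by_cases hj : j < N
  · have h1 : (∑ b : Fin N, if (b : ℕ) = j then ∑ i : Fin N, monomial (i : ℕ)
        (MvPolynomial.X (s, i, b) : MvPolynomial (S × Fin N × Fin N) (K p)) else 0) =
        ∑ i : Fin N, monomial (i : ℕ) (MvPolynomial.X (s, i, ⟨j, hj⟩)) := by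
      rw [Finset.sum_eq_single (⟨j, hj⟩ : Fin N)]
      · simp
      · intro b _ hb
        rw [if_neg]
        intro h
        exact hb (Fin.ext h)
      · intro h
        exact absurd (Finset.mem_univ _) h
    rw [h1, finsetSum_coeff]
    simp only [coeff_monomial]
    by_cases hi : i < N
    · rw [Finset.sum_eq_single (⟨i, hi⟩ : Fin N)]
      · simp
      · intro b _ hb
        rw [if_neg]
        intro h
        exact hb (Fin.ext h)
      · intro h
        exact absurd (Finset.mem_univ _) h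
    · rw [Finset.sum_eq_zero, map_zero]
      · rw [hNs s j i (Or.inr ((hN s).trans (not_lt.1 hi)))]
      · intro b _
        rw [if_neg]
        intro h
        exact hi (h ▸ b.2)
  · rw [Finset.sum_eq_zero, coeff_zero, map_zero]
    · rw [hNs s j i (Or.inl ((hN s).trans (not_lt.1 hj)))]
    · intro b _
      rw [if_neg]
      intro h
      exact hj (h ▸ b.2)

/-- The values at the origin.  Proof: for each `j`: if `(spz D (Φ j)).evalEval 0 0 ≠ 0` then `spz_tnd` (constant sequences `0`) and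
`tnd_eqv`; if it is `0` then `((Φ j).coeff 0).coeff 0` vanishes at `D`, so at `Dn n` for large `n` (`tk_rel`). -/
theorem spz_origin [Finite κ] {J : Type} [Finite J] {D : κ → L p} {Dn : ℕ → κ → L p}
    (h : Tk D Dn) (Φ : J → (MvPolynomial κ (K p))[X][X]) :
    ∃ n0 : ℕ, ∀ n ≥ n0, ∀ j, Eqv ((spz (Dn n) (Φ j)).evalEval 0 0)
      ((spz D (Φ j)).evalEval 0 0) := by
  classical
  have key : ∀ j, ∃ n0 : ℕ, ∀ n ≥ n0, Eqv ((spz (Dn n) (Φ j)).evalEval 0 0)
      ((spz D (Φ j)).evalEval 0 0) := by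
    intro j
    have h0 : Tnd (fun _ : ℕ => (0 : L p)) 0 := fun e _ => ⟨0, fun n _ => cl_refl e 0⟩
    by_cases hv : (spz D (Φ j)).evalEval 0 0 = 0
    · have h1 : MvPolynomial.aeval D (((Φ j).coeff 0).coeff 0) = 0 := by
        rw [← QSpz_coeff, ← QSpz_zero, hv]
      obtain ⟨n0, hn0⟩ := tk_rel h _ h1
      refine ⟨n0, fun n hn => ?_⟩
      have h2 : (spz (Dn n) (Φ j)).evalEval 0 0 = 0 := by
        rw [QSpz_zero, QSpz_coeff, hn0 n hn]
      rw [h2, hv]
      exact eqv_refl 0
    · exact tnd_eqv (spz_tnd h h0 h0 (Φ j)) hv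
  choose m hm using key
  obtain ⟨M, hM⟩ := Finite.exists_le m
  exact ⟨M, fun n hn j => hm j n ((hM j).trans hn)⟩

/-- Proof: `evalEval` is continuous (`cont_aeval` for `MvPolynomial (Fin 2) (L p)`, or `spz_tnd`-like), `Atom_unit`; or
`Atom_val (M := L p)`. -/
theorem ev_eqv {U : (L p)[X][X]} (h : U.evalEval 0 0 ≠ 0) : ∃ e : L p, e ≠ 0 ∧
    ∀ x y : L p, Cl (OL p) e x 0 → Cl (OL p) e y 0 → Eqv (U.evalEval x y) (U.evalEval 0 0) := by
  obtain ⟨P, hP⟩ := QSpz_mv2 U
  obtain ⟨d, hd, h1⟩ := Atom_val (ta_L p) P ![0, 0] (by rw [hP]; exact h)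
  refine ⟨d, hd, fun x y hx hy => ?_⟩
  obtain ⟨w, hw, hw1, hw2, h2⟩ := h1 ![x, y] (by
    intro i
    fin_cases i
    · exact hx
    · exact hy)
  rw [hP, hP] at h2
  exact ⟨w, hw, hw1, hw2, h2⟩

/-- Hensel's lemma.  Proof: `root_cont (ta_L p).hens (nontriv (ta_L p))` for the polynomial
`g = G.map (evalRingHom 0) - C 0` in one variable (`X = 0`), `θ = 0`, `n = G.natDegree`: `g.eval 0 = 0`,
`g.derivative.eval 0 ≠ 0`; the polynomial `G.map (evalRingHom x) - C a` has coefficients close to those of `g` if `x`, `a` are small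
(`Polynomial.eval` is continuous: `poly_cont` or `cont_aeval`). -/
theorem solve {G : (L p)[X][X]} (h0 : G.evalEval 0 0 = 0)
    (h1 : (derivative G).evalEval 0 0 ≠ 0) {e : L p} (he : e ≠ 0) :
    ∃ d : L p, d ≠ 0 ∧ ∀ x a : L p, Cl (OL p) d x 0 → Cl (OL p) d a 0 →
      ∃ y : L p, Cl (OL p) e y 0 ∧ G.evalEval x y = a := by
  classical
  have hev : ∀ (F : (L p)[X][X]) (x y : L p), F.evalEval x y = (F.map (evalRingHom x)).eval y := by
    intro F x y
    rw [QSpz_eval₂, eval_map]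
  have hg0 : (G.map (evalRingHom 0)).eval 0 = 0 := by rw [← hev]; exact h0
  have hg1 : (G.map (evalRingHom 0)).derivative.eval 0 ≠ 0 := by
    rw [derivative_map, ← hev]
    exact h1
  obtain ⟨d₁, hd₁, hroot⟩ := root_cont (ta_L p).hens (nontriv (ta_L p)) (G.map (evalRingHom 0))
    G.natDegree natDegree_map_le hg0 hg1 he
  choose di hdi hcont using fun i : Fin (G.natDegree + 1) =>
    poly_cont (O := OL p) (G.coeff i) 0 (G.coeff i).natDegree hd₁
  obtain ⟨d₂, hd₂, hall⟩ := exists_all (O := OL p) di hdi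
  obtain ⟨d, hd, hb1, hb2⟩ := exists_both (O := OL p) hd₁ hd₂
  refine ⟨d, hd, fun x a hx ha => ?_⟩
  obtain ⟨θ, hθ, -, hcl⟩ := hroot (G.map (evalRingHom x) - C a) (by
      refine (natDegree_sub_le _ _).trans (max_le natDegree_map_le ?_)
      rw [natDegree_C]
      exact Nat.zero_le _) (by
      intro i
      have h3 : Cl (OL p) d₁ ((G.map (evalRingHom x)).coeff i) ((G.map (evalRingHom 0)).coeff i) := by
        rw [coeff_map, coeff_map]
        by_cases hi : i < G.natDegree + 1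
        · exact hcont ⟨i, hi⟩ (G.coeff i) x le_rfl (fun _ => cl_refl _ _)
            (hall ⟨i, hi⟩ x 0 (hb2 x 0 hx))
        · rw [coeff_eq_zero_of_natDegree_lt (p := G) (n := i) (by omega), map_zero, map_zero]
          exact cl_refl _ _
      have h4 : Cl (OL p) d₁ (-(C a : (L p)[X]).coeff i) 0 := by
        rw [coeff_C]
        split_ifs with h5
        · obtain ⟨u, hu, h6⟩ := hb1 a 0 ha
          exact ⟨-u, (OL p).neg_mem u hu, by rw [mul_neg, ← h6]; ring⟩
        · rw [neg_zero]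
          exact cl_refl _ _
      rw [coeff_sub, sub_eq_add_neg]
      have h5 := Cont_add h3 h4
      rwa [add_zero] at h5)
  refine ⟨θ, hcl, ?_⟩
  rw [hev]
  rw [eval_sub, eval_C] at hθ
  exact sub_eq_zero.1 hθ

end TF45
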