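import Pool.Agent.W_4ce76a_h45.QPot
import Pool.Agent.W_4ce76a_h45.QArcB

set_option autoImplicit false
set_option linter.unusedSectionVars false

/-!
# MP_4ce76a_lc, two quantifiers: every sequence of blow ups reaches the normal form
-/

namespace TF45

open Polynomial

variable {k : Type} [Field k]

/-- `F (X, α 0 X + .. + α (m - 1) X ^ m + X ^ m Y)` -/
noncomputable def rho (α : ℕ → k) (m : ℕ) (F : k[X][X]) : k[X][X] :=
  F.comp (C (∑ i ∈ Finset.range m, C (α i) * X ^ (i + 1)) + C X ^ m * X)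

theorem rho_zero (α : ℕ → k) (F : k[X][X]) : rho α 0 F = F := by
  unfold rho
  simp

/-- Proof: `Polynomial.comp_assoc`. -/
theorem rho_succ (α : ℕ → k) (m : ℕ) (F : k[X][X]) :
    opA (α m) (rho α m F) = rho α (m + 1) F := by
  unfold opA rho
  rw [comp_assoc]
  congr 1
  rw [Finset.sum_range_succ]
  simp only [add_comp, C_comp, mul_comp, X_comp, pow_comp, map_add, map_mul, map_pow]
  ring

/-- Proof.  `h = PowerSeries.mk (fun n => if n = 0 then 0 else α (n - 1))`; the polynomial `∑ i < m, C (α i) * X ^ (i + 1)` has the same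
coefficients as `h` up to `m`.  Case 1: `arcE h F ≠ 0` for all `F ≠ 0`.  For `F j ≠ 0` take `o j` from `arc_one`, `m` larger than all
`o j`; normal form with `G = X` (that is `Y`), `b = 0`, `V = 1`.  Case 2: otherwise let `G ≠ 0`, `arcE h G = 0`, of minimal
`natDegree`.  `arc_sep`, `arc_two` give `o` and `Γ` (for every `m > o`); for `F j ≠ 0` `arc_div` gives `N, b, H` and `arc_one` for `H` gives
`o j`, `U`.  Take `m` larger than `o` and all `o j`.  Let `c = G.leadingCoeff = X ^ s * c'` with `c'.coeff 0 ≠ 0`.  `rho α m` is a ring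
homomorphism which fixes `C c`, so `C X ^ (s N) * (C c' ^ N * rho α m (F j)) = C X ^ A * (Γ ^ b * U)` with `A = (m + o) b + o j`.
If `s N ≤ A` cancel: normal form with `V = C c' ^ N`.  If `A < s N` cancel and apply `Polynomial.map (evalRingHom 0)` (`X = 0`):
`0 = (map Γ) ^ b * map U`, but `map U ≠ 0` (value at `0`) and `map Γ ≠ 0` (its derivative at `0` is `(derivative Γ).evalEval 0 0`). -/
theorem arc_nice {p : ℕ} [hp : Fact p.Prime] [CharP k p] (t : k)
    (hP : ∀ x : k, ∃! c : Fin p → k, x = ∑ i : Fin p, t ^ (i : ℕ) * c i ^ p)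
    {J : Type} [Finite J] (F : J → k[X][X]) (α : ℕ → k) :
    ∃ m : ℕ, Nice fun j => rho α m (F j) := by
  classical
  set h : PowerSeries k := PowerSeries.mk fun n => if n = 0 then 0 else α (n - 1) with hh
  set hk : ℕ → k[X] := fun m => ∑ i ∈ Finset.range m, C (α i) * X ^ (i + 1) with hhk
  have hcoeff : ∀ m, ∀ i ≤ m, (hk m).coeff i = PowerSeries.coeff i h := by
    intro m i hi
    rw [hh, PowerSeries.coeff_mk, hhk, finset_sum_coeff]
    simp only [coeff_C_mul_X_pow]
    by_cases h0 : i = 0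
    · rw [if_pos h0]
      exact Finset.sum_eq_zero fun a _ => by rw [if_neg (by omega)]
    · rw [if_neg h0, Finset.sum_eq_single (i - 1)]
      · rw [if_pos (by omega)]
      · intro b _ hb
        rw [if_neg (by omega)]
      · intro hb
        exact absurd (Finset.mem_range.2 (by omega)) hb
  have hrho : ∀ m G, rho α m G = G.comp (C (hk m) + C X ^ m * X) := fun m G => rfl
  have hmulr : ∀ m (A B : k[X][X]), rho α m (A * B) = rho α m A * rho α m B := by
    intro m A B
    rw [hrho, hrho, hrho, mul_comp]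
  have hpowr : ∀ m (A : k[X][X]) (n : ℕ), rho α m (A ^ n) = rho α m A ^ n := by
    intro m A n
    rw [hrho, hrho, pow_comp]
  have hCr : ∀ m (a : k[X]), rho α m (C a) = C a := by
    intro m a
    rw [hrho, C_comp]
  have hbd : ∀ o : J → ℕ, ∃ M : ℕ, ∀ j, o j < M := by
    intro o
    obtain ⟨M, hM⟩ := (Set.finite_range o).bddAbove
    exact ⟨M + 1, fun j => Nat.lt_succ_of_le (hM (Set.mem_range_self j))⟩
  by_cases hcase : ∀ G : k[X][X], G ≠ 0 → arcE h G ≠ 0
  · have h1 : ∀ j, ∃ o : ℕ, F j ≠ 0 → ∀ m : ℕ, o < m → ∃ U : k[X][X], U.evalEval 0 0 ≠ 0 ∧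
        rho α m (F j) = C X ^ o * U := by
      intro j
      by_cases hj : F j = 0
      · exact ⟨0, fun h => absurd hj h⟩
      · obtain ⟨o, ho⟩ := arc_one h (F j) (hcase _ hj)
        exact ⟨o, fun _ m hm => ho m hm (hk m) (hcoeff m)⟩
    choose o ho using h1
    obtain ⟨M, hM⟩ := hbd o
    refine ⟨M, X, by simp [evalEval], by simp [evalEval], fun j => ?_⟩
    by_cases hj : F j = 0
    · left
      beta_reduce
      rw [hj, hrho, zero_comp]
    · right
      obtain ⟨U, hU, hU'⟩ := ho j hj M (hM j)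
      exact ⟨o j, 0, U, 1, hU, by simp [evalEval], by beta_reduce; rw [hU', pow_zero]; ring⟩
  · push Not at hcase
    -- a polynomial of minimal degree
    have hex : ∃ n : ℕ, ∃ G : k[X][X], G ≠ 0 ∧ arcE h G = 0 ∧ G.natDegree = n := by
      obtain ⟨G, hG, hE⟩ := hcase
      exact ⟨_, G, hG, hE, rfl⟩
    obtain ⟨G, hG, hE, hdeg⟩ := Nat.find_spec hex
    have hmin : ∀ G' : k[X][X], G' ≠ 0 → arcE h G' = 0 → G.natDegree ≤ G'.natDegree := by
      intro G' hG' hE'
      rw [hdeg]
      exact Nat.find_min' hex ⟨G', hG', hE', rfl⟩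
    have hE' := arc_sep (p := p) t hP h G hG hE hmin
    obtain ⟨o, ho⟩ := arc_two h G hE hE'
    have h1 : ∀ j, ∃ (N b o' : ℕ) (H : k[X][X]), F j ≠ 0 → C G.leadingCoeff ^ N * F j = G ^ b * H ∧
        ∀ m : ℕ, o' < m → ∃ U : k[X][X], U.evalEval 0 0 ≠ 0 ∧ rho α m H = C X ^ o' * U := by
      intro j
      by_cases hj : F j = 0
      · exact ⟨0, 0, 0, 0, fun h => absurd hj h⟩
      · obtain ⟨N, b, H, h2, h3⟩ := arc_div h G hG hE hmin (F j) hj
        obtain ⟨o', ho'⟩ := arc_one h H h3
        exact ⟨N, b, o', H, fun _ => ⟨h2, fun m hm => ho' m hm (hk m) (hcoeff m)⟩⟩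
    choose N b o' H hN using h1
    obtain ⟨M, hM⟩ := hbd o'
    set m := M + (o + 1) with hm
    obtain ⟨Γ, hΓ0, hΓ1, hΓ⟩ := ho m (by omega) (hk m) (hcoeff m)
    -- the leading coefficient
    have hc0 : G.leadingCoeff ≠ 0 := leadingCoeff_ne_zero.2 hG
    obtain ⟨s, c', hc', hc'0⟩ : ∃ (s : ℕ) (c' : k[X]), G.leadingCoeff = X ^ s * c' ∧
        c'.eval 0 ≠ 0 := by
      obtain ⟨c', h2, h3⟩ := exists_eq_pow_rootMultiplicity_mul_and_not_dvd G.leadingCoeff hc0 0
      refine ⟨rootMultiplicity 0 G.leadingCoeff, c', ?_, fun h4 => h3 (dvd_iff_isRoot.2 h4)⟩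
      rw [C_0, sub_zero] at h2
      exact h2
    have hX0 : ∀ n : ℕ, (C X : k[X][X]) ^ n ≠ 0 := fun n =>
      pow_ne_zero n (C_ne_zero.2 X_ne_zero)
    refine ⟨m, Γ, hΓ0, hΓ1, fun j => ?_⟩
    by_cases hj : F j = 0
    · left
      beta_reduce
      rw [hj, hrho, zero_comp]
    right
    obtain ⟨h2, h3⟩ := hN j hj
    obtain ⟨U, hU, hU'⟩ := h3 m (by have := hM j; omega)
    have h4 : C X ^ (s * N j) * (C c' ^ N j * rho α m (F j)) =
        C X ^ ((m + o) * b j + o' j) * (Γ ^ b j * U) := by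
      have h5 := congrArg (rho α m) h2
      rw [hmulr, hmulr, hpowr, hpowr, hCr, hU', hrho m G, hΓ, hc', map_mul, map_pow,
        mul_pow, mul_pow, ← pow_mul, ← pow_mul] at h5
      rw [← mul_assoc, h5, pow_add]
      ring
    by_cases hA : s * N j ≤ (m + o) * b j + o' j
    · obtain ⟨a, ha⟩ := Nat.exists_eq_add_of_le hA
      refine ⟨a, b j, U, C c' ^ N j, hU, ?_, ?_⟩
      · rw [← map_pow]
        simp only [evalEval, eval_C, eval_pow]
        exact pow_ne_zero _ hc'0
      · beta_reduce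
        apply mul_left_cancel₀ (hX0 (s * N j))
        rw [h4, ha, pow_add]
        ring
    · exfalso
      obtain ⟨a, ha⟩ := Nat.exists_eq_add_of_lt (not_le.1 hA)
      have h5 : C X ^ (a + 1) * (C c' ^ N j * rho α m (F j)) = Γ ^ b j * U := by
        apply mul_left_cancel₀ (hX0 ((m + o) * b j + o' j))
        rw [← h4, ha, ← mul_assoc, ← pow_add]
        rfl
      have h6 := congrArg (Polynomial.map (evalRingHom (0 : k))) h5
      rw [Polynomial.map_mul, Polynomial.map_mul, Polynomial.map_pow, Polynomial.map_pow,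
        Polynomial.map_C, coe_evalRingHom, eval_X, map_zero, zero_pow (Nat.succ_ne_zero a),
        zero_mul, Polynomial.map_mul, Polynomial.map_pow] at h6
      have hU0 : U.map (evalRingHom (0 : k)) ≠ 0 := by
        intro h7
        apply hU
        rw [← map_evalRingHom_eval, h7, eval_zero]
      have hΓ2 : Γ.map (evalRingHom (0 : k)) ≠ 0 := by
        intro h7
        apply hΓ1
        rw [← map_evalRingHom_eval, ← derivative_map, h7, derivative_zero, eval_zero]
      exact mul_ne_zero (pow_ne_zero _ hΓ2) hU0 h6.symm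

/-- Proof.  Case 1: for every `i0` there is `i ≥ i0` with `∀ j, F (i + 1) j = opB (F i j)`.  By `pot_exists` and finiteness of `J` there is
`ν` with `Pot (F 0 j) ν` for all `j` (`Pot` is monotone in `ν`).  Claim: if `∀ j, Pot (F i j) ν` then there is `i'` with
`∀ j, Pot (F i' j) 0`; induction on `ν`: let `i1 ≥ i` be minimal with an `opB` step at `i1`; up to `i1` the steps are `opA` and keep `Pot`
(`potA`), and `potB` at `i1`.  `pot_nice`.  Case 2: from some `i0` on all steps are `opA (α i)` (`choose`); then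
`F (i0 + m) j = rho (fun i => α (i0 + i)) m (F i0 j)` by `rho_zero`, `rho_succ` and induction; `arc_nice`. -/
theorem term {p : ℕ} [hp : Fact p.Prime] [CharP k p] (t : k)
    (hP : ∀ x : k, ∃! c : Fin p → k, x = ∑ i : Fin p, t ^ (i : ℕ) * c i ^ p)
    {J : Type} [Finite J] (F : ℕ → J → k[X][X])
    (hF : ∀ i, (∃ α, ∀ j, F (i + 1) j = opA α (F i j)) ∨ ∀ j, F (i + 1) j = opB (F i j)) :
    ∃ i, Nice (F i) := by
  classical
  by_cases hcase : ∀ i0, ∃ i ≥ i0, ∀ j, F (i + 1) j = opB (F i j)
  · have hmono : ∀ (G : k[X][X]) (ν ν' : ℕ), ν ≤ ν' → Pot G ν → Pot G ν' := by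
      intro G ν ν' hν hp
      rcases hp with h | ⟨a, b, H, h1, h2, h3⟩
      · exact Or.inl h
      · exact Or.inr ⟨a, b, H, h1, h2, h3.trans hν⟩
    have claim : ∀ ν i, (∀ j, Pot (F i j) ν) → ∃ i', ∀ j, Pot (F i' j) 0 := by
      intro ν
      induction ν with
      | zero => exact fun i hi => ⟨i, hi⟩
      | succ ν ih =>
        intro i hi
        have h1 : ∀ d, ∀ j, Pot (F (i + d) j) (ν + 1) := by
          intro d
          induction d with
          | zero => exact hi
          | succ d ihd =>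
            intro j
            rcases hF (i + d) with ⟨α, hα⟩ | hB
            · rw [← add_assoc, hα j]
              exact potA (ihd j) α
            · rw [← add_assoc, hB j]
              exact hmono _ _ _ (Nat.le_succ ν) (potB (ihd j))
        obtain ⟨i1, hi1, hB⟩ := hcase i
        obtain ⟨d, rfl⟩ := Nat.exists_eq_add_of_le hi1
        exact ih (i + d + 1) fun j => by
          rw [hB j]
          exact potB (h1 d j)
    choose ν hν using fun j => pot_exists (F 0 j)
    obtain ⟨M, hM⟩ := (Set.finite_range ν).bddAbove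
    obtain ⟨i', hi'⟩ := claim M 0 fun j => hmono _ _ _ (hM (Set.mem_range_self j)) (hν j)
    exact ⟨i', pot_nice hi'⟩
  · push Not at hcase
    obtain ⟨i0, hi0⟩ := hcase
    have h1 : ∀ m, ∃ α : k, ∀ j, F (i0 + m + 1) j = opA α (F (i0 + m) j) := by
      intro m
      rcases hF (i0 + m) with h | h
      · exact h
      · obtain ⟨j, hj⟩ := hi0 (i0 + m) (Nat.le_add_right _ _)
        exact absurd (h j) hj
    choose α hα using h1
    have h2 : ∀ m j, F (i0 + m) j = rho α m (F i0 j) := by
      intro m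
      induction m with
      | zero => intro j; rw [rho_zero]; rfl
      | succ m ih =>
        intro j
        rw [← rho_succ, ← ih j]
        exact hα m j
    obtain ⟨m, hm⟩ := arc_nice (p := p) t hP (F i0) α
    refine ⟨i0 + m, ?_⟩
    have h3 : F (i0 + m) = fun j => rho α m (F i0 j) := funext (h2 m)
    rw [h3]
    exact hm

end TF45
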