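import Pool.Agent.W_4ce76a_h45.QNice
import Pool.Agent.W_4ce76a_h45.QTerm

set_option autoImplicit false
set_option linter.unusedSectionVars false

/-!
# MP_4ce76a_lc, two quantifiers: blowing up a bad family
-/

namespace TF45

open TF14 Polynomial

variable {p : ℕ} [hp : Fact p.Prime] {κ J : Type}

theorem QStep_spzA (D : κ → L p) (a : L p) (Φ : (MvPolynomial κ (K p))[X][X]) :
    spz (pr D a) (opA (MvPolynomial.X (Sum.inr ())) (Φ.map (mapRingHom
      ((MvPolynomial.rename Sum.inl : MvPolynomial κ (K p) →ₐ[K p]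
        MvPolynomial (κ ⊕ Unit) (K p)) : MvPolynomial κ (K p) →+*
        MvPolynomial (κ ⊕ Unit) (K p))))) = opA a (spz D Φ) := by
  have h1 := spz_map (Sum.inl : κ → κ ⊕ Unit) (pr D a) Φ
  have h2 : pr D a ∘ Sum.inl = D := by
    funext i
    rfl
  rw [h2] at h1
  rw [← h1]
  unfold spz
  rw [map_opA]
  congr 1
  simp [pr]

theorem QStep_spzB (D : κ → L p) (Φ : (MvPolynomial κ (K p))[X][X]) :
    spz D (opB Φ) = opB (spz D Φ) := by
  unfold spz
  rw [map_opB]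

/-- the first chart.  Proof: `seq_compact` (`k = 1`) for `e * (y n / x n)`: a subsequence `r` with limit `v`; `α = e⁻¹ * v`, so
`y / x → α` along `r`.  `tk_sub`, `tk_lift1` for `α` give `αn`.  Index type `κ ⊕ Unit`, `D' = pr D α`, `D'n = pr (Dn (r n)) (αn n)`,
`Φ' j = opA (MvPolynomial.X (Sum.inr ())) ((Φ j).map (rename Sum.inl))`; `spz D' (Φ' j) = opA α (F j)` by `map_opA`, `spz_map`.
`x' n = x (r n)`, `y' n = y (r n) / x (r n) - αn n → α - α = 0` (`tnd_diff`, `tk_tnd`).  By `ev_opA` the value of the family at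
`(x' n, y' n)` is the old value at `(x (r n), x (r n) * (y (r n) / x (r n))) = (x (r n), y (r n))`; if `(X, Y)` were a partner for
`opA α F` then `(X, X * (Y + α))` would be one for `F`. -/
theorem bd_chartA [Finite κ] {F : J → (L p)[X][X]} {D : κ → L p} {Dn : ℕ → κ → L p}
    {Φ : J → (MvPolynomial κ (K p))[X][X]} {x y : ℕ → L p} (h1 : Tk D Dn)
    (h2 : ∀ j, spz D (Φ j) = F j) (h3 : Tnd x 0)
    (h5 : ∀ n, ¬ ∃ x' y' : L p, ∀ j, Eqv ((spz (Dn n) (Φ j)).evalEval (x n) (y n))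
      ((F j).evalEval x' y')) {e : L p} (he : e ≠ 0)
    (hx : ∀ n, x n ≠ 0) (hy : ∀ n, e * (y n / x n) ∈ OL p) :
    ∃ α, Bd fun j => opA α (F j) := by
  obtain ⟨r, v, hr, -, hlim⟩ := seq_compact p (k := 1) (fun n _ => e * (y n / x n))
    (fun n _ => hy n)
  have hT : Tnd (fun n => y (r n) / x (r n)) (e⁻¹ * v 0) := by
    intro e' he'
    obtain ⟨m0, hm0⟩ := hlim (e * e') (mul_ne_zero he he')
    refine ⟨m0, fun n hn => ?_⟩
    obtain ⟨u, hu, hu'⟩ := hm0 n hn 0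
    refine ⟨u, hu, ?_⟩
    have h6 : y (r n) / x (r n) - e⁻¹ * v 0 = e⁻¹ * (e * (y (r n) / x (r n)) - v 0) := by
      rw [mul_sub, ← mul_assoc, inv_mul_cancel₀ he, one_mul]
    rw [h6, hu', ← mul_assoc, ← mul_assoc, inv_mul_cancel₀ he, one_mul]
  obtain ⟨αn, hαn⟩ := tk_lift1 (tk_sub h1 hr) (e⁻¹ * v 0)
  refine ⟨e⁻¹ * v 0, κ ⊕ Unit, inferInstance, pr D (e⁻¹ * v 0),
    fun n => pr (Dn (r n)) (αn n),
    fun j => opA (MvPolynomial.X (Sum.inr ())) ((Φ j).map (mapRingHom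
      ((MvPolynomial.rename Sum.inl : MvPolynomial κ (K p) →ₐ[K p]
        MvPolynomial (κ ⊕ Unit) (K p)) : MvPolynomial κ (K p) →+*
        MvPolynomial (κ ⊕ Unit) (K p)))),
    fun n => x (r n), fun n => y (r n) / x (r n) - αn n, hαn, fun j => ?_, tnd_sub h3 hr, ?_,
    fun n => ?_⟩
  · rw [QStep_spzA, h2]
  · have h7 := tnd_diff hT (tk_tnd hαn (Sum.inr ()))
    have h8 : e⁻¹ * v 0 - pr D (e⁻¹ * v 0) (Sum.inr ()) = 0 := sub_self _
    rw [h8] at h7
    exact h7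
  · rintro ⟨X', Y', h9⟩
    refine h5 (r n) ⟨X', X' * (Y' + e⁻¹ * v 0), fun j => ?_⟩
    have h10 := h9 j
    rw [QStep_spzA, ev_opA, ev_opA, sub_add_cancel, mul_div_cancel₀ _ (hx (r n))] at h10
    exact h10

/-- the second chart.  Proof: `Φ' j = opB (Φ j)` (`map_opB`), `x' n = y n`, `y' n = x n / y n`, `ev_opB`. -/
theorem bd_chartB [Finite κ] {F : J → (L p)[X][X]} {D : κ → L p} {Dn : ℕ → κ → L p}
    {Φ : J → (MvPolynomial κ (K p))[X][X]} {x y : ℕ → L p} (h1 : Tk D Dn)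
    (h2 : ∀ j, spz D (Φ j) = F j) (h4 : Tnd y 0)
    (h5 : ∀ n, ¬ ∃ x' y' : L p, ∀ j, Eqv ((spz (Dn n) (Φ j)).evalEval (x n) (y n))
      ((F j).evalEval x' y')) (hy : ∀ n, y n ≠ 0) (hxy : Tnd (fun n => x n / y n) 0) :
    Bd fun j => opB (F j) := by
  refine ⟨κ, inferInstance, D, Dn, fun j => opB (Φ j), y, fun n => x n / y n, h1, fun j => ?_,
    h4, hxy, fun n => ?_⟩
  · rw [QStep_spzB, h2]
  · rintro ⟨X', Y', h9⟩
    refine h5 n ⟨X' * Y', X', fun j => ?_⟩
    have h10 := h9 j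
    rw [QStep_spzB, ev_opB, ev_opB, mul_div_cancel₀ _ (hy n)] at h10
    exact h10

/-- Proof.  Case 1: there is `e ≠ 0` such that `x n ≠ 0` and `e * (y n / x n) ∈ OL p` for infinitely many `n`
(`∃ᶠ n in Filter.atTop`): restrict to such `n` (`Filter.extraction_of_frequently_atTop`, `tk_sub`, `tnd_sub`), `bd_chartA`.
Case 2: otherwise.  By `spz_origin` `(x n, y n) ≠ (0, 0)` for large `n` (else `x' = y' = 0` would be a partner).  So for large `n`
`y n ≠ 0` (if `y n = 0` then `x n ≠ 0` and `1 * (y n / x n) = 0 ∈ OL p`), and for every `e ≠ 0` `x n / y n ∈ e OL p` for large `n` (if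
`x n ≠ 0` then `e * (y n / x n) ∉ OL p`, so its inverse is in `OL p`), `Tnd (x / y) 0`; shift the sequences by some `n0` and apply
`bd_chartB`. -/
theorem bd_step [Finite J] {F : J → (L p)[X][X]} (h : Bd F) :
    (∃ α, Bd fun j => opA α (F j)) ∨ Bd fun j => opB (F j) := by
  obtain ⟨κ, hκ, D, Dn, Φ, x, y, h1, h2, h3, h4, h5⟩ := h
  by_cases hc : ∃ e : L p, e ≠ 0 ∧ ∃ᶠ n in Filter.atTop, x n ≠ 0 ∧ e * (y n / x n) ∈ OL p
  · left
    obtain ⟨e, he, hf⟩ := hc
    obtain ⟨r, hr, hr'⟩ := Filter.extraction_of_frequently_atTop hf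
    exact bd_chartA (x := fun n => x (r n)) (y := fun n => y (r n)) (tk_sub h1 hr) h2
      (tnd_sub h3 hr) (fun n => h5 (r n)) he (fun n => (hr' n).1) (fun n => (hr' n).2)
  · right
    have hc' : ∀ e : L p, e ≠ 0 → ∃ n1 : ℕ, ∀ n ≥ n1, ¬ (x n ≠ 0 ∧ e * (y n / x n) ∈ OL p) := by
      intro e he
      have h6 : ¬ ∃ᶠ n in Filter.atTop, x n ≠ 0 ∧ e * (y n / x n) ∈ OL p :=
        fun h7 => hc ⟨e, he, h7⟩
      rw [Filter.not_frequently, Filter.eventually_atTop] at h6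
      exact h6
    obtain ⟨n0, hn0⟩ := spz_origin h1 Φ
    obtain ⟨n1, hn1⟩ := hc' 1 one_ne_zero
    have hy : ∀ n ≥ max n0 n1, y n ≠ 0 := by
      intro n hn hyn
      have hx : x n ≠ 0 := by
        intro hxn
        refine h5 n ⟨0, 0, fun j => ?_⟩
        have h8 := hn0 n (le_trans (le_max_left _ _) hn) j
        rw [h2] at h8
        rw [hxn, hyn]
        exact h8
      refine hn1 n (le_trans (le_max_right _ _) hn) ⟨hx, ?_⟩
      rw [hyn, zero_div, mul_zero]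
      exact (OL p).zero_mem
    have hT : Tnd (fun n => x n / y n) 0 := by
      intro e he
      obtain ⟨n2, hn2⟩ := hc' e he
      refine ⟨n2, fun n hn => ⟨e⁻¹ * (x n / y n), ?_, ?_⟩⟩
      · by_cases hx : x n = 0
        · rw [hx, zero_div, mul_zero]
          exact (OL p).zero_mem
        · have h9 : e * (y n / x n) ∉ OL p := fun h10 => hn2 n hn ⟨hx, h10⟩
          rcases (OL p).mem_or_inv_mem (e * (y n / x n)) with h11 | h11
          · exact absurd h11 h9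
          · rw [mul_inv, inv_div] at h11
            exact h11
      · rw [sub_zero, ← mul_assoc, mul_inv_cancel₀ he, one_mul]
    have hs : StrictMono fun n : ℕ => n + max n0 n1 := fun a b hab =>
      Nat.add_lt_add_right hab _
    exact bd_chartB (x := fun n => x (n + max n0 n1)) (y := fun n => y (n + max n0 n1))
      (tk_sub h1 hs) h2 (tnd_sub h4 hs) (fun n => h5 (n + max n0 n1))
      (fun n => hy _ (Nat.le_add_left _ _)) (tnd_sub hT hs)

/-- Proof: otherwise iterate `bd_step` (a sequence in the subtype `{F // Bd F}` by `Nat.rec` and choice), `term` for `tL p`,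
`(ta_L p).rep`, contradiction to `nice_not_bd`. -/
theorem not_bd [Finite J] (F : J → (L p)[X][X]) : ¬ Bd F := by
  intro hF
  have hstep : ∀ G : {F : J → (L p)[X][X] // Bd F}, ∃ G' : {F : J → (L p)[X][X] // Bd F},
      (∃ α, ∀ j, G'.1 j = opA α (G.1 j)) ∨ ∀ j, G'.1 j = opB (G.1 j) := by
    intro G
    rcases bd_step G.2 with ⟨α, h⟩ | h
    · exact ⟨⟨_, h⟩, Or.inl ⟨α, fun j => rfl⟩⟩
    · exact ⟨⟨_, h⟩, Or.inr fun j => rfl⟩
  choose st hst using hstep
  obtain ⟨S, hS0, hS⟩ : ∃ S : ℕ → {F : J → (L p)[X][X] // Bd F}, S 0 = ⟨F, hF⟩ ∧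
      ∀ i, S (i + 1) = st (S i) :=
    ⟨fun i => Nat.rec ⟨F, hF⟩ (fun _ G => st G) i, rfl, fun i => rfl⟩
  have : CharP (L p) p := (ta_L p).char
  obtain ⟨i, hi⟩ := term (tL p) (ta_L p).rep (fun i => (S i).1) (fun i => by
    change (∃ α, ∀ j, (S (i + 1)).1 j = opA α ((S i).1 j)) ∨
      ∀ j, (S (i + 1)).1 j = opB ((S i).1 j)
    rw [hS i]
    exact hst (S i))
  exact nice_not_bd hi (S i).2

end TF45
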