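import Pool.Agent.W_4ce76a_h45.SynC
import Pool.Agent.W_4ce76a_h14.Rel

set_option autoImplicit false
set_option linter.unusedSectionVars false

/-!
# MP_4ce76a_lc, two-variable logic: transfer
-/

namespace TF45

open TF14 MvPolynomial

variable {p : ℕ} [hp : Fact p.Prime] {n : ℕ}

/-- truth in `K p` -/
def HK (φ : Form (K p) n) (s : Fin n → K p) : Prop := φ.Holds (RingHom.id (K p)) (OK p) s

/-- the same truth value in `K p` and `L p` -/
def TR (φ : Form (K p) n) : Prop :=
  ∀ s : Fin n → K p, HK φ s ↔ HL p φ fun i => algebraMap (K p) (L p) (s i)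

theorem tr_eval (f : MvPolynomial (Fin n) (K p)) (s : Fin n → K p) :
    f.eval₂ (algebraMap (K p) (L p)) (fun i => algebraMap (K p) (L p) (s i)) =
      algebraMap (K p) (L p) (f.eval₂ (RingHom.id (K p)) s) := by
  have h1 := MvPolynomial.eval₂_comp_left (algebraMap (K p) (L p)) (RingHom.id (K p)) s f
  rw [RingHom.comp_id] at h1
  exact h1.symm

theorem tr_eq (f : MvPolynomial (Fin n) (K p)) : TR (.eq f : Form (K p) n) := by
  intro s
  show f.eval₂ (RingHom.id (K p)) s = 0 ↔ f.eval₂ (algebraMap (K p) (L p)) _ = 0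
  rw [tr_eval, map_eq_zero_iff _ (algebraMap (K p) (L p)).injective]

theorem tr_dvd (f g : MvPolynomial (Fin n) (K p)) : TR (.dvd f g : Form (K p) n) := by
  intro s
  show (∃ x ∈ OK p, g.eval₂ (RingHom.id (K p)) s = x * f.eval₂ (RingHom.id (K p)) s) ↔
    ∃ x ∈ OL p, g.eval₂ (algebraMap (K p) (L p)) _ = x * f.eval₂ (algebraMap (K p) (L p)) _
  rw [tr_eval, tr_eval]
  generalize f.eval₂ (RingHom.id (K p)) s = a
  generalize g.eval₂ (RingHom.id (K p)) s = b
  have hO : ∀ x : K p, algebraMap (K p) (L p) x ∈ OL p ↔ x ∈ OK p := (emb_KL p).2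
  constructor
  · rintro ⟨x, hx, h⟩
    exact ⟨algebraMap (K p) (L p) x, (hO x).2 hx, by rw [h, map_mul]⟩
  · rintro ⟨x, hx, h⟩
    by_cases ha : a = 0
    · refine ⟨0, (OK p).zero_mem, ?_⟩
      rw [ha, map_zero, mul_zero] at h
      rw [zero_mul]
      exact (map_eq_zero_iff _ (algebraMap (K p) (L p)).injective).1 h
    · have ha' : algebraMap (K p) (L p) a ≠ 0 := by
        rw [Ne, map_eq_zero_iff _ (algebraMap (K p) (L p)).injective]
        exact ha
      refine ⟨b / a, ?_, by rw [div_mul_cancel₀ _ ha]⟩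
      rw [← hO, map_div₀, h, mul_div_cancel_right₀ _ ha']
      exact hx

theorem tr_not {φ : Form (K p) n} (h : TR φ) : TR (.not φ) := fun s => not_congr (h s)

theorem tr_and {φ ψ : Form (K p) n} (h : TR φ) (h' : TR ψ) : TR (.and φ ψ) :=
  fun s => and_congr (h s) (h' s)

/-- a block of quantifiers in front of a locally constant formula -/
theorem tr_exs (vs : List (Fin n)) {φ : Form (K p) n} (h : TR φ) (hl : LCp p (HL p φ)) :
    TR (Form.exs vs φ) := by
  intro s
  have e1 : HK (Form.exs vs φ) s ↔ _ := Form.exs_holds vs φ s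
  have e2 : HL p (Form.exs vs φ) _ ↔ _ :=
    Form.exs_holds vs φ fun i => algebraMap (K p) (L p) (s i)
  rw [e1, e2]
  constructor
  · rintro ⟨c, hc, h1⟩
    exact ⟨fun i => algebraMap (K p) (L p) (c i), fun i hi => congrArg _ (hc i hi),
      (h c).1 h1⟩
  · rintro ⟨c, hc, h1⟩
    obtain ⟨m, e, he, h2⟩ := hl c
    obtain ⟨a, ha⟩ := kpoint hp.out (ta_K p) (ta_L p) (emb_KL p) (closed_K p) (dense_K p) c m he
    refine ⟨a, fun i hi => ?_, (h a).2 ((h2 _ ha).2 h1)⟩
    exact (algebraMap (K p) (L p)).injective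
      (near_const hp.out (ta_L p) (emb_KL p) ha (i := i) (a := s i) (hc i hi))

theorem tr_clo {φ : Form (K p) n} (h : φ.Clo) : TR φ := by
  induction h with
  | eq f => exact tr_eq f
  | dvd f g => exact tr_dvd f g
  | and h1 h2 ih1 ih2 => exact tr_and ih1 ih2
  | or h1 h2 ih1 ih2 => exact tr_not (tr_and (tr_not ih1) (tr_not ih2))
  | ex v h1 ih =>
    exact tr_exs [v] (tr_and (tr_dvd 1 (X v)) ih)
      (lcp_and (lc_dvd hp.out (ta_L p) (emb_KL p) 1 (X v)) (lc_clo h1))

theorem tr_nst {φ : Form (K p) n} (h : φ.Nst) : TR φ := by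
  induction h with
  | eq f => exact tr_eq f
  | dvd f g => exact tr_dvd f g
  | not h ih => exact tr_not ih
  | and h1 h2 ih1 ih2 => exact tr_and ih1 ih2
  | ex v h hs ih => exact tr_exs [v] ih (nst_main h).1
  | clo h => exact tr_clo h
  | closed vs h hf ih => exact tr_exs vs ih (nst_main h).1
  | unary vs v0 h hcst hf ih => exact tr_exs vs ih (nst_main h).1

/-- the theorem, for `K p` -/
theorem tr_main {φ : Form (K p) n} (h : φ.Nst) (vs : List (Fin n)) : TR (Form.exs vs φ) :=
  tr_exs vs (tr_nst h) (nst_main h).1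

theorem elem_nst (p : ℕ) [hp : Fact p.Prime] {n : ℕ} {φ : Form (Kt p) n} (h : φ.Nst)
    (vs : List (Fin n)) (s : Fin n → Kt p) :
    (Form.exs vs φ).Holds (RingHom.id (Kt p)) (OKt p) s ↔
      (Form.exs vs φ).Holds (inc p) (OL p) fun i => inc p (s i) :=
  tr_main (p := p) (n := n) (φ := φ) h vs s

end TF45
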