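import Pool.Agent.W_4ce76a_h45.QInit
import Pool.Agent.W_4ce76a_h45.SynD

set_option autoImplicit false
set_option linter.unusedSectionVars false

/-!
# MP_4ce76a_lc, two quantifiers: the larger class of formulas
-/

namespace TF45

open TF14 MvPolynomial

namespace Form

variable {K : Type} [Field K] {n : ℕ}

/-- The formula is a boolean combination of atomic formulas and of formulas `∃ x_w, χ` in which neither `x_z` nor `x_u` is free. -/
def Sep2 (z u : Fin n) : Form K n → Prop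
  | .eq _ => True
  | .dvd _ _ => True
  | .not φ => φ.Sep2 z u
  | .and φ ψ => φ.Sep2 z u ∧ ψ.Sep2 z u
  | .ex w φ => ¬ (Form.ex w φ).Free z ∧ ¬ (Form.ex w φ).Free u

/-- The larger class of formulas. -/
inductive Nsq : Form K n → Prop
  | eq (f : MvPolynomial (Fin n) K) : Nsq (.eq f)
  | dvd (f g : MvPolynomial (Fin n) K) : Nsq (.dvd f g)
  | not {φ : Form K n} : Nsq φ → Nsq (.not φ)
  | and {φ ψ : Form K n} : Nsq φ → Nsq ψ → Nsq (.and φ ψ)
  | ex (v : Fin n) {φ : Form K n} : Nsq φ → φ.Sep v → Nsq (.ex v φ)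
  | ex2 (z u : Fin n) {φ : Form K n} : Nsq φ → φ.Sep2 z u → Nsq (.ex z (.ex u φ))
  | clo {φ : Form K n} : Clo φ → Nsq φ
  | closed (vs : List (Fin n)) {φ : Form K n} : Nsq φ → (∀ u, ¬ (exs vs φ).Free u) →
      Nsq (exs vs φ)
  | unary (vs : List (Fin n)) (v : Fin n) {φ : Form K n} : Nsq φ → φ.Cst →
      (∀ u, (exs vs φ).Free u → u = v) → Nsq (exs vs φ)

theorem sep2_sep {z u : Fin n} {φ : Form K n} (h : φ.Sep2 z u) : φ.Sep u := by
  induction φ with
  | eq f => trivial
  | dvd f g => trivial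
  | not φ ih => exact ih h
  | and φ ψ ih1 ih2 => exact ⟨ih1 h.1, ih2 h.2⟩
  | ex w φ _ => exact Or.inl h.2

/-- Quantifier-free formulas. -/
def Qf : Form K n → Prop
  | .eq _ => True
  | .dvd _ _ => True
  | .not φ => φ.Qf
  | .and φ ψ => φ.Qf ∧ ψ.Qf
  | .ex _ _ => False

/-- `∀ x_v1, ..., ∀ x_vr, φ` -/
def alls (vs : List (Fin n)) (φ : Form K n) : Form K n := .not (exs vs (.not φ))

theorem qf_nsq {φ : Form K n} (h : φ.Qf) : φ.Nsq ∧ ∀ z u, φ.Sep2 z u := by
  induction φ with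
  | eq f => exact ⟨.eq f, fun _ _ => trivial⟩
  | dvd f g => exact ⟨.dvd f g, fun _ _ => trivial⟩
  | not φ ih => exact ⟨.not (ih h).1, (ih h).2⟩
  | and φ ψ ih1 ih2 =>
    exact ⟨.and (ih1 h.1).1 (ih2 h.2).1, fun z u => ⟨(ih1 h.1).2 z u, (ih2 h.2).2 z u⟩⟩
  | ex w φ _ => exact h.elim

theorem nsq_two (φ : Form K 2) : φ.Nsq := by
  induction φ with
  | eq f => exact .eq f
  | dvd f g => exact .dvd f g
  | not φ ih => exact .not ih
  | and φ ψ ih1 ih2 => exact .and ih1 ih2
  | ex v φ ih => exact .ex v ih (sep_two v φ)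

end Form

variable {p : ℕ} [hp : Fact p.Prime] {n : ℕ}

/-- the formula is, as a formula in `z`, `u`, determined by the values up to units of some polynomials and by locally constant
predicates which do not depend on `z`, `u` -/
def PV2 (z u : Fin n) (φ : Form (K p) n) : Prop :=
  ∃ (fs : List (MvPolynomial (Fin n) (K p))) (Ψ : List ((Fin n → L p) → Prop)),
    (∀ R ∈ Ψ, LCp p R ∧ ∀ s a b, (R (Function.update (Function.update s z a) u b) ↔ R s)) ∧
    ∀ s s', (∀ f ∈ fs, Eqv (aeval s' f) (aeval s f)) → (∀ R ∈ Ψ, (R s' ↔ R s)) →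
      (HL p φ s' ↔ HL p φ s)

theorem pv2_eq (z u : Fin n) (f : MvPolynomial (Fin n) (K p)) : PV2 z u (.eq f) := by
  refine ⟨[f], [], by simp, fun s s' h1 _ => ?_⟩
  have h2 := eqv_zero (h1 f (List.mem_singleton.2 rfl))
  show f.eval₂ (algebraMap (K p) (L p)) s' = 0 ↔ f.eval₂ (algebraMap (K p) (L p)) s = 0
  rw [aeval_def, aeval_def] at h2
  exact h2

/-- Proof: `fs = [f, g]`, `AtomB_dvd`. -/
theorem pv2_dvd (z u : Fin n) (f g : MvPolynomial (Fin n) (K p)) : PV2 z u (.dvd f g) := by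
  refine ⟨[f, g], [], by simp, fun s s' h1 _ => ?_⟩
  obtain ⟨w, hw0, hw, hwi, hwe⟩ := h1 f (by simp)
  obtain ⟨w', hw0', hw', hwi', hwe'⟩ := h1 g (by simp)
  have h2 := AtomB_dvd (a := aeval s f) (b := aeval s g) hw0 hw hwi hw0' hw' hwi'
  rw [← hwe, ← hwe', aeval_def, aeval_def, aeval_def, aeval_def] at h2
  exact h2

theorem pv2_not {z u : Fin n} {φ : Form (K p) n} (h : PV2 z u φ) : PV2 z u (.not φ) := by
  obtain ⟨fs, Ψ, h1, h2⟩ := h
  exact ⟨fs, Ψ, h1, fun s s' h3 h4 => not_congr (h2 s s' h3 h4)⟩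

theorem pv2_and {z u : Fin n} {φ ψ : Form (K p) n} (h : PV2 z u φ) (h' : PV2 z u ψ) :
    PV2 z u (.and φ ψ) := by
  obtain ⟨fs, Ψ, h1, h2⟩ := h
  obtain ⟨gs, Ω, h3, h4⟩ := h'
  refine ⟨fs ++ gs, Ψ ++ Ω, fun R hR => ?_, fun s s' h5 h6 => and_congr
    (h2 s s' (fun f hf => h5 f (List.mem_append_left _ hf)) fun R hR =>
      h6 R (List.mem_append_left _ hR))
    (h4 s s' (fun f hf => h5 f (List.mem_append_right _ hf)) fun R hR =>
      h6 R (List.mem_append_right _ hR))⟩
  rcases List.mem_append.1 hR with hR | hR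
  · exact h1 R hR
  · exact h3 R hR

/-- a locally constant formula in which `z`, `u` are not free -/
theorem pv2_leaf {z u : Fin n} {φ : Form (K p) n} (hφ : LCp p (HL p φ)) (hz : ¬ φ.Free z)
    (hu : ¬ φ.Free u) : PV2 z u φ := by
  refine ⟨[], [HL p φ], fun R hR => ?_, fun s s' _ h1 => h1 _ (List.mem_singleton.2 rfl)⟩
  rw [List.mem_singleton] at hR
  rw [hR]
  refine ⟨hφ, fun s a b => ?_⟩
  refine φ.holds_congr fun w hw => ?_
  have h1 : w ≠ u := by
    rintro rfl
    exact hu hw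
  have h2 : w ≠ z := by
    rintro rfl
    exact hz hw
  rw [Function.update_of_ne h1, Function.update_of_ne h2]

/-- The double quantifier.  Proof: at `c`.  If `∃ z ∃ u φ` holds at `c` with `a, b`: `lift` twice and `near_upd` (as for one
quantifier) and `hφ`.  If it does not hold: `two_main` for the polynomials of `h`, renamed by
`i ↦ if i = z then inr 0 else if i = u then inr 1 else inl i`, and `hR.1 c` for `R ∈ Ψ` (`comp_list`-like maximum of levels and radii);
if it holds at `c'` (near `c`) with `a', b'` take the partner `a, b`; all `R ∈ Ψ` have the same value at `c'` and `c`, so also at the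
updated tuples. -/
theorem lc_ex2 {z u : Fin n} (hzu : z ≠ u) {φ : Form (K p) n} (hφ : LCp p (HL p φ))
    (h : PV2 z u φ) : LCp p (HL p (.ex z (.ex u φ))) := by
  intro c
  by_cases hc : HL p (.ex z (.ex u φ)) c
  · obtain ⟨a, b, hab⟩ := hc
    obtain ⟨m1, e1, he1, h1⟩ := hφ (Function.update (Function.update c z a) u b)
    obtain ⟨m2, e2, he2, h2⟩ := lift hp.out (ta_K p) (ta_L p) (emb_KL p)
      (Function.update c z a) b m1 he1
    obtain ⟨m3, e3, he3, h3⟩ := lift hp.out (ta_K p) (ta_L p) (emb_KL p) c a m2 he2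
    refine ⟨m3, e3, he3, fun c' hc' => iff_of_true ?_ ⟨a, b, hab⟩⟩
    obtain ⟨a', ha'⟩ := h3 c' hc'
    obtain ⟨b', hb'⟩ := h2 _ (near_upd hp.out (ta_L p) z ha')
    exact ⟨a', b', (h1 _ (near_upd hp.out (ta_L p) u hb')).2 hab⟩
  · obtain ⟨fs, Ψ, hΨ, hdet⟩ := h
    obtain ⟨r, hr⟩ : ∃ r : Fin n → Fin n ⊕ Fin 2,
        r = fun i => if i = z then Sum.inr 0 else if i = u then Sum.inr 1 else Sum.inl i := ⟨_, rfl⟩
    have hru : ∀ (s : Fin n → L p) (w : Fin 2 → L p),
        Sum.elim s w ∘ r = Function.update (Function.update s z (w 0)) u (w 1) := by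
      intro s w
      funext i
      rw [hr, Function.comp_apply]
      by_cases h1 : i = z
      · rw [if_pos h1, h1, Function.update_of_ne hzu, Function.update_self, Sum.elim_inr]
      · rw [if_neg h1]
        by_cases h2 : i = u
        · rw [if_pos h2, h2, Function.update_self, Sum.elim_inr]
        · rw [if_neg h2, Function.update_of_ne h2, Function.update_of_ne h1, Sum.elim_inl]
    obtain ⟨m1, e1, he1, h1⟩ := two_main (fs.map fun f => rename r f) c
    obtain ⟨m2, e2, he2, h2⟩ : ∃ (m : ℕ) (e : L p), e ≠ 0 ∧ ∀ R ∈ Ψ, ∀ c',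
        Near (K p) hp.out (ta_L p) m e c c' → (R c' ↔ R c) := by
      have h3 : ∀ R ∈ Ψ, LCp p R := fun R hR => (hΨ R hR).1
      clear hdet hΨ
      induction Ψ with
      | nil => exact ⟨0, 1, one_ne_zero, by simp⟩
      | cons R Ψ ih =>
        obtain ⟨m1, e1, he1, h1⟩ := ih fun R hR => h3 R (List.mem_cons_of_mem _ hR)
        obtain ⟨m2, e2, he2, h2⟩ := h3 R List.mem_cons_self c
        obtain ⟨m, e, he, -, -, -, -, h5⟩ := near_both (M := K p) hp.out (ta_L p) (emb_KL p)
          m1 m2 he1 he2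
        refine ⟨m, e, he, fun R' hR' c' hc' => ?_⟩
        rcases List.mem_cons.1 hR' with rfl | hR'
        · exact h2 c' (h5 _ _ hc').2
        · exact h1 R' hR' c' (h5 _ _ hc').1
    obtain ⟨m, e, he, -, -, -, -, h5⟩ := near_both (M := K p) hp.out (ta_L p) (emb_KL p)
      m1 m2 he1 he2
    refine ⟨m, e, he, fun c' hc' => iff_of_false ?_ hc⟩
    rintro ⟨a', b', hab⟩
    obtain ⟨w, hw⟩ := h1 c' (h5 _ _ hc').1 ![a', b']
    refine hc ⟨w 0, w 1, ?_⟩
    have e1 := hru c' ![a', b']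
    have e2 := hru c w
    simp only [Matrix.cons_val_zero, Matrix.cons_val_one] at e1
    have h6 := (hdet (Function.update (Function.update c z (w 0)) u (w 1))
      (Function.update (Function.update c' z a') u b') ?_ ?_).1 hab
    · exact h6
    · intro f hf
      have h7 := hw (rename r f) (List.mem_map_of_mem hf)
      rw [aeval_rename, aeval_rename, e1, e2] at h7
      exact h7
    · intro R hR
      rw [(hΨ R hR).2, (hΨ R hR).2]
      exact h2 R hR c' (h5 _ _ hc').2

theorem pv2_clo {φ : Form (K p) n} (h : φ.Clo) (z u : Fin n) (hs : φ.Sep2 z u) : PV2 z u φ := by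
  induction h with
  | eq f => exact pv2_eq z u f
  | dvd f g => exact pv2_dvd z u f g
  | and h1 h2 ih1 ih2 => exact pv2_and (ih1 hs.1) (ih2 hs.2)
  | or h1 h2 ih1 ih2 => exact pv2_not (pv2_and (pv2_not (ih1 hs.1)) (pv2_not (ih2 hs.2)))
  | ex w h1 ih => exact pv2_leaf (lc_clo (.ex w h1)) hs.1 hs.2

/-- The formulas of the class are locally constant.  Proof: as `nst_main`.  For `ex2` with `z = u`: `∃ x_z ∃ x_z φ` is equivalent to
`∃ x_z φ` (`Function.update_idem`, `lcp_congr`). -/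
theorem nsq_main {φ : Form (K p) n} (h : φ.Nsq) : LCp p (HL p φ) ∧ (∀ v, φ.Sep v → PV v φ) ∧
    ∀ z u, φ.Sep2 z u → PV2 z u φ := by
  induction h with
  | eq f => exact ⟨lc_eq hp.out (ta_L p) (emb_KL p) f, fun v _ => pv_eq v f,
      fun z u _ => pv2_eq z u f⟩
  | dvd f g => exact ⟨lc_dvd hp.out (ta_L p) (emb_KL p) f g, fun v _ => pv_dvd v f g,
      fun z u _ => pv2_dvd z u f g⟩
  | not h ih => exact ⟨lcp_not ih.1, fun v hv => pv_not (ih.2.1 v hv),
      fun z u hv => pv2_not (ih.2.2 z u hv)⟩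
  | and h1 h2 ih1 ih2 =>
    exact ⟨lcp_and ih1.1 ih2.1, fun v hv => pv_and (ih1.2.1 v hv.1) (ih2.2.1 v hv.2),
      fun z u hv => pv2_and (ih1.2.2 z u hv.1) (ih2.2.2 z u hv.2)⟩
  | ex w h hs ih =>
    have h1 := lc_ex (ih.2.1 w hs)
    exact ⟨h1, fun v hv => pv_leaf h1 hv, fun z u hv => pv2_leaf h1 hv.1 hv.2⟩
  | ex2 z0 u0 h hs ih =>
    rename_i φ
    have h1 : LCp p (HL p (.ex z0 (.ex u0 φ))) := by
      by_cases hzu : z0 = u0
      · subst hzu
        refine lcp_congr (R := HL p (.ex z0 φ)) (fun s => ?_)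
          (lc_ex (ih.2.1 z0 (Form.sep2_sep hs)))
        constructor
        · rintro ⟨a, ha⟩
          refine ⟨a, a, ?_⟩
          rw [Function.update_idem]
          exact ha
        · rintro ⟨a, b, hb⟩
          rw [Function.update_idem] at hb
          exact ⟨b, hb⟩
      · exact lc_ex2 hzu ih.1 (ih.2.2 z0 u0 hs)
    exact ⟨h1, fun v hv => pv_leaf h1 hv, fun z u hv => pv2_leaf h1 hv.1 hv.2⟩
  | clo h => exact ⟨lc_clo h, fun v hv => pv_clo h v hv, fun z u hv => pv2_clo h z u hv⟩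
  | closed vs h hf ih =>
    cases vs with
    | nil => exact ih
    | cons w ws =>
      rename_i φ
      have h1 : LCp p (HL p (Form.exs (w :: ws) φ)) := by
        intro c
        refine ⟨0, 1, one_ne_zero, fun c' _ => ?_⟩
        exact Form.holds_congr _ fun u hu => absurd hu (hf u)
      refine ⟨h1, fun v _ => pv_leaf h1 (Or.inl (hf v)), fun z u _ => pv2_leaf h1 (hf z) (hf u)⟩
  | unary vs v0 h hcst hf ih =>
    cases vs with
    | nil => exact ih
    | cons w ws =>
      rename_i φ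
      obtain ⟨χ, hχ⟩ : ∃ χ, χ = Form.exs (w :: ws) φ := ⟨_, rfl⟩
      have hcst' : χ.Cst := by
        rw [hχ]
        exact Form.exs_cst _ hcst
      rw [← hχ] at hf
      have h1 : LCp p fun z : Unit → L p => HL p χ (fun _ => z ()) :=
        lc_inv p (fun z => HL p χ fun _ => z) fun σ hσ z =>
          Form.holds_aut χ hcst' σ hσ fun _ => z
      have h2 : LCp p (HL p χ) := by
        intro c
        obtain ⟨m, e, he, h3⟩ := h1 fun _ => c v0
        refine ⟨m, e, he, fun c' hc' => ?_⟩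
        have h4 := h3 (fun _ => c' v0) (near_comp hp.out (ta_L p) hc' fun _ : Unit => v0)
        have h5 : ∀ s : Fin n → L p, HL p χ s ↔ HL p χ fun _ => s v0 := fun s =>
          Form.holds_congr χ fun u hu => by rw [hf u hu]
        rw [h5 c, h5 c']
        exact h4
      rw [hχ] at h2
      exact ⟨h2, fun v hv => pv_leaf h2 hv, fun z u hv => pv2_leaf h2 hv.1 hv.2⟩

theorem tr_nsq {φ : Form (K p) n} (h : φ.Nsq) : TR φ := by
  induction h with
  | eq f => exact tr_eq f
  | dvd f g => exact tr_dvd f g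
  | not h ih => exact tr_not ih
  | and h1 h2 ih1 ih2 => exact tr_and ih1 ih2
  | ex v h hs ih => exact tr_exs [v] ih (nsq_main h).1
  | ex2 z u h hs ih => exact tr_exs [z, u] ih (nsq_main h).1
  | clo h => exact tr_clo h
  | closed vs h hf ih => exact tr_exs vs ih (nsq_main h).1
  | unary vs v0 h hcst hf ih => exact tr_exs vs ih (nsq_main h).1

/-- the theorem, for `K p` -/
theorem tr_main2 {φ : Form (K p) n} (h : φ.Nsq) (vs : List (Fin n)) : TR (Form.exs vs φ) :=
  tr_exs vs (tr_nsq h) (nsq_main h).1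

theorem elem_nsq (p : ℕ) [hp : Fact p.Prime] {n : ℕ} {φ : Form (Kt p) n} (h : φ.Nsq)
    (vs : List (Fin n)) (s : Fin n → Kt p) :
    (Form.exs vs φ).Holds (RingHom.id (Kt p)) (OKt p) s ↔
      (Form.exs vs φ).Holds (inc p) (OL p) fun i => inc p (s i) :=
  tr_main2 (p := p) (n := n) (φ := φ) h vs s

end TF45
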