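import Mathlib

set_option autoImplicit false
set_option linter.unusedSectionVars false

/-!
# MP_4ce76a_lc, two-variable logic: formulas

`Form K n`: the first-order formulas of the language of valued fields with parameters in the field `K`, in the (free or
bound) variables `x_0, ..., x_(n-1)`; variables may be bound again and again.  Atomic formulas: `f = 0` and `f ∣ g`
(`v (f) ≤ v (g)`, that is `g = x f` with `x` in the valuation ring), `f`, `g` polynomials over `K`.
-/

namespace TF45

open MvPolynomial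

/-- Formulas with parameters in `K` in the variables `x_0, ..., x_(n-1)`. -/
inductive Form (K : Type) [Field K] (n : ℕ) : Type
  | eq (f : MvPolynomial (Fin n) K) : Form K n
  | dvd (f g : MvPolynomial (Fin n) K) : Form K n
  | not (φ : Form K n) : Form K n
  | and (φ ψ : Form K n) : Form K n
  | ex (v : Fin n) (φ : Form K n) : Form K n

namespace Form

variable {K : Type} [Field K] {n : ℕ}

/-- The formula holds at `s` in the field `N` with the valuation ring `O` and the homomorphism `j : K → N`. -/
def Holds {N : Type} [Field N] (j : K →+* N) (O : ValuationSubring N) :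
    Form K n → (Fin n → N) → Prop
  | .eq f, s => f.eval₂ j s = 0
  | .dvd f g, s => ∃ x ∈ O, g.eval₂ j s = x * f.eval₂ j s
  | .not φ, s => ¬ φ.Holds j O s
  | .and φ ψ, s => φ.Holds j O s ∧ ψ.Holds j O s
  | .ex v φ, s => ∃ a : N, φ.Holds j O (Function.update s v a)

/-- The variable `x_v` is free in the formula. -/
def Free (v : Fin n) : Form K n → Prop
  | .eq f => v ∈ f.vars
  | .dvd f g => v ∈ f.vars ∨ v ∈ g.vars
  | .not φ => φ.Free v
  | .and φ ψ => φ.Free v ∨ ψ.Free v
  | .ex w φ => w ≠ v ∧ φ.Free v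

/-- The formula has no parameters. -/
def Cst : Form K n → Prop
  | .eq f => ∃ f0 : MvPolynomial (Fin n) ℤ, f = f0.map (Int.castRingHom K)
  | .dvd f g => (∃ f0 : MvPolynomial (Fin n) ℤ, f = f0.map (Int.castRingHom K)) ∧
      ∃ g0 : MvPolynomial (Fin n) ℤ, g = g0.map (Int.castRingHom K)
  | .not φ => φ.Cst
  | .and φ ψ => φ.Cst ∧ ψ.Cst
  | .ex _ φ => φ.Cst

/-- The formula is a boolean combination of atomic formulas, of formulas `∃ x_w, χ` in which `x_v` is not free and of
formulas `∃ x_w, χ` in which no variable except `x_v` is free. -/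
def Sep (v : Fin n) : Form K n → Prop
  | .eq _ => True
  | .dvd _ _ => True
  | .not φ => φ.Sep v
  | .and φ ψ => φ.Sep v ∧ ψ.Sep v
  | .ex w φ => ¬ (Form.ex w φ).Free v ∨ ∀ u, (Form.ex w φ).Free u → u = v

/-- `∃ x_v1, ..., ∃ x_vr, φ` -/
def exs (vs : List (Fin n)) (φ : Form K n) : Form K n := vs.foldr (fun v ψ => .ex v ψ) φ

/-- Positive formulas with bounded quantifiers: built from atomic formulas by conjunction, disjunction and `∃ x_v ∈ O`. -/
inductive Clo : Form K n → Prop
  | eq (f : MvPolynomial (Fin n) K) : Clo (.eq f)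
  | dvd (f g : MvPolynomial (Fin n) K) : Clo (.dvd f g)
  | and {φ ψ : Form K n} : Clo φ → Clo ψ → Clo (.and φ ψ)
  | or {φ ψ : Form K n} : Clo φ → Clo ψ → Clo (.not (.and (.not φ) (.not ψ)))
  | ex (v : Fin n) {φ : Form K n} : Clo φ → Clo (.ex v (.and (.dvd 1 (X v)) φ))

/-- The class of formulas. -/
inductive Nst : Form K n → Prop
  | eq (f : MvPolynomial (Fin n) K) : Nst (.eq f)
  | dvd (f g : MvPolynomial (Fin n) K) : Nst (.dvd f g)
  | not {φ : Form K n} : Nst φ → Nst (.not φ)
  | and {φ ψ : Form K n} : Nst φ → Nst ψ → Nst (.and φ ψ)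
  | ex (v : Fin n) {φ : Form K n} : Nst φ → φ.Sep v → Nst (.ex v φ)
  | clo {φ : Form K n} : Clo φ → Nst φ
  | closed (vs : List (Fin n)) {φ : Form K n} : Nst φ → (∀ u, ¬ (exs vs φ).Free u) →
      Nst (exs vs φ)
  | unary (vs : List (Fin n)) (v : Fin n) {φ : Form K n} : Nst φ → φ.Cst →
      (∀ u, (exs vs φ).Free u → u = v) → Nst (exs vs φ)

end Form

end TF45
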