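import Pool.Agent.W_4ce76a_h45.Syn

set_option autoImplicit false
set_option linter.unusedSectionVars false

/-!
# MP_4ce76a_lc, two-variable logic: simple properties of formulas
-/

namespace TF45

open MvPolynomial

namespace Form

variable {K : Type} [Field K] {n : ℕ} {N : Type} [Field N] {j : K →+* N} {O : ValuationSubring N}

theorem synB_eval₂ (f : MvPolynomial (Fin n) K) {s s' : Fin n → N}
    (h : ∀ u ∈ f.vars, s u = s' u) : f.eval₂ j s = f.eval₂ j s' := by
  refine MvPolynomial.eval₂Hom_congr' rfl (fun i hi _ => h i hi) rfl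

/-- the truth value only depends on the free variables -/
theorem holds_congr (φ : Form K n) {s s' : Fin n → N} (h : ∀ u, φ.Free u → s u = s' u) :
    φ.Holds j O s ↔ φ.Holds j O s' := by
  induction φ generalizing s s' with
  | eq f =>
    show f.eval₂ j s = 0 ↔ f.eval₂ j s' = 0
    rw [synB_eval₂ f fun u hu => h u hu]
  | dvd f g =>
    show (∃ x ∈ O, g.eval₂ j s = x * f.eval₂ j s) ↔ ∃ x ∈ O, g.eval₂ j s' = x * f.eval₂ j s'
    rw [synB_eval₂ f fun u hu => h u (Or.inl hu), synB_eval₂ g fun u hu => h u (Or.inr hu)]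
  | not φ ih => exact not_congr (ih h)
  | and φ ψ ih1 ih2 =>
    exact and_congr (ih1 fun u hu => h u (Or.inl hu)) (ih2 fun u hu => h u (Or.inr hu))
  | ex w φ ih =>
    refine exists_congr fun a => ih fun u hu => ?_
    by_cases hw : u = w
    · rw [hw, Function.update_self, Function.update_self]
    · rw [Function.update_of_ne hw, Function.update_of_ne hw]
      exact h u ⟨fun h1 => hw h1.symm, hu⟩

theorem exs_nil (φ : Form K n) : exs [] φ = φ := rfl

theorem exs_cons (v : Fin n) (vs : List (Fin n)) (φ : Form K n) :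
    exs (v :: vs) φ = .ex v (exs vs φ) := rfl

theorem exs_holds (vs : List (Fin n)) (φ : Form K n) (s : Fin n → N) :
    (exs vs φ).Holds j O s ↔ ∃ c : Fin n → N, (∀ i, i ∉ vs → c i = s i) ∧ φ.Holds j O c := by
  induction vs generalizing s with
  | nil =>
    constructor
    · intro h
      exact ⟨s, fun _ _ => rfl, h⟩
    · rintro ⟨c, hc, h⟩
      have h1 : c = s := funext fun i => hc i List.not_mem_nil
      rw [← h1]
      exact h
  | cons v vs ih =>
    show (∃ a : N, (exs vs φ).Holds j O (Function.update s v a)) ↔ _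
    constructor
    · rintro ⟨a, ha⟩
      obtain ⟨c, hc, h⟩ := (ih _).1 ha
      refine ⟨c, fun i hi => ?_, h⟩
      rw [List.mem_cons, not_or] at hi
      rw [hc i hi.2, Function.update_of_ne hi.1]
    · rintro ⟨c, hc, h⟩
      refine ⟨c v, (ih _).2 ⟨c, fun i hi => ?_, h⟩⟩
      by_cases hv : i = v
      · rw [hv, Function.update_self]
      · rw [Function.update_of_ne hv]
        exact hc i (by
          rw [List.mem_cons, not_or]
          exact ⟨hv, hi⟩)

theorem exs_cst (vs : List (Fin n)) {φ : Form K n} (h : φ.Cst) : (exs vs φ).Cst := by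
  induction vs with
  | nil => exact h
  | cons v vs ih => exact ih

/-- formulas without parameters are invariant under automorphisms -/
theorem holds_aut (φ : Form K n) (hφ : φ.Cst) (σ : N ≃+* N) (hσ : ∀ x, σ x ∈ O ↔ x ∈ O)
    (s : Fin n → N) : φ.Holds j O (fun i => σ (s i)) ↔ φ.Holds j O s := by
  have key : ∀ f0 : MvPolynomial (Fin n) ℤ, ∀ s : Fin n → N,
      (f0.map (Int.castRingHom K)).eval₂ j (fun i => σ (s i)) =
        σ ((f0.map (Int.castRingHom K)).eval₂ j s) := by
    intro f0 s
    rw [MvPolynomial.eval₂_map, MvPolynomial.eval₂_map]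
    have h1 := MvPolynomial.eval₂_comp_left (σ : N →+* N) (j.comp (Int.castRingHom K)) s f0
    have h2 : (σ : N →+* N).comp (j.comp (Int.castRingHom K)) = j.comp (Int.castRingHom K) :=
      RingHom.ext_int _ _
    rw [h2] at h1
    exact h1.symm
  induction φ generalizing s with
  | eq f =>
    obtain ⟨f0, rfl⟩ := hφ
    show _ = 0 ↔ _ = 0
    rw [key, map_eq_zero_iff σ σ.injective]
  | dvd f g =>
    obtain ⟨⟨f0, rfl⟩, g0, rfl⟩ := hφ
    show (∃ x ∈ O, _ = x * _) ↔ ∃ x ∈ O, _ = x * _
    rw [key, key]
    constructor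
    · rintro ⟨x, hx, h⟩
      refine ⟨σ.symm x, ?_, ?_⟩
      · rw [← hσ, RingEquiv.apply_symm_apply]
        exact hx
      · apply σ.injective
        rw [map_mul, RingEquiv.apply_symm_apply]
        exact h
    · rintro ⟨x, hx, h⟩
      exact ⟨σ x, (hσ x).2 hx, by rw [h, map_mul]⟩
  | not φ ih => exact not_congr (ih hφ s)
  | and φ ψ ih1 ih2 => exact and_congr (ih1 hφ.1 s) (ih2 hφ.2 s)
  | ex v φ ih =>
    have h1 : ∀ a : N, Function.update (fun i => σ (s i)) v (σ a) =
        fun i => σ (Function.update s v a i) := by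
      intro a
      funext i
      by_cases hi : i = v
      · rw [hi, Function.update_self, Function.update_self]
      · rw [Function.update_of_ne hi, Function.update_of_ne hi]
    show (∃ a, _) ↔ ∃ a, _
    constructor
    · rintro ⟨a, ha⟩
      refine ⟨σ.symm a, (ih hφ _).1 ?_⟩
      rw [← h1, RingEquiv.apply_symm_apply]
      exact ha
    · rintro ⟨a, ha⟩
      refine ⟨σ a, ?_⟩
      rw [h1]
      exact (ih hφ _).2 ha

/-- in two variables the condition `Sep` is always satisfied -/
theorem sep_two (v : Fin 2) (φ : Form K 2) : φ.Sep v := by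
  induction φ with
  | eq f => trivial
  | dvd f g => trivial
  | not φ ih => exact ih
  | and φ ψ ih1 ih2 => exact ⟨ih1, ih2⟩
  | ex w φ ih =>
    by_cases hw : w = v
    · exact Or.inl fun h => h.1 hw
    · refine Or.inr fun u hu => ?_
      have h1 : w ≠ u := hu.1
      omega

theorem nst_two (φ : Form K 2) : φ.Nst := by
  induction φ with
  | eq f => exact .eq f
  | dvd f g => exact .dvd f g
  | not φ ih => exact .not ih
  | and φ ψ ih1 ih2 => exact .and ih1 ih2
  | ex v φ ih => exact .ex v ih (sep_two v φ)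

end Form

end TF45
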