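import Pool.Agent.W_4ce76a_h45.SynB
import Pool.Agent.W_4ce76a_h45.Comp
import Pool.Agent.W_4ce76a_h45.AutB

set_option autoImplicit false
set_option linter.unusedSectionVars false

/-!
# MP_4ce76a_lc, two-variable logic: the formulas of the class are locally constant
-/

namespace TF45

open TF14 MvPolynomial

variable (p : ℕ) [hp : Fact p.Prime] {n : ℕ}

/-- truth in `L p` -/
def HL (φ : Form (K p) n) (s : Fin n → L p) : Prop :=
  φ.Holds (algebraMap (K p) (L p)) (OL p) s

/-- locally constant predicates on `L p` -/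
def LCp {ι : Type} (R : (ι → L p) → Prop) : Prop := LC (K p) hp.out (ta_L p) R

/-- good predicates on `L p` -/
def Goodp {ι : Type} (R : (ι → L p) → L p → Prop) : Prop := Good (K p) hp.out (ta_L p) R

variable {p}

theorem lcp_congr {ι : Type} {R R' : (ι → L p) → Prop} (h : ∀ s, R s ↔ R' s) (hR : LCp p R) :
    LCp p R' := by
  have h1 : R = R' := funext fun s => propext (h s)
  rw [← h1]
  exact hR

theorem lcp_not {ι : Type} {R : (ι → L p) → Prop} (hR : LCp p R) : LCp p fun s => ¬ R s := by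
  intro c
  obtain ⟨m, e, he, h⟩ := hR c
  exact ⟨m, e, he, fun c' hc' => not_congr (h c' hc')⟩

theorem lcp_and {ι : Type} {R R' : (ι → L p) → Prop} (hR : LCp p R) (hR' : LCp p R') :
    LCp p fun s => R s ∧ R' s := by
  intro c
  obtain ⟨m1, e1, he1, h1⟩ := hR c
  obtain ⟨m2, e2, he2, h2⟩ := hR' c
  obtain ⟨m, e, he, -, -, -, -, h3⟩ := near_both (M := K p) hp.out (ta_L p) (emb_KL p) m1 m2 he1 he2
  exact ⟨m, e, he, fun c' hc' => and_congr (h1 c' (h3 _ _ hc').1) (h2 c' (h3 _ _ hc').2)⟩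

/-- the formula is, as a formula in the last variable `v`, a boolean combination of good predicates -/
def PV (v : Fin n) (φ : Form (K p) n) : Prop :=
  ∃ Φ : List ((Fin n → L p) → L p → Prop), (∀ R ∈ Φ, Goodp p R) ∧
    ∀ s s' z z', (∀ R ∈ Φ, (R s' z' ↔ R s z)) →
      (HL p φ (Function.update s' v z') ↔ HL p φ (Function.update s v z))

theorem synC_rename (v : Fin n) (f : MvPolynomial (Fin n) (K p)) (s : Fin n → L p) (z : L p) :
    aeval (pr s z) (rename (fun i => if i = v then Sum.inr () else Sum.inl i) f :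
      MvPolynomial (Fin n ⊕ Unit) (K p)) =
      f.eval₂ (algebraMap (K p) (L p)) (Function.update s v z) := by
  rw [aeval_rename, aeval_def]
  congr 1
  funext i
  by_cases hi : i = v
  · rw [Function.comp_apply, if_pos hi, hi, Function.update_self]
    rfl
  · rw [Function.comp_apply, if_neg hi, Function.update_of_ne hi]
    rfl

theorem pv_single {v : Fin n} {φ : Form (K p) n} {R : (Fin n → L p) → L p → Prop}
    (hR : Goodp p R) (h : ∀ s z, R s z ↔ HL p φ (Function.update s v z)) : PV v φ := by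
  refine ⟨[R], fun R' hR' => ?_, fun s s' z z' h1 => ?_⟩
  · rw [List.mem_singleton] at hR'
    rw [hR']
    exact hR
  · rw [← h, ← h]
    exact h1 R (List.mem_singleton.2 rfl)

theorem pv_eq (v : Fin n) (f : MvPolynomial (Fin n) (K p)) : PV v (.eq f) := by
  refine pv_single (good_eq hp.out (ta_L p) (emb_KL p)
    (rename (fun i => if i = v then Sum.inr () else Sum.inl i) f)) fun s z => ?_
  rw [synC_rename]
  rfl

theorem pv_dvd (v : Fin n) (f g : MvPolynomial (Fin n) (K p)) : PV v (.dvd f g) := by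
  refine pv_single (good_dvd hp.out (ta_L p) (emb_KL p)
    (rename (fun i => if i = v then Sum.inr () else Sum.inl i) f)
    (rename (fun i => if i = v then Sum.inr () else Sum.inl i) g)) fun s z => ?_
  rw [synC_rename, synC_rename]
  rfl

theorem pv_not {v : Fin n} {φ : Form (K p) n} (h : PV v φ) : PV v (.not φ) := by
  obtain ⟨Φ, h1, h2⟩ := h
  exact ⟨Φ, h1, fun s s' z z' h3 => not_congr (h2 s s' z z' h3)⟩

theorem pv_and {v : Fin n} {φ ψ : Form (K p) n} (h : PV v φ) (h' : PV v ψ) :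
    PV v (.and φ ψ) := by
  obtain ⟨Φ, h1, h2⟩ := h
  obtain ⟨Ψ, h3, h4⟩ := h'
  refine ⟨Φ ++ Ψ, fun R hR => ?_, fun s s' z z' h5 => and_congr
    (h2 s s' z z' fun R hR => h5 R (List.mem_append_left _ hR))
    (h4 s s' z z' fun R hR => h5 R (List.mem_append_right _ hR))⟩
  rcases List.mem_append.1 hR with hR | hR
  · exact h1 R hR
  · exact h3 R hR

/-- a locally constant formula in which `v` is not free or no variable except `v` is free -/
theorem pv_leaf {v : Fin n} {φ : Form (K p) n} (hφ : LCp p (HL p φ))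
    (h : ¬ φ.Free v ∨ ∀ u, φ.Free u → u = v) : PV v φ := by
  rcases h with h | h
  · refine pv_single (R := fun s _ => HL p φ s)
      (good_old hp.out (ta_L p) (R := HL p φ) hφ) fun s z => ?_
    refine φ.holds_congr fun u hu => ?_
    have hu' : u ≠ v := by
      rintro rfl
      exact h hu
    rw [Function.update_of_ne hu']
  · have h1 : LCp p fun z : Unit → L p => HL p φ (Function.update 0 v (z ())) := by
      intro c
      obtain ⟨m, e, he, h2⟩ := hφ (Function.update 0 v (c ()))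
      refine ⟨m, e, he, fun c' hc' => h2 _ ?_⟩
      exact near_upd0 hp.out (ta_L p) v hc'
    refine pv_single (R := fun _ z => HL p φ (Function.update 0 v z))
      (good_new hp.out (ta_L p) (emb_KL p) (R := fun z => HL p φ (Function.update 0 v z)) h1)
      fun s z => ?_
    refine φ.holds_congr fun u hu => ?_
    rw [h u hu, Function.update_self, Function.update_self]

/-- the quantifier -/
theorem lc_ex {v : Fin n} {φ : Form (K p) n} (h : PV v φ) : LCp p (HL p (.ex v φ)) := by
  obtain ⟨Φ, h1, h2⟩ := h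
  intro c
  by_cases hc : HL p (.ex v φ) c
  · obtain ⟨z0, hz0⟩ := hc
    obtain ⟨m, e, he, h3⟩ := main_up p Φ h1 c z0
    refine ⟨m, e, he, fun c' hc' => ?_⟩
    obtain ⟨z', hz'⟩ := h3 c' hc'
    exact iff_of_true ⟨z', (h2 c c' z0 z' hz').2 hz0⟩ ⟨z0, hz0⟩
  · obtain ⟨m, e, he, h3⟩ := main_ex p Φ h1 c
    refine ⟨m, e, he, fun c' hc' => iff_of_false ?_ hc⟩
    rintro ⟨z', hz'⟩
    obtain ⟨z'', hz''⟩ := h3 c' hc' z'
    exact hc ⟨z'', (h2 c c' z'' z' hz'').1 hz'⟩

theorem synC_small {e : L p} (he : e ≠ 0) : ∃ n0 : ℕ, ∀ n ≥ n0, ∀ a b, Cl (OL p) (tL p ^ n) a b →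
    Cl (OL p) e a b := by
  obtain ⟨n0, hn0⟩ := OpenLB_pow p e⁻¹
  refine ⟨n0, fun n hn' a b hab => ?_⟩
  refine cl_mono (hn0 n hn') ?_
  have h2 : e * (tL p ^ n * e⁻¹) = tL p ^ n := by field_simp
  rwa [h2]

theorem synC_dvd {a b : L p} (h : ¬ ∃ x ∈ OL p, b = x * a) : ∃ e : L p, e ≠ 0 ∧
    ∀ a' b' : L p, Cl (OL p) e a' a → Cl (OL p) e b' b → ¬ ∃ x ∈ OL p, b' = x * a' := by
  have ht := t_ne_zero (ta_L p)
  have hb : b ≠ 0 := by
    rintro rfl
    exact h ⟨0, (OL p).zero_mem, by rw [zero_mul]⟩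
  -- `a / b` is in the maximal ideal
  have hab : (OL p).valuation (a / b) < 1 := by
    by_contra hcon
    push Not at hcon
    have ha : a ≠ 0 := by
      rintro rfl
      rw [zero_div, map_zero] at hcon
      exact absurd hcon (not_le.2 zero_lt_one)
    apply h
    refine ⟨b / a, ?_, by rw [div_mul_cancel₀ _ ha]⟩
    rw [← (OL p).valuation_le_one_iff]
    have h1 : (OL p).valuation (b / a) = ((OL p).valuation (a / b))⁻¹ := by
      rw [← map_inv₀, inv_div]
    rw [h1]
    exact inv_le_one_of_one_le₀ hcon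
  have htv : (OL p).valuation (tL p) < 1 := by
    by_contra hcon
    push Not at hcon
    apply (ta_L p).t_inv
    rw [← (OL p).valuation_le_one_iff, map_inv₀]
    exact inv_le_one_of_one_le₀ hcon
  obtain ⟨d, hd, h1⟩ := div_cont (O := OL p) (a := a) hb ht ⟨tL p, ht, htv⟩
  refine ⟨d, hd, fun a' b' ha' hb' => ?_⟩
  rintro ⟨x, hx, h2⟩
  obtain ⟨hb0, h3⟩ := h1 a' b' ha' hb'
  have h4 : (OL p).valuation (a' / b') < 1 := by
    obtain ⟨u, hu, h5⟩ := h3
    have h6 : a' / b' = a / b + tL p * u := by rw [← h5]; ring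
    rw [h6]
    refine lt_of_le_of_lt ((OL p).valuation.map_add _ _) (max_lt hab ?_)
    rw [map_mul]
    calc (OL p).valuation (tL p) * (OL p).valuation u
        ≤ (OL p).valuation (tL p) * 1 :=
          mul_le_mul_right ((OL p).valuation_le_one_iff u |>.2 hu) _
      _ < 1 := by rw [mul_one]; exact htv
  have ha0 : a' ≠ 0 := by
    rintro rfl
    rw [mul_zero] at h2
    exact hb0 h2
  have h5 : x * (a' / b') = 1 := by
    rw [h2]
    have hx0 : x ≠ 0 := by
      rintro rfl
      rw [zero_mul] at h2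
      exact hb0 h2
    field_simp
  have h6 : (OL p).valuation (x * (a' / b')) < 1 := by
    rw [map_mul]
    calc (OL p).valuation x * (OL p).valuation (a' / b')
        ≤ 1 * (OL p).valuation (a' / b') :=
          mul_le_mul_left ((OL p).valuation_le_one_iff x |>.2 hx) _
      _ < 1 := by rw [one_mul]; exact h4
  rw [h5, map_one] at h6
  exact absurd h6 (lt_irrefl _)

theorem synC_bex {v : Fin n} {φ : Form (K p) n} {s : Fin n → L p} :
    HL p (.ex v (.and (.dvd 1 (X v)) φ)) s ↔
      ∃ a ∈ OL p, HL p φ (Function.update s v a) := by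
  have key : ∀ a : L p, HL p (.dvd 1 (X v)) (Function.update s v a) ↔ a ∈ OL p := by
    intro a
    show (∃ x ∈ OL p, (X v : MvPolynomial (Fin n) (K p)).eval₂ _ _ =
      x * (1 : MvPolynomial (Fin n) (K p)).eval₂ _ _) ↔ _
    simp only [eval₂_X, eval₂_one, mul_one, Function.update_self]
    constructor
    · rintro ⟨x, hx, rfl⟩
      exact hx
    · intro ha
      exact ⟨a, ha, rfl⟩
  constructor
  · rintro ⟨a, h1, h2⟩
    exact ⟨a, (key a).1 h1, h2⟩
  · rintro ⟨a, h1, h2⟩
    exact ⟨a, (key a).2 h1, h2⟩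

/-- positive formulas with bounded quantifiers: if it is false at `c` then also at the tuples close to `c`.  Proof: `eq`: `cont_aeval`;
`dvd`: `g ≠ 0`, and `f = 0` or `f⁻¹ g ∉ O`; `ex`: `seq_compact`. -/
theorem clo_open {φ : Form (K p) n} (h : φ.Clo) (c : Fin n → L p) (hc : ¬ HL p φ c) :
    ∃ e : L p, e ≠ 0 ∧ ∀ c', (∀ i, Cl (OL p) e (c' i) (c i)) → ¬ HL p φ c' := by
  induction h generalizing c with
  | eq f =>
    have hf : aeval c f ≠ 0 := hc
    obtain ⟨d, hd, h1⟩ := div_cont (O := OL p) (a := 0) hf one_ne_zero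
      (nontriv (ta_L p))
    obtain ⟨e, he, h2⟩ := cont_aeval (O := OL p) f c hd
    exact ⟨e, he, fun c' hc' => (h1 0 _ (cl_refl _ _) (h2 c' hc')).1⟩
  | dvd f g =>
    obtain ⟨d, hd, h1⟩ := synC_dvd (p := p) (a := aeval c f) (b := aeval c g) hc
    obtain ⟨e1, he1, h2⟩ := cont_aeval (O := OL p) f c hd
    obtain ⟨e2, he2, h3⟩ := cont_aeval (O := OL p) g c hd
    obtain ⟨e, he, h4, h5⟩ := exists_both (O := OL p) he1 he2
    exact ⟨e, he, fun c' hc' => h1 _ _ (h2 c' fun i => h4 _ _ (hc' i))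
      (h3 c' fun i => h5 _ _ (hc' i))⟩
  | and h1 h2 ih1 ih2 =>
    rename_i φ ψ
    by_cases h3 : HL p φ c
    · obtain ⟨e, he, h4⟩ := ih2 c fun h5 => hc ⟨h3, h5⟩
      exact ⟨e, he, fun c' hc' h6 => h4 c' hc' h6.2⟩
    · obtain ⟨e, he, h4⟩ := ih1 c h3
      exact ⟨e, he, fun c' hc' h6 => h4 c' hc' h6.1⟩
  | or h1 h2 ih1 ih2 =>
    rename_i φ ψ
    have h3 : ¬ HL p φ c ∧ ¬ HL p ψ c := by
      by_contra h4
      exact hc h4
    obtain ⟨e1, he1, h4⟩ := ih1 c h3.1
    obtain ⟨e2, he2, h5⟩ := ih2 c h3.2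
    obtain ⟨e, he, h6, h7⟩ := exists_both (O := OL p) he1 he2
    refine ⟨e, he, fun c' hc' h8 => h8 ⟨h4 c' fun i => h6 _ _ (hc' i), h5 c' fun i => h7 _ _ (hc' i)⟩⟩
  | ex v h1 ih =>
    rename_i φ
    by_contra hcon
    push Not at hcon
    have ht := t_ne_zero (ta_L p)
    choose c' hc' hc'' using fun k : ℕ => hcon (tL p ^ k) (pow_ne_zero k ht)
    choose a ha ha' using fun k => synC_bex.1 (hc'' k)
    obtain ⟨r, w, hr, hw, hlim⟩ := seq_compact p (k := 1) (fun k _ => a k) fun k _ => ha k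
    have h2 : ¬ HL p φ (Function.update c v (w 0)) := fun h3 => hc (synC_bex.2 ⟨w 0, hw 0, h3⟩)
    obtain ⟨e, he, h3⟩ := ih _ h2
    obtain ⟨n1, hn1⟩ := synC_small (p := p) he
    obtain ⟨n2, hn2⟩ := hlim e he
    refine h3 _ (fun i => ?_) (ha' (r (max n1 n2)))
    by_cases hi : i = v
    · rw [hi, Function.update_self, Function.update_self]
      exact hn2 _ (le_max_right _ _) 0
    · rw [Function.update_of_ne hi, Function.update_of_ne hi]
      exact hn1 _ ((le_max_left _ _).trans (hr.id_le _)) _ _ (hc' _ i)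

/-- Proof: `ex`: if it is false, `clo_open`; if it is true at `c` with the witness `a ∈ O`, the induction hypothesis at `update c v a`, `lift` and `near_upd`
(an element close to `a ∈ O` is in `O`). -/
theorem lc_clo {φ : Form (K p) n} (h : φ.Clo) : LCp p (HL p φ) := by
  induction h with
  | eq f => exact lc_eq hp.out (ta_L p) (emb_KL p) f
  | dvd f g => exact lc_dvd hp.out (ta_L p) (emb_KL p) f g
  | and h1 h2 ih1 ih2 => exact lcp_and ih1 ih2
  | or h1 h2 ih1 ih2 => exact lcp_not (lcp_and (lcp_not ih1) (lcp_not ih2))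
  | ex v h1 ih =>
    rename_i φ
    intro c
    by_cases hc : HL p (.ex v (.and (.dvd 1 (X v)) φ)) c
    · obtain ⟨a, ha, h2⟩ := synC_bex.1 hc
      obtain ⟨m1, e1, he1, h3⟩ := ih (Function.update c v a)
      obtain ⟨e2, he2, h4, h5⟩ := exists_both (O := OL p) he1 one_ne_zero
      obtain ⟨m, e, he, h6⟩ := lift hp.out (ta_K p) (ta_L p) (emb_KL p) c a m1 he2
      refine ⟨m, e, he, fun c' hc' => iff_of_true ?_ hc⟩
      obtain ⟨a', ha'⟩ := h6 c' hc'
      refine synC_bex.2 ⟨a', ?_, ?_⟩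
      · obtain ⟨u, hu, h7⟩ := h5 _ _ (ha'.2 (Sum.inr ()))
        have h8 : a' = a + u := by
          have h9 : a' - a = 1 * u := h7
          rw [one_mul] at h9
          rw [← h9]
          ring
        rw [h8]
        exact (OL p).add_mem _ _ ha hu
      · refine (h3 _ ?_).2 h2
        exact near_radius hp.out (ta_L p) h4 (near_upd hp.out (ta_L p) v ha')
    · obtain ⟨e, he, h2⟩ := clo_open (.ex v h1) c hc
      exact ⟨0, e, he, fun c' hc' => iff_of_false (h2 c' hc'.2) hc⟩

theorem pv_clo {φ : Form (K p) n} (h : φ.Clo) (v : Fin n) (hs : φ.Sep v) : PV v φ := by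
  induction h with
  | eq f => exact pv_eq v f
  | dvd f g => exact pv_dvd v f g
  | and h1 h2 ih1 ih2 => exact pv_and (ih1 hs.1) (ih2 hs.2)
  | or h1 h2 ih1 ih2 => exact pv_not (pv_and (pv_not (ih1 hs.1)) (pv_not (ih2 hs.2)))
  | ex w h1 ih => exact pv_leaf (lc_clo (.ex w h1)) hs

theorem synC_leaf {φ : Form (K p) n} (w : Fin n) (ws : List (Fin n))
    (hlc : LCp p (HL p (Form.exs (w :: ws) φ))) (v : Fin n) (hs : (Form.exs (w :: ws) φ).Sep v) :
    PV v (Form.exs (w :: ws) φ) := pv_leaf hlc hs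

/-- the formulas of the class are locally constant -/
theorem nst_main {φ : Form (K p) n} (h : φ.Nst) : LCp p (HL p φ) ∧ ∀ v, φ.Sep v → PV v φ := by
  induction h with
  | eq f => exact ⟨lc_eq hp.out (ta_L p) (emb_KL p) f, fun v _ => pv_eq v f⟩
  | dvd f g => exact ⟨lc_dvd hp.out (ta_L p) (emb_KL p) f g, fun v _ => pv_dvd v f g⟩
  | not h ih => exact ⟨lcp_not ih.1, fun v hv => pv_not (ih.2 v hv)⟩
  | and h1 h2 ih1 ih2 =>
    exact ⟨lcp_and ih1.1 ih2.1, fun v hv => pv_and (ih1.2 v hv.1) (ih2.2 v hv.2)⟩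
  | ex w h hs ih =>
    have h1 := lc_ex (ih.2 w hs)
    exact ⟨h1, fun v hv => pv_leaf h1 hv⟩
  | clo h => exact ⟨lc_clo h, fun v hv => pv_clo h v hv⟩
  | closed vs h hf ih =>
    cases vs with
    | nil => exact ih
    | cons w ws =>
      refine ⟨?_, ?_⟩
      · intro c
        refine ⟨0, 1, one_ne_zero, fun c' _ => ?_⟩
        exact Form.holds_congr _ fun u hu => absurd hu (hf u)
      · intro v _
        refine pv_leaf ?_ (Or.inl (hf v))
        intro c
        refine ⟨0, 1, one_ne_zero, fun c' _ => ?_⟩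
        exact Form.holds_congr _ fun u hu => absurd hu (hf u)
  | unary vs v0 h hcst hf ih =>
    cases vs with
    | nil => exact ih
    | cons w ws =>
      rename_i φ
      obtain ⟨χ, hχ⟩ : ∃ χ, χ = Form.exs (w :: ws) φ := ⟨_, rfl⟩
      have hcst' : χ.Cst := by
        rw [hχ]
        exact Form.exs_cst _ hcst
      rw [← hχ] at hf
      have h1 : LCp p fun z : Unit → L p => HL p χ (fun _ => z ()) :=
        lc_inv p (fun z => HL p χ fun _ => z) fun σ hσ z =>
          Form.holds_aut χ hcst' σ hσ fun _ => z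
      have h2 : LCp p (HL p χ) := by
        intro c
        obtain ⟨m, e, he, h3⟩ := h1 fun _ => c v0
        refine ⟨m, e, he, fun c' hc' => ?_⟩
        have h4 := h3 (fun _ => c' v0) (near_comp hp.out (ta_L p) hc' fun _ : Unit => v0)
        have h5 : ∀ s : Fin n → L p, HL p χ s ↔ HL p χ fun _ => s v0 := fun s =>
          Form.holds_congr χ fun u hu => by rw [hf u hu]
        rw [h5 c, h5 c']
        exact h4
      have h3 : ∀ v, (Form.exs (w :: ws) φ).Sep v → PV v (Form.exs (w :: ws) φ) := by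
        intro v hv
        refine pv_leaf ?_ hv
        rw [← hχ]
        exact h2
      refine ⟨?_, h3⟩
      rw [← hχ]
      exact h2

end TF45
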